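import Pool.Agent.Helper19.V5.Defs

/-!
# V5-1: a good fraction

`β = y - a/q`, `Q = QQ M y a q = q (1 + M |β|) ≥ q ≥ 1`, `D = 2 max(Q, M/Q)` (so `D ≥ 2 Q ≥ 2 q ≥ 2`, `D ≥ 2 M/Q`). `Real.exists_rat_abs_sub_le_and_den_le y` with `n = ⌊D⌋`: a fraction `c/r`, `r ≤ D`,
`|y - c/r| ≤ 1/((n + 1) r) ≤ 1/(D r)` (`≤ 1/r²` as `r ≤ D`).
* `c/r ≠ a/q`: `1/(q r) ≤ |c/r - a/q| ≤ 1/(D r) + |β| ≤ 1/(2 q r) + |β|`, so `1 ≤ 2 q r |β|`, and `M / r ≤ 2 q M |β| ≤ 2 Q`; `M/r + r ≤ 2 Q + D ≤ 4 Q + 2 M/Q`.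
* `c/r = a/q`: `r = q`, `|β| ≤ 1/(D q)`, `q M |β| ≤ M/D ≤ Q/2`, so `q ≥ Q/2` and `M/r + r ≤ 2 M/Q + Q`.
-/

namespace Pool.Helper19.V5

open ArithmeticFunction Finset Pool.Helper19.V4

theorem appr {q : ℕ} {a : ℤ} (hq : 1 ≤ q) (haq : IsCoprime a (q : ℤ)) (y : ℝ) {M : ℝ} (hM : 0 < M) :
    ∃ (c : ℤ) (r : ℕ), 1 ≤ r ∧ IsCoprime c (r : ℤ) ∧ |y - c / r| ≤ 1 / (r : ℝ) ^ 2 ∧
      M / r + r ≤ 4 * (M / QQ M y a q + QQ M y a q) := by
  have hq1 : (1 : ℝ) ≤ q := by exact_mod_cast hq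
  have hq0 : (0 : ℝ) < q := by linarith
  obtain ⟨B, hB⟩ : ∃ B : ℝ, B = |y - a / q| := ⟨_, rfl⟩
  have hB0 : 0 ≤ B := by rw [hB]; exact abs_nonneg _
  obtain ⟨Q, hQ⟩ : ∃ Q : ℝ, Q = QQ M y a q := ⟨_, rfl⟩
  have hQB : Q = q * (1 + M * B) := by rw [hQ, hB]; rfl
  rw [← hQ]
  have hqMB : 0 ≤ q * (M * B) := by positivity
  have hQq : (q : ℝ) ≤ Q := by rw [hQB]; linarith
  have hQMB : q * (M * B) ≤ Q := by rw [hQB]; linarith
  have hQ0 : 0 < Q := by linarith
  obtain ⟨D, hD⟩ : ∃ D : ℝ, D = 2 * max Q (M / Q) := ⟨_, rfl⟩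
  have hD1 : 2 * Q ≤ D := by rw [hD]; have := le_max_left Q (M / Q); linarith
  have hD2 : 2 * (M / Q) ≤ D := by rw [hD]; have := le_max_right Q (M / Q); linarith
  have hD3 : D ≤ 2 * Q + 2 * (M / Q) := by
    rw [hD]
    have h1 : 0 < M / Q := by positivity
    have h2 : max Q (M / Q) ≤ Q + M / Q := max_le (by linarith) (by linarith)
    linarith
  have hD0 : 2 ≤ D := by linarith
  have hn : 0 < ⌊D⌋₊ := Nat.floor_pos.mpr (by linarith)
  obtain ⟨s, hs1, hs2⟩ := Real.exists_rat_abs_sub_le_and_den_le y hn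
  have hsden : (0 : ℝ) < s.den := by exact_mod_cast s.den_pos
  have hsD : (s.den : ℝ) ≤ D := le_trans (by exact_mod_cast hs2) (Nat.floor_le (by linarith))
  have hfl : D < (⌊D⌋₊ : ℝ) + 1 := Nat.lt_floor_add_one D
  have hscast : ((s : ℚ) : ℝ) = (s.num : ℝ) / (s.den : ℝ) := by
    exact_mod_cast congrArg (fun t : ℚ => (t : ℝ)) (Rat.num_div_den s).symm
  rw [hscast] at hs1
  have hs3 : |y - (s.num : ℝ) / (s.den : ℝ)| ≤ 1 / (D * s.den) := by
    refine le_trans hs1 (one_div_le_one_div_of_le (by positivity) ?_)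
    exact mul_le_mul_of_nonneg_right hfl.le hsden.le
  have hs4 : |y - (s.num : ℝ) / (s.den : ℝ)| ≤ 1 / (s.den : ℝ) ^ 2 := by
    refine le_trans hs3 (one_div_le_one_div_of_le (by positivity) ?_)
    rw [sq]
    exact mul_le_mul_of_nonneg_right hsD hsden.le
  have hcop : IsCoprime s.num (s.den : ℤ) := by
    rw [Int.isCoprime_iff_gcd_eq_one]
    have := s.reduced
    rwa [Nat.coprime_iff_gcd_eq_one] at this
  refine ⟨s.num, s.den, s.den_pos, hcop, hs4, ?_⟩
  by_cases heq : s.num * (q : ℤ) = a * (s.den : ℤ)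
  · -- the same fraction
    have h1 : (q : ℤ) ∣ (s.den : ℤ) := by
      have : (q : ℤ) ∣ a * (s.den : ℤ) := ⟨s.num, by rw [← heq]; ring⟩
      exact haq.symm.dvd_of_dvd_mul_left this
    have h2 : (s.den : ℤ) ∣ (q : ℤ) := by
      have : (s.den : ℤ) ∣ s.num * (q : ℤ) := ⟨a, by rw [heq]; ring⟩
      exact hcop.symm.dvd_of_dvd_mul_left this
    have h3 : s.den = q := Nat.dvd_antisymm (by exact_mod_cast h2) (by exact_mod_cast h1)
    have h4 : (s.num : ℝ) / (s.den : ℝ) = a / q := by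
      rw [h3]
      congr 1
      rw [h3] at heq
      have h5 : s.num = a := mul_right_cancel₀ (by exact_mod_cast (by omega : q ≠ 0)) heq
      rw [h5]
    rw [h4, h3, ← hB] at hs3
    rw [h3]
    have h6 : M ≤ D * Q / 2 := by
      have : M / Q * Q ≤ D / 2 * Q := mul_le_mul_of_nonneg_right (by linarith) hQ0.le
      rw [div_mul_cancel₀ _ hQ0.ne'] at this
      linarith
    have h7 : B * (D * q) ≤ 1 := by
      rw [le_div_iff₀ (by positivity)] at hs3
      exact hs3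
    have h8 : q * (M * B) ≤ Q / 2 := by
      have h9 : q * (M * B) ≤ q * ((D * Q / 2) * B) := by gcongr
      have h10 : q * ((D * Q / 2) * B) = (B * (D * q)) * (Q / 2) := by ring
      have h11 : (B * (D * q)) * (Q / 2) ≤ 1 * (Q / 2) := mul_le_mul_of_nonneg_right h7 (by linarith)
      linarith
    have h12 : Q ≤ 2 * q := by
      have : Q = q + q * (M * B) := by rw [hQB]; ring
      linarith
    have h13 : M / q ≤ 2 * (M / Q) := by
      rw [← mul_div_assoc, div_le_div_iff₀ hq0 hQ0]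
      nlinarith
    have h14 : 0 < M / Q := by positivity
    linarith
  · -- different fractions
    have hne : (1 : ℝ) ≤ |(s.num : ℝ) * q - a * s.den| := by
      have h1 : s.num * (q : ℤ) - a * (s.den : ℤ) ≠ 0 := sub_ne_zero.mpr heq
      have h2 : 1 ≤ |s.num * (q : ℤ) - a * (s.den : ℤ)| := Int.one_le_abs h1
      exact_mod_cast h2
    have h1 : 1 / ((q : ℝ) * s.den) ≤ |(s.num : ℝ) / s.den - a / q| := by
      have h2 : (s.num : ℝ) / s.den - a / q = ((s.num : ℝ) * q - a * s.den) / (q * s.den) := by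
        field_simp
      rw [h2, abs_div, abs_of_pos (show (0 : ℝ) < q * s.den by positivity)]
      exact div_le_div_of_nonneg_right hne (by positivity)
    have h3 : |(s.num : ℝ) / s.den - a / q| ≤ |y - (s.num : ℝ) / s.den| + B := by
      rw [hB]
      have h4 : (s.num : ℝ) / s.den - a / q = -(y - (s.num : ℝ) / s.den) + (y - a / q) := by ring
      rw [h4]
      refine le_trans (abs_add_le _ _) ?_
      rw [abs_neg]
    have h5 : 1 / (D * (s.den : ℝ)) ≤ 1 / (2 * (q * s.den)) := by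
      refine one_div_le_one_div_of_le (by positivity) ?_
      rw [← mul_assoc]
      exact mul_le_mul_of_nonneg_right (by linarith) hsden.le
    have h6 : 1 / (2 * ((q : ℝ) * s.den)) = 1 / (q * s.den) / 2 := by
      field_simp
    have h7 : 1 / ((q : ℝ) * s.den) / 2 ≤ B := by
      rw [h6] at h5
      linarith
    have h8 : 1 ≤ 2 * (q * s.den) * B := by
      rw [div_div, div_le_iff₀ (by positivity)] at h7
      linarith
    have h9 : M / s.den ≤ 2 * Q := by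
      rw [div_le_iff₀ hsden]
      have h10 : M * 1 ≤ M * (2 * (q * s.den) * B) := mul_le_mul_of_nonneg_left h8 hM.le
      have h11 : M * (2 * (q * s.den) * B) = 2 * (q * (M * B)) * s.den := by ring
      have h12 : 2 * (q * (M * B)) * s.den ≤ 2 * Q * s.den := mul_le_mul_of_nonneg_right (by linarith) hsden.le
      linarith
    have h14 : 0 < M / Q := by positivity
    linarith

end Pool.Helper19.V5
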