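import Pool.Agent.Helper19.V5.TypeTwoR
import Pool.Agent.Helper19.V4.BoxTwo

/-!
# V5-7: bilinear boxes, real `x`

The proof of `V4/BoxTwo.lean` with `type_two_r` instead of `type_two` (`SF` becomes `SX`; the facts `box_zero`, `SF_mul` have the same proofs for `SX`).
-/

namespace Pool.Helper19.V5

open ArithmeticFunction Finset Pool.Helper19.V4

/-- The sum of the squares of a product of at most nine pieces. -/
private lemma sq_sum66 {k : ℕ} (hk : k ≤ 9) {f : Fin k → ArithmeticFunction ℂ} (S : Finset (Fin k))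
    (h : ∀ i ∈ S, ∀ n, ‖f i n‖ ≤ 1) {A : ℕ} {W : ℝ} (hW : 1 ≤ W)
    (hd : ∀ n : ℕ, n ≠ 0 → n ≤ A → (n.divisors.card : ℝ) ≤ W) :
    ∑ m ∈ Icc 1 A, ‖(∏ i ∈ S, f i) m‖ ^ 2 ≤ A * W ^ 18 := by
  have h1 : ∀ m ∈ Icc 1 A, ‖(∏ i ∈ S, f i) m‖ ^ 2 ≤ W ^ 18 := by
    intro m hm
    rw [mem_Icc] at hm
    have hm0 : m ≠ 0 := by omega
    have h2 := prod_le S h hm0
    have hcard : S.card ≤ 9 := by
      have := S.card_le_univ
      rw [Fintype.card_fin] at this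
      omega
    have h3 : (m.divisors.card : ℝ) ^ S.card ≤ W ^ S.card :=
      pow_le_pow_left₀ (Nat.cast_nonneg _) (hd m hm0 hm.2) _
    have h4 : W ^ S.card ≤ W ^ 9 := pow_le_pow_right₀ hW hcard
    have h5 : ‖(∏ i ∈ S, f i) m‖ ≤ W ^ 9 := h2.trans (h3.trans h4)
    calc ‖(∏ i ∈ S, f i) m‖ ^ 2 ≤ (W ^ 9) ^ 2 := pow_le_pow_left₀ (norm_nonneg _) h5 2
      _ = W ^ 18 := by ring
  calc ∑ m ∈ Icc 1 A, ‖(∏ i ∈ S, f i) m‖ ^ 2 ≤ ∑ _m ∈ Icc 1 A, W ^ 18 := sum_le_sum h1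
    _ = A * W ^ 18 := by rw [sum_const, Nat.card_Icc, Nat.add_sub_cancel, nsmul_eq_mul]

theorem SX_zero {k : ℕ} {f : Fin k → ArithmeticFunction ℂ} {K : Fin k → ℕ} (h : ∀ i, Pc (K i) (f i))
    {M : ℕ} (hM : M < ∏ i, K i) (x : ℝ) : SX (∏ i, f i) M x = 0 := by
  unfold SX
  refine Finset.sum_eq_zero fun n hn => ?_
  rw [mem_Icc] at hn
  by_cases h0 : (∏ i, f i) n = 0
  · rw [h0, zero_mul]
  · have := (prod_supp Finset.univ (fun i _ => h i) h0).1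
    omega

theorem SX_triv {k : ℕ} {f : Fin k → ArithmeticFunction ℂ} {K : Fin k → ℕ} (h : ∀ i, Pc (K i) (f i))
    (M : ℕ) (x : ℝ) : ‖SX (∏ i, f i) M x‖ ≤ ∏ i, (K i : ℝ) := by
  refine le_trans ?_ (prod_l1 Finset.univ (fun i _ => h i) M)
  unfold SX
  refine (norm_sum_le _ _).trans (Finset.sum_le_sum fun n _ => ?_)
  rw [norm_mul, norm_ex, mul_one]

private lemma SX_mul66 (f g : ArithmeticFunction ℂ) {A B X : ℕ} (hf : ∀ n, f n ≠ 0 → n ≤ A) (hg : ∀ n, g n ≠ 0 → n ≤ B)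
    (hX : A * B ≤ X) (x : ℝ) :
    SX (f * g) X x = ∑ m ∈ Icc 1 A, ∑ n ∈ Icc 1 B, f m * g n * ex (((m : ℝ) * n) * x) := by
  classical
  rw [SX, ← Finset.sum_product' (Icc 1 A) (Icc 1 B) fun m n => f m * g n * ex (((m : ℝ) * n) * x)]
  have hmaps : ∀ p ∈ Icc 1 A ×ˢ Icc 1 B, p.1 * p.2 ∈ Icc 1 X := by
    intro p hp
    rw [mem_product, mem_Icc, mem_Icc] at hp
    rw [mem_Icc]
    exact ⟨Nat.one_le_iff_ne_zero.mpr (Nat.mul_ne_zero (by omega) (by omega)),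
      (Nat.mul_le_mul hp.1.2 hp.2.2).trans hX⟩
  rw [← Finset.sum_fiberwise_of_maps_to hmaps]
  refine Finset.sum_congr rfl fun n hn => ?_
  rw [ArithmeticFunction.mul_apply, Finset.sum_mul]
  rw [mem_Icc] at hn
  have hsub : (Icc 1 A ×ˢ Icc 1 B).filter (fun p => p.1 * p.2 = n) ⊆ n.divisorsAntidiagonal := by
    intro p hp
    rw [mem_filter] at hp
    rw [Nat.mem_divisorsAntidiagonal]
    exact ⟨hp.2, by omega⟩
  rw [← Finset.sum_subset hsub]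
  · refine Finset.sum_congr rfl fun p hp => ?_
    rw [mem_filter] at hp
    rw [← hp.2]
    push_cast
    rfl
  · intro p hp hnp
    rw [Nat.mem_divisorsAntidiagonal] at hp
    obtain ⟨h1, h2⟩ := hp
    have hx : p.1 ≠ 0 := fun h => h2 (by rw [← h1, h, zero_mul])
    have hy : p.2 ≠ 0 := fun h => h2 (by rw [← h1, h, mul_zero])
    by_contra hne
    apply hnp
    rw [mem_filter, mem_product, mem_Icc, mem_Icc]
    refine ⟨⟨⟨by omega, hf _ fun h0 => hne ?_⟩, ⟨by omega, hg _ fun h0 => hne ?_⟩⟩, h1⟩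
    · rw [h0, zero_mul, zero_mul]
    · rw [h0, mul_zero, zero_mul]

theorem box_two_x {ε : ℝ} (hε : 0 < ε) : ∃ C : ℝ, 0 < C ∧ ∀ N : ℕ, 2 ≤ N → ∀ (x : ℝ) (a : ℤ) (r : ℕ), 1 ≤ r →
    IsCoprime a (r : ℤ) → |x - a / r| ≤ 1 / (r : ℝ) ^ 2 → ∀ k ≤ 9, ∀ (f : Fin k → ArithmeticFunction ℂ) (K : Fin k → ℕ),
    (∀ i, Pc (K i) (f i)) → ∀ (T : Finset (Fin k)), ∀ M ≤ N,
      ‖SX (∏ i, f i) M x‖ ^ 2 ≤ C * (N : ℝ) ^ ε * ((∏ i ∈ T, (K i : ℝ)) * ∏ i ∈ Tᶜ, (K i : ℝ)) *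
        ((∏ i ∈ T, (K i : ℝ)) * (∏ i ∈ Tᶜ, (K i : ℝ)) / r + (∏ i ∈ T, (K i : ℝ)) + (∏ i ∈ Tᶜ, (K i : ℝ)) + r) := by
  obtain ⟨C₀, hC₀, hsep⟩ := sep_bound
  obtain ⟨C₁, hC₁, hdiv⟩ := Pool.Agent.Helper69.FF.div_bound (ε := ε / 72) (by positivity)
  obtain ⟨C₂, hC₂⟩ : ∃ C₂ : ℝ, C₂ = max 1 C₁ := ⟨_, rfl⟩
  have hC₂1 : 1 ≤ C₂ := by rw [hC₂]; exact le_max_left _ _
  have hC₂2 : C₁ ≤ C₂ := by rw [hC₂]; exact le_max_right _ _
  refine ⟨C₀ ^ 2 * (4 / ε) ^ 2 * C₂ ^ 36 * (2 ^ 10 : ℝ) ^ ε * (16 * 2 ^ 18), by positivity, ?_⟩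
  intro N hN x a b hb hab hxb k hk f K hf T M hM
  obtain ⟨P, hP⟩ : ∃ P : ℕ, P = ∏ i ∈ T, K i := ⟨_, rfl⟩
  obtain ⟨Q, hQ⟩ : ∃ Q : ℕ, Q = ∏ i ∈ Tᶜ, K i := ⟨_, rfl⟩
  have hPr : (∏ i ∈ T, (K i : ℝ)) = (P : ℝ) := by rw [hP]; push_cast; rfl
  have hQr : (∏ i ∈ Tᶜ, (K i : ℝ)) = (Q : ℝ) := by rw [hQ]; push_cast; rfl
  rw [hPr, hQr]
  have hPQ : ∏ i, K i = P * Q := by rw [hP, hQ, Finset.prod_mul_prod_compl]
  have hb0 : (0 : ℝ) < b := by exact_mod_cast hb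
  have hN0 : (0 : ℝ) < N := by exact_mod_cast (by omega : 0 < N)
  rcases lt_or_ge M (P * Q) with hlt | hge
  · rw [SX_zero hf (by rw [hPQ]; exact hlt), norm_zero]
    have h0 : (0 : ℝ) ≤ C₀ ^ 2 * (4 / ε) ^ 2 * C₂ ^ 36 * (2 ^ 10 : ℝ) ^ ε * (16 * 2 ^ 18) * (N : ℝ) ^ ε *
        ((P : ℝ) * Q) * ((P : ℝ) * Q / b + P + Q + b) := by positivity
    rw [zero_pow two_ne_zero]
    exact h0
  have hPQN : P * Q ≤ N := hge.trans hM
  have hcard : T.card + Tᶜ.card = k := by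
    rw [Finset.card_add_card_compl, Fintype.card_fin]
  obtain ⟨A, hA⟩ : ∃ A : ℕ, A = 2 ^ T.card * P := ⟨_, rfl⟩
  obtain ⟨B, hB⟩ : ∃ B : ℕ, B = 2 ^ Tᶜ.card * Q := ⟨_, rfl⟩
  have hP1 : 1 ≤ P := by
    rw [hP]; exact Finset.one_le_prod' fun i _ => (hf i).pos
  have hQ1 : 1 ≤ Q := by
    rw [hQ]; exact Finset.one_le_prod' fun i _ => (hf i).pos
  have hA1 : 1 ≤ A := by rw [hA]; exact Nat.mul_pos (by positivity) hP1
  have hB1 : 1 ≤ B := by rw [hB]; exact Nat.mul_pos (by positivity) hQ1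
  have hAB : A * B = 2 ^ k * (P * Q) := by
    have e : 2 ^ k = 2 ^ T.card * 2 ^ Tᶜ.card := by rw [← pow_add, hcard]
    rw [hA, hB, e]; ring
  have h2k : 2 ^ k ≤ 2 ^ 9 := Nat.pow_le_pow_right (by norm_num) hk
  have hABN : A * B ≤ 2 ^ 9 * N := by rw [hAB]; exact Nat.mul_le_mul h2k hPQN
  obtain ⟨X, hX⟩ : ∃ X : ℕ, X = 2 * (A * B) := ⟨_, rfl⟩
  have hX2 : 2 ≤ X := by
    have : 1 ≤ A * B := Nat.mul_pos hA1 hB1
    omega
  have hXN : X ≤ 2 ^ 10 * N := by rw [hX]; omega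
  have hABX : A * B ≤ X := by omega
  obtain ⟨W, hW⟩ : ∃ W : ℝ, W = C₂ * ((2 ^ 10 : ℝ) * N) ^ (ε / 72) := ⟨_, rfl⟩
  have hbig : (1 : ℝ) ≤ (2 ^ 10 : ℝ) * N := by
    have : (1 : ℝ) ≤ N := by exact_mod_cast (by omega : 1 ≤ N)
    nlinarith
  have hW1 : 1 ≤ W := by
    rw [hW]
    have h1 : (1 : ℝ) ≤ ((2 ^ 10 : ℝ) * N) ^ (ε / 72) := Real.one_le_rpow hbig (by positivity)
    nlinarith
  have hd : ∀ n : ℕ, n ≠ 0 → n ≤ X → (n.divisors.card : ℝ) ≤ W := by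
    intro n hn hnX
    refine (hdiv n hn).trans ?_
    rw [hW]
    have h1 : (n : ℝ) ≤ (2 ^ 10 : ℝ) * N := by exact_mod_cast hnX.trans hXN
    exact mul_le_mul hC₂2 (Real.rpow_le_rpow (Nat.cast_nonneg _) h1 (by positivity)) (by positivity)
      (by linarith)
  have hAX : A ≤ X := by
    have := Nat.le_mul_of_pos_right A hB1
    omega
  have hBX : B ≤ X := by
    have := Nat.le_mul_of_pos_left B hA1
    omega
  -- the bound for the twisted sums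
  obtain ⟨E, hE⟩ : ∃ E : ℝ, E = 16 * ((A : ℝ) * B / b + A + B + b) * (A * W ^ 18) * (B * W ^ 18) := ⟨_, rfl⟩
  have hE0 : 0 ≤ E := by rw [hE]; positivity
  have htw : ∀ ξ : ℝ, ‖∑ n ∈ Icc 1 X, ((∏ i, f i) n * ex (n * x)) *
      Complex.exp (((ξ * Real.log n : ℝ) : ℂ) * Complex.I)‖ ≤ Real.sqrt E := by
    intro ξ
    have hpc : ∀ i, Pc (K i) (tw ξ (f i)) := fun i => tw_pc (hf i) ξ
    have e1 : ∑ n ∈ Icc 1 X, ((∏ i, f i) n * ex (n * x)) *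
        Complex.exp (((ξ * Real.log n : ℝ) : ℂ) * Complex.I) =
        SX ((∏ i ∈ T, tw ξ (f i)) * ∏ i ∈ Tᶜ, tw ξ (f i)) X x := by
      rw [Finset.prod_mul_prod_compl, ← tw_prod, SX]
      refine Finset.sum_congr rfl fun n _ => ?_
      change _ = (∏ i, f i) n * Complex.exp (((ξ * Real.log n : ℝ) : ℂ) * Complex.I) * _
      ring
    rw [e1, SX_mul66 _ _ (A := A) (B := B)
      (fun n hn => by rw [hA, hP]; exact (prod_supp T (fun i _ => hpc i) hn).2)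
      (fun n hn => by rw [hB, hQ]; exact (prod_supp Tᶜ (fun i _ => hpc i) hn).2) hABX]
    refine Real.le_sqrt_of_sq_le ?_
    refine (type_two_r hb hab hxb A B _ _).trans ?_
    rw [hE]
    have s1 := sq_sum66 hk (f := fun i => tw ξ (f i)) T (fun i _ n => (hpc i).le n) (A := A) hW1
      (fun n hn hnA => hd n hn (hnA.trans hAX))
    have s2 := sq_sum66 hk (f := fun i => tw ξ (f i)) Tᶜ (fun i _ n => (hpc i).le n) (A := B) hW1
      (fun n hn hnB => hd n hn (hnB.trans hBX))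
    have hc0 : 0 ≤ 16 * ((A : ℝ) * B / b + A + B + b) := by positivity
    refine mul_le_mul (mul_le_mul_of_nonneg_left s1 hc0) s2
      (Finset.sum_nonneg fun _ _ => by positivity) (by positivity)
  have hmain := hsep X hX2 M _ _ htw
  have hSF : SX (∏ i, f i) M x = ∑ n ∈ Icc 1 (min M X), (∏ i, f i) n * ex (n * x) := by
    rw [SX]
    symm
    refine Finset.sum_subset (Finset.Icc_subset_Icc_right (min_le_left _ _)) fun n hn hn' => ?_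
    have h0 : (∏ i, f i) n = 0 := by
      by_contra hne
      have h1 := (prod_supp Finset.univ (fun i _ => hf i) hne).2
      rw [Finset.card_univ, Fintype.card_fin, hPQ, ← hAB] at h1
      rw [mem_Icc] at hn hn'
      apply hn'
      exact ⟨hn.1, le_min hn.2 (h1.trans hABX)⟩
    rw [h0, zero_mul]
  rw [hSF]
  have hlog : Real.log X ≤ ((2 ^ 10 : ℝ) * N) ^ (ε / 4) * (4 / ε) := by
    have hX0 : (0 : ℝ) < X := by exact_mod_cast (by omega : 0 < X)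
    have h1 : (X : ℝ) ≤ (2 ^ 10 : ℝ) * N := by exact_mod_cast hXN
    have h2 := Real.log_le_rpow_div hX0.le (ε := ε / 4) (by positivity)
    refine h2.trans ?_
    rw [div_eq_mul_inv, inv_div]
    exact mul_le_mul_of_nonneg_right (Real.rpow_le_rpow hX0.le h1 (by positivity)) (by positivity)
  have hlog0 : 0 ≤ Real.log X := Real.log_nonneg (by exact_mod_cast (by omega : 1 ≤ X))
  have h36 : W ^ 36 = C₂ ^ 36 * ((2 ^ 10 : ℝ) * N) ^ (ε / 2) := by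
    rw [hW, mul_pow, ← Real.rpow_natCast (((2 ^ 10 : ℝ) * N) ^ (ε / 72)) 36, ← Real.rpow_mul (by positivity)]
    congr 2
    push_cast
    ring
  have hlog2 : Real.log X ^ 2 ≤ ((2 ^ 10 : ℝ) * N) ^ (ε / 2) * (4 / ε) ^ 2 := by
    have h1 := pow_le_pow_left₀ hlog0 hlog 2
    rw [mul_pow, ← Real.rpow_natCast (((2 ^ 10 : ℝ) * N) ^ (ε / 4)) 2, ← Real.rpow_mul (by positivity)] at h1
    have e : ε / 4 * ((2 : ℕ) : ℝ) = ε / 2 := by push_cast; ring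
    rwa [e] at h1
  have hee : ((2 ^ 10 : ℝ) * N) ^ (ε / 2) * ((2 ^ 10 : ℝ) * N) ^ (ε / 2) = (2 ^ 10 : ℝ) ^ ε * (N : ℝ) ^ ε := by
    rw [← Real.rpow_add (by positivity), add_halves, Real.mul_rpow (by positivity) hN0.le]
  have hAr : (A : ℝ) ≤ 2 ^ 9 * P := by
    have : A ≤ 2 ^ 9 * P := by
      rw [hA]; exact Nat.mul_le_mul_right _ (Nat.pow_le_pow_right (by norm_num) (by omega))
    exact_mod_cast this
  have hBr : (B : ℝ) ≤ 2 ^ 9 * Q := by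
    have : B ≤ 2 ^ 9 * Q := by
      rw [hB]; exact Nat.mul_le_mul_right _ (Nat.pow_le_pow_right (by norm_num) (by omega))
    exact_mod_cast this
  have hABr : (A : ℝ) * B ≤ 2 ^ 9 * (P * Q) := by
    have : A * B ≤ 2 ^ 9 * (P * Q) := by rw [hAB]; exact Nat.mul_le_mul_right _ h2k
    exact_mod_cast this
  have hP0 : (0 : ℝ) ≤ P := Nat.cast_nonneg _
  have hQ0 : (0 : ℝ) ≤ Q := Nat.cast_nonneg _
  have hfrac : 16 * ((A : ℝ) * B / b + A + B + b) ≤ 16 * (2 ^ 9 * ((P : ℝ) * Q / b + P + Q + b)) := by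
    have h1 : (A : ℝ) * B / b ≤ 2 ^ 9 * (P * Q) / b := div_le_div_of_nonneg_right hABr hb0.le
    have h2 : (2 : ℝ) ^ 9 * (P * Q) / b = 2 ^ 9 * (P * Q / b) := by ring
    have h3 : (b : ℝ) ≤ 2 ^ 9 * b := by nlinarith
    linarith
  have hE2 : E ≤ (16 * 2 ^ 18 * ((P : ℝ) * Q) * ((P : ℝ) * Q / b + P + Q + b)) * W ^ 36 := by
    have e : E = (16 * ((A : ℝ) * B / b + A + B + b)) * (A * B) * W ^ 36 := by rw [hE]; ring
    rw [e]
    refine mul_le_mul_of_nonneg_right ?_ (by positivity)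
    have h1 := mul_le_mul hfrac hABr (by positivity) (by positivity)
    refine h1.trans (le_of_eq ?_)
    ring
  calc ‖∑ n ∈ Icc 1 (min M X), (∏ i, f i) n * ex (n * x)‖ ^ 2
      ≤ (C₀ * Real.log X * Real.sqrt E) ^ 2 := pow_le_pow_left₀ (norm_nonneg _) hmain 2
    _ = C₀ ^ 2 * Real.log X ^ 2 * E := by rw [mul_pow, mul_pow, Real.sq_sqrt hE0]
    _ ≤ C₀ ^ 2 * (((2 ^ 10 : ℝ) * N) ^ (ε / 2) * (4 / ε) ^ 2) *
        ((16 * 2 ^ 18 * ((P : ℝ) * Q) * ((P : ℝ) * Q / b + P + Q + b)) * W ^ 36) :=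
        mul_le_mul (mul_le_mul_of_nonneg_left hlog2 (by positivity)) hE2 hE0 (by positivity)
    _ = C₀ ^ 2 * (4 / ε) ^ 2 * C₂ ^ 36 * (((2 ^ 10 : ℝ) * N) ^ (ε / 2) * ((2 ^ 10 : ℝ) * N) ^ (ε / 2)) *
        (16 * 2 ^ 18) * ((P : ℝ) * Q) * ((P : ℝ) * Q / b + P + Q + b) := by rw [h36]; ring
    _ = C₀ ^ 2 * (4 / ε) ^ 2 * C₂ ^ 36 * (2 ^ 10 : ℝ) ^ ε * (16 * 2 ^ 18) * (N : ℝ) ^ ε * ((P : ℝ) * Q) *
        ((P : ℝ) * Q / b + P + Q + b) := by rw [hee]; ring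

end Pool.Helper19.V5
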