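import Pool.Agent.Helper19.V4.Defs

/-!
# Moebius exponential sums at every real point: definitions

`SX f M x = ∑_{n ≤ M} f(n) e(n x)`, `QQ M x a q = q (1 + M |x - a/q|)`, and the interface `FIVE`.
-/

namespace Pool.Helper19.V5

open ArithmeticFunction Finset Pool.Helper19.V4

/-- `∑_{n ≤ M} f(n) e(n x)` -/
noncomputable def SX (f : ArithmeticFunction ℂ) (M : ℕ) (x : ℝ) : ℂ := ∑ n ∈ Icc 1 M, f n * ex (n * x)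

/-- `q (1 + M |x - a/q|)` -/
noncomputable def QQ (M x : ℝ) (a : ℤ) (q : ℕ) : ℝ := q * (1 + M * |x - a / q|)

/-- Products of five variables of length about `N^(1/5)`, coprime to `q`, for `N^κ ≤ Q ≤ N^(1/2 - c0)`. -/
def FIVE (κ : ℝ) : Prop := ∀ c0 : ℝ, 0 < c0 → ∃ c : ℝ, 0 < c ∧ ∀ ε : ℝ, 0 < ε → ∃ C : ℝ, 0 < C ∧ ∀ N : ℕ, 1 ≤ N →
  ∀ (q : ℕ) (a : ℤ), 1 ≤ q → IsCoprime a (q : ℤ) → ∀ (x : ℝ) (L : Fin 5 → ℝ) (F : Fin 5 → ArithmeticFunction ℂ),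
    (∀ i, (N : ℝ) ^ ((1 : ℝ) / 5 - c) ≤ L i) → (∀ i, L i ≤ (N : ℝ) ^ ((1 : ℝ) / 5 + c)) → ∏ i, L i ≤ N →
    (∀ i n, F i n ≠ 0 → L i ≤ n ∧ (n : ℝ) < 2 * L i ∧ Nat.Coprime n q) → (∀ i n, ‖F i n‖ ≤ 1) →
    (N : ℝ) ^ κ ≤ QQ (∏ i, L i) x a q → QQ (∏ i, L i) x a q ≤ (N : ℝ) ^ ((1 : ℝ) / 2 - c0) →
    ∀ X : ℕ, 32 * ∏ i, L i ≤ X →
      ‖SX (∏ i, F i) X x‖ ≤ C * (N : ℝ) ^ ε * ((∏ i, L i) / Real.sqrt (QQ (∏ i, L i) x a q) + (N : ℝ) ^ ((4 : ℝ) / 5 - c))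

lemma QQ_ge {M x : ℝ} {a : ℤ} {q : ℕ} (hM : 0 ≤ M) : (q : ℝ) ≤ QQ M x a q := by
  unfold QQ
  have h1 : 0 ≤ M * |x - a / q| := by positivity
  have h2 : (0 : ℝ) ≤ q := by positivity
  nlinarith

lemma QQ_pos {M x : ℝ} {a : ℤ} {q : ℕ} (hM : 0 ≤ M) (hq : 1 ≤ q) : 1 ≤ QQ M x a q :=
  le_trans (by exact_mod_cast hq) (QQ_ge hM)

lemma QQ_mono {M M' x : ℝ} {a : ℤ} {q : ℕ} (h : M ≤ M') : QQ M x a q ≤ QQ M' x a q := by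
  unfold QQ
  have h1 : M * |x - a / q| ≤ M' * |x - a / q| := mul_le_mul_of_nonneg_right h (abs_nonneg _)
  exact mul_le_mul_of_nonneg_left (by linarith) (by positivity)

end Pool.Helper19.V5
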