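import Pool.Agent.Helper19.V5.Defs
import Pool.Agent.Helper19.V4.HB

/-!
# V5-4: dyadic pieces, real `x`

Copy the proof of `V4/Dyad.lean` (`SF f M a b` becomes `SX f M x`).
-/

namespace Pool.Helper19.V5

open ArithmeticFunction Finset Pool.Helper19.V4

/-- The part of `f` on `[2^l, 2^(l+1))`. -/
private noncomputable def pc95 (f : ArithmeticFunction ℂ) (l : ℕ) : ArithmeticFunction ℂ :=
  ⟨fun n => if Nat.log 2 n = l then f n else 0, by simp⟩

private lemma pc95_apply (f : ArithmeticFunction ℂ) (l n : ℕ) : pc95 f l n = if Nat.log 2 n = l then f n else 0 := rfl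

private noncomputable def ev95 (n : ℕ) : ArithmeticFunction ℂ →+ ℂ :=
  { toFun := fun f => f n
    map_zero' := rfl
    map_add' := fun _ _ => rfl }

private lemma sum95 {ι : Type*} (s : Finset ι) (f : ι → ArithmeticFunction ℂ) (n : ℕ) :
    (∑ i ∈ s, f i) n = ∑ i ∈ s, f i n := map_sum (ev95 n) f s

private lemma pc95_sum (f : ArithmeticFunction ℂ) {N n : ℕ} (hn : n ≤ N) :
    (∑ l ∈ range (Nat.log 2 N + 1), pc95 f l) n = f n := by
  rw [sum95]
  simp only [pc95_apply]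
  rw [Finset.sum_ite_eq, if_pos]
  rw [mem_range]
  have := Nat.log_mono_right (b := 2) hn
  omega

private lemma pc95_supp (f : ArithmeticFunction ℂ) (l n : ℕ) (h : pc95 f l n ≠ 0) : 2 ^ l ≤ n ∧ n < 2 * 2 ^ l := by
  rw [pc95_apply] at h
  have h1 : Nat.log 2 n = l := by
    by_contra h2
    rw [if_neg h2] at h
    exact h rfl
  have h0 : n ≠ 0 := by
    intro h2
    rw [h2, f.map_zero] at h
    simp at h
  refine ⟨?_, ?_⟩
  · rw [← h1]
    exact Nat.pow_log_le_self 2 h0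
  · have := Nat.lt_pow_succ_log_self (b := 2) (by norm_num) n
    rw [h1, pow_succ] at this
    omega

private lemma pc95_norm (f : ArithmeticFunction ℂ) (hf : ∀ n, ‖f n‖ ≤ 1) (l n : ℕ) : ‖pc95 f l n‖ ≤ 1 := by
  rw [pc95_apply]
  split_ifs
  · exact hf n
  · simp

/-- `h` has a dyadic decomposition up to `N`. -/
private def Dec95 (N z : ℕ) (h : ArithmeticFunction ℂ) : Prop :=
  ∃ (P : ℕ → ArithmeticFunction ℂ) (K : ℕ → ℕ), (∀ l, Pc (K l) (P l)) ∧ (∀ l, Sm (K l) (P l) ∨ K l ≤ z) ∧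
    ∀ n ≤ N, (∑ l ∈ range (Nat.log 2 N + 1), P l) n = h n

private lemma dec_zeta95 (N z : ℕ) : Dec95 N z (ArithmeticFunction.zeta : ArithmeticFunction ℂ) := by
  have hz : ∀ n : ℕ, (ArithmeticFunction.zeta : ArithmeticFunction ℂ) n = if n = 0 then 0 else 1 := by
    intro n
    rw [ArithmeticFunction.natCoe_apply, ArithmeticFunction.zeta_apply]
    split_ifs <;> simp
  refine ⟨fun l => pc95 _ l, fun l => 2 ^ l, fun l => ⟨Nat.one_le_two_pow, pc95_supp _ l, pc95_norm _ (fun n => ?_) l⟩,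
    fun l => Or.inl fun n h1 h2 => ?_, fun n hn => pc95_sum _ hn⟩
  · rw [hz]
    split_ifs <;> simp
  · have h0 : n ≠ 0 := by
      have := Nat.one_le_two_pow (n := l)
      omega
    have h3 : Nat.log 2 n = l := by
      rw [Nat.log_eq_iff (Or.inr ⟨by norm_num, h0⟩)]
      simp only at h1 h2
      rw [pow_succ]
      omega
    rw [pc95_apply, if_pos h3, hz, if_neg h0]

private lemma dec_muz95 (N : ℕ) {z : ℕ} (hz1 : 1 ≤ z) : Dec95 N z (muz z) := by
  have hz : ∀ n : ℕ, muz z n = if n ≤ z then ((ArithmeticFunction.moebius n : ℤ) : ℂ) else 0 := fun n => rfl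
  have hn1 : ∀ n, ‖muz z n‖ ≤ 1 := by
    intro n
    rw [hz]
    split_ifs
    · rw [Complex.norm_intCast]
      exact_mod_cast ArithmeticFunction.abs_moebius_le_one
    · simp
  refine ⟨fun l => pc95 _ l, fun l => if 2 ^ l ≤ z then 2 ^ l else 1, fun l => ?_, fun l => Or.inr ?_,
    fun n hn => pc95_sum _ hn⟩
  · by_cases h : 2 ^ l ≤ z
    · simp only [if_pos h]
      exact ⟨Nat.one_le_two_pow, pc95_supp _ l, pc95_norm _ hn1 l⟩
    · simp only [if_neg h]
      have h0 : ∀ n, pc95 (muz z) l n = 0 := by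
        intro n
        by_contra h1
        have h2 := pc95_supp _ l n h1
        rw [pc95_apply, hz, if_neg (show ¬ n ≤ z by omega), ite_self] at h1
        exact h1 rfl
      exact ⟨le_rfl, fun n hn => absurd (h0 n) hn, fun n => by simp [h0 n]⟩
  · simp only
    split_ifs with h
    · exact h
    · exact hz1

private lemma mul_congr95 {N : ℕ} {f f' g g' : ArithmeticFunction ℂ} (hf : ∀ n ≤ N, f n = f' n)
    (hg : ∀ n ≤ N, g n = g' n) : ∀ n ≤ N, (f * g) n = (f' * g') n := by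
  intro n hn
  rw [ArithmeticFunction.mul_apply, ArithmeticFunction.mul_apply]
  refine Finset.sum_congr rfl fun p hp => ?_
  have hp' := Nat.mem_divisorsAntidiagonal.mp hp
  have h1 : p.1 ≤ n := Nat.le_of_dvd (Nat.pos_of_ne_zero hp'.2) ⟨p.2, hp'.1.symm⟩
  have h2 : p.2 ≤ n := Nat.le_of_dvd (Nat.pos_of_ne_zero hp'.2) ⟨p.1, by rw [mul_comm]; exact hp'.1.symm⟩
  rw [hf _ (h1.trans hn), hg _ (h2.trans hn)]

private lemma prod_congr95 {N k : ℕ} {f g : Fin k → ArithmeticFunction ℂ} (h : ∀ i, ∀ n ≤ N, f i n = g i n) :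
    ∀ n ≤ N, (∏ i, f i) n = (∏ i, g i) n := by
  induction k with
  | zero => intro n _; simp
  | succ k ih =>
    rw [Fin.prod_univ_succ, Fin.prod_univ_succ]
    exact mul_congr95 (h 0) (ih fun i => h i.succ)

private lemma prod95 {N z : ℕ} {x : ℝ} {B : ℝ}
    (hB : ∀ M ≤ N, ∀ k ≤ 9, ∀ (f : Fin k → ArithmeticFunction ℂ) (K : Fin k → ℕ), (∀ i, Pc (K i) (f i)) →
      (∀ i, Sm (K i) (f i) ∨ K i ≤ z) → ‖SX (∏ i, f i) M x‖ ≤ B) {k : ℕ} (hk : k ≤ 9)
    (h : Fin k → ArithmeticFunction ℂ) (hh : ∀ i, Dec95 N z (h i)) {M : ℕ} (hM : M ≤ N) :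
    ‖SX (∏ i, h i) M x‖ ≤ ((Nat.log 2 N : ℝ) + 1) ^ k * B := by
  choose P K h1 h2 h3 using hh
  have e1 : SX (∏ i, h i) M x = SX (∏ i, ∑ l ∈ range (Nat.log 2 N + 1), P i l) M x := by
    unfold SX
    refine Finset.sum_congr rfl fun n hn => ?_
    rw [prod_congr95 (f := h) (g := fun i => ∑ l ∈ range (Nat.log 2 N + 1), P i l) (N := N)
      (fun i n hn => (h3 i n hn).symm) n ((mem_Icc.1 hn).2.trans hM)]
  have e2 : SX (∏ i, ∑ l ∈ range (Nat.log 2 N + 1), P i l) M x =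
      ∑ p ∈ Fintype.piFinset (fun _ : Fin k => range (Nat.log 2 N + 1)), SX (∏ i, P i (p i)) M x := by
    rw [Finset.prod_univ_sum]
    unfold SX
    rw [Finset.sum_comm]
    refine Finset.sum_congr rfl fun n _ => ?_
    rw [sum95, Finset.sum_mul]
  rw [e1, e2]
  refine (norm_sum_le _ _).trans ?_
  refine (Finset.sum_le_card_nsmul _ _ B fun p _ => ?_).trans_eq ?_
  · exact hB M hM k hk (fun i => P i (p i)) (fun i => K i (p i)) (fun i => h1 i _) (fun i => h2 i _)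
  · rw [Fintype.card_piFinset_const, card_range, nsmul_eq_mul]
    push_cast
    rfl

theorem dyad_x {N z : ℕ} (hN : 2 ≤ N) (hz1 : 1 ≤ z) (hz : N ≤ z ^ 5) {x : ℝ} {B : ℝ} (hB0 : 0 ≤ B)
    (hB : ∀ M ≤ N, ∀ k ≤ 9, ∀ (f : Fin k → ArithmeticFunction ℂ) (K : Fin k → ℕ), (∀ i, Pc (K i) (f i)) →
      (∀ i, Sm (K i) (f i) ∨ K i ≤ z) → ‖SX (∏ i, f i) M x‖ ≤ B) :
    ∀ M ≤ N, ‖FM M x‖ ≤ 32 * ((Nat.log 2 N : ℝ) + 1) ^ 9 * B := by
  intro M hM
  have hL : (0 : ℝ) ≤ (Nat.log 2 N : ℝ) := Nat.cast_nonneg _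
  have e1 : FM M x = ∑ j ∈ Icc 1 5, (-1 : ℂ) ^ (j - 1) * (Nat.choose 5 j : ℂ) *
      SX (muz z ^ j * (ArithmeticFunction.zeta : ArithmeticFunction ℂ) ^ (j - 1)) M x := by
    unfold FM SX
    simp only [Finset.mul_sum]
    rw [Finset.sum_comm]
    refine Finset.sum_congr rfl fun n hn => ?_
    rw [heath_brown (mem_Icc.1 hn).1 (((mem_Icc.1 hn).2.trans hM).trans hz), Finset.sum_mul]
    refine Finset.sum_congr rfl fun j _ => ?_
    ring
  have h1 : ∀ j ∈ Icc 1 5, ‖SX (muz z ^ j * (ArithmeticFunction.zeta : ArithmeticFunction ℂ) ^ (j - 1)) M x‖ ≤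
      ((Nat.log 2 N : ℝ) + 1) ^ 9 * B := by
    intro j hj
    rw [mem_Icc] at hj
    have h2 : muz z ^ j * (ArithmeticFunction.zeta : ArithmeticFunction ℂ) ^ (j - 1) =
        ∏ i : Fin (j + (j - 1)), Fin.append (fun _ : Fin j => muz z)
          (fun _ : Fin (j - 1) => (ArithmeticFunction.zeta : ArithmeticFunction ℂ)) i := by
      rw [Fin.prod_univ_add]
      simp only [Fin.append_left, Fin.append_right, Finset.prod_const, Finset.card_univ, Fintype.card_fin]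
    rw [h2]
    refine (prod95 hB (by omega) _ (fun i => ?_) hM).trans ?_
    · refine Fin.addCases (fun i => ?_) (fun i => ?_) i
      · rw [Fin.append_left]
        exact dec_muz95 N hz1
      · rw [Fin.append_right]
        exact dec_zeta95 N z
    · refine mul_le_mul_of_nonneg_right ?_ hB0
      exact pow_le_pow_right₀ (by linarith) (by omega)
  rw [e1]
  refine (norm_sum_le _ _).trans ?_
  have h2 : ∀ j ∈ Icc 1 5, ‖(-1 : ℂ) ^ (j - 1) * (Nat.choose 5 j : ℂ) *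
      SX (muz z ^ j * (ArithmeticFunction.zeta : ArithmeticFunction ℂ) ^ (j - 1)) M x‖ ≤
      (Nat.choose 5 j : ℝ) * (((Nat.log 2 N : ℝ) + 1) ^ 9 * B) := by
    intro j hj
    rw [norm_mul, norm_mul, norm_pow, norm_neg, norm_one, one_pow, one_mul, Complex.norm_natCast]
    exact mul_le_mul_of_nonneg_left (h1 j hj) (Nat.cast_nonneg _)
  refine (Finset.sum_le_sum h2).trans ?_
  rw [← Finset.sum_mul]
  have h3 : ∑ j ∈ Icc 1 5, (Nat.choose 5 j : ℝ) = 31 := by
    have : ∑ j ∈ Icc 1 5, Nat.choose 5 j = 31 := by decide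
    exact_mod_cast this
  rw [h3]
  have h4 : 0 ≤ ((Nat.log 2 N : ℝ) + 1) ^ 9 * B := mul_nonneg (by positivity) hB0
  linarith

end Pool.Helper19.V5
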