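import Pool.Agent.Helper25.HM.M5F

/-!
# V5-15: the fifth moment for small `q T` is helper25's `m5s'` (`Pool/Agent/Helper25/HM/M5F.lean`)
-/
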