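import Pool.Agent.Helper19.V5.Defs
import Pool.Agent.Helper69.FF.DivS
import Pool.Agent.Helper25.HM.K8

/-!
# V5-13: the fifth moment over pairs `(χ, k)`

As `V4/Fifth.lean`, with the mean value theorem `mean_full` (helper25) and the large value theorem for pairs `LVT` (helper88).
-/

namespace Pool.Helper19.V5

open ArithmeticFunction Finset Pool.Helper19.V4
open Pool.Agent.Helper25.HM (P nt nt_mul JJ mean_full)

/-- The large value theorem for the pairs `(χ, k)`, `χ` modulo `q`, `|k| ≤ T`, `N^(2/5 + κ) ≤ q T ≤ N^(1/2 - d)`. -/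
def LVT (κ d : ℝ) : Prop :=
  ∃ η : ℝ, 0 < η ∧ ∃ c0 : ℝ, 3 * η < c0 ∧ ∃ N0 : ℕ, ∀ N : ℕ, N0 ≤ N → ∀ (q : ℕ) [NeZero q] (T : ℕ), 1 ≤ T →
    (N : ℝ) ^ ((2 : ℝ) / 5 + κ) ≤ (q : ℝ) * T → (q : ℝ) * T ≤ (N : ℝ) ^ ((1 : ℝ) / 2 - d) →
    ∀ M : ℕ, (M : ℝ) ≤ (N : ℝ) ^ ((2 : ℝ) / 5 + η) → ∀ b : ℕ → ℂ, (∀ n, ‖b n‖ ≤ (N : ℝ) ^ η) →
    ∀ W : Finset (DirichletCharacter ℂ q × ℤ), (∀ p ∈ W, |p.2| ≤ (T : ℤ)) →
      (∀ p ∈ W, (N : ℝ) ^ ((4 : ℝ) / 5 - η) / ((q : ℝ) * T) ≤ ‖P M b p‖) →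
      (W.card : ℝ) ≤ ((q : ℝ) * T) ^ 3 * (N : ℝ) ^ (-((6 : ℝ) / 5) - c0)

/-- the convolution of `f` on `[1, A]` and `g` on `[1, B]` -/
private noncomputable def cv19 (A B : ℕ) (f g : ℕ → ℂ) (n : ℕ) : ℂ :=
  ∑ p ∈ (Icc 1 A ×ˢ Icc 1 B).filter (fun p => p.1 * p.2 = n), f p.1 * g p.2

private lemma ps19_mul {q : ℕ} [NeZero q] (A B : ℕ) (f g : ℕ → ℂ) (p : DirichletCharacter ℂ q × ℤ) :
    P A f p * P B g p = P (A * B) (cv19 A B f g) p := by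
  unfold P
  rw [Finset.sum_mul_sum, ← Finset.sum_product']
  have hm : ∀ r ∈ Icc 1 A ×ˢ Icc 1 B, r.1 * r.2 ∈ Icc 1 (A * B) := by
    intro r hr
    rw [Finset.mem_product, Finset.mem_Icc, Finset.mem_Icc] at hr
    rw [Finset.mem_Icc]
    exact ⟨Nat.mul_pos hr.1.1 hr.2.1, Nat.mul_le_mul hr.1.2 hr.2.2⟩
  rw [← Finset.sum_fiberwise_of_maps_to hm]
  refine Finset.sum_congr rfl fun n _ => ?_
  unfold cv19
  rw [Finset.sum_mul]
  refine Finset.sum_congr rfl fun r hr => ?_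
  have hr' := Finset.mem_filter.1 hr
  rw [Finset.mem_product, Finset.mem_Icc, Finset.mem_Icc] at hr'
  rw [← hr'.2, Nat.cast_mul, map_mul, nt_mul (by omega) (by omega)]
  ring

private lemma cv19_le {A B : ℕ} {f g : ℕ → ℂ} {F G : ℝ} (hF : 0 ≤ F) (hG : 0 ≤ G) (hf : ∀ n, ‖f n‖ ≤ F) (hg : ∀ n, ‖g n‖ ≤ G)
    (n : ℕ) : ‖cv19 A B f g n‖ ≤ (n.divisors.card : ℝ) * (F * G) := by
  unfold cv19
  refine (norm_sum_le _ _).trans ?_
  have h1 : ∀ p ∈ (Icc 1 A ×ˢ Icc 1 B).filter (fun p => p.1 * p.2 = n), ‖f p.1 * g p.2‖ ≤ F * G := by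
    intro p _
    rw [norm_mul]
    exact mul_le_mul (hf _) (hg _) (norm_nonneg _) hF
  refine (Finset.sum_le_card_nsmul _ _ _ h1).trans ?_
  rw [nsmul_eq_mul]
  refine mul_le_mul_of_nonneg_right ?_ (by positivity)
  have h2 : ((Icc 1 A ×ˢ Icc 1 B).filter (fun p => p.1 * p.2 = n)).card ≤ n.divisors.card := by
    apply Finset.card_le_card_of_injOn (fun p => p.1)
    · intro p hp
      have hp' := Finset.mem_filter.1 (Finset.mem_coe.1 hp)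
      rw [Finset.mem_product, Finset.mem_Icc, Finset.mem_Icc] at hp'
      rw [Finset.mem_coe, Nat.mem_divisors]
      refine ⟨⟨p.2, hp'.2.symm⟩, ?_⟩
      rw [← hp'.2]
      exact (Nat.mul_pos hp'.1.1.1 hp'.1.2.1).ne'
    · intro p hp r hr he
      have hp' := Finset.mem_filter.1 (Finset.mem_coe.1 hp)
      have hr' := Finset.mem_filter.1 (Finset.mem_coe.1 hr)
      rw [Finset.mem_product, Finset.mem_Icc, Finset.mem_Icc] at hp' hr'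
      have he' : p.1 = r.1 := he
      have e1 : p.1 * p.2 = p.1 * r.2 := by rw [hp'.2, he', hr'.2]
      have e2 : p.2 = r.2 := Nat.eq_of_mul_eq_mul_left hp'.1.1.1 e1
      exact Prod.ext he' e2
  exact_mod_cast h2

private lemma cv19_zero {A B : ℕ} {f g : ℕ → ℂ} {n : ℕ} (hn : n = 0 ∨ A * B < n) : cv19 A B f g n = 0 := by
  unfold cv19
  rw [Finset.sum_eq_zero]
  intro p hp
  exfalso
  have hp' := Finset.mem_filter.1 hp
  rw [Finset.mem_product, Finset.mem_Icc, Finset.mem_Icc] at hp'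
  have h1 : 0 < p.1 * p.2 := Nat.mul_pos hp'.1.1.1 hp'.1.2.1
  have h2 : p.1 * p.2 ≤ A * B := Nat.mul_le_mul hp'.1.1.2 hp'.1.2.2
  rw [hp'.2] at h1 h2
  rcases hn with h | h <;> omega

/-- convolutions are small -/
private lemma cv19_small {ε : ℝ} (hε : 0 < ε) : ∃ N0 : ℕ, ∀ N : ℕ, N0 ≤ N → ∀ A B : ℕ, A * B ≤ N →
    ∀ (f g : ℕ → ℂ) (F G : ℝ), 0 ≤ F → 0 ≤ G → (∀ n, ‖f n‖ ≤ F) → (∀ n, ‖g n‖ ≤ G) →
    ∀ n, ‖cv19 A B f g n‖ ≤ (N : ℝ) ^ ε * (F * G) := by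
  obtain ⟨C, hC, hdiv⟩ := Pool.Agent.Helper69.FF.div_bound (ε := ε / 2) (by positivity)
  have ht : Filter.Tendsto (fun N : ℕ => ((N : ℝ)) ^ (ε / 2)) Filter.atTop Filter.atTop :=
    (tendsto_rpow_atTop (by positivity)).comp tendsto_natCast_atTop_atTop
  obtain ⟨N0, hN0⟩ := Filter.eventually_atTop.1 (ht.eventually_ge_atTop C)
  refine ⟨max N0 1, fun N hN A B hAB f g F G hF hG hf hg n => ?_⟩
  have hN0' : N0 ≤ N := (le_max_left _ _).trans hN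
  have hN1 : 1 ≤ N := (le_max_right _ _).trans hN
  have hNr : (1 : ℝ) ≤ N := by exact_mod_cast hN1
  have hp : (N : ℝ) ^ ε = (N : ℝ) ^ (ε / 2) * (N : ℝ) ^ (ε / 2) := by
    rw [← Real.rpow_add (by linarith)]
    congr 1
    ring
  by_cases hz : n = 0 ∨ A * B < n
  · rw [cv19_zero hz, norm_zero]
    positivity
  · push Not at hz
    refine (cv19_le hF hG hf hg n).trans (mul_le_mul_of_nonneg_right ?_ (by positivity))
    have h1 := hdiv n hz.1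
    have h2 : (n : ℝ) ≤ N := by exact_mod_cast hz.2.trans hAB
    have h3 : (n : ℝ) ^ (ε / 2) ≤ (N : ℝ) ^ (ε / 2) := Real.rpow_le_rpow (by positivity) h2 (by positivity)
    have h4 : C ≤ (N : ℝ) ^ (ε / 2) := hN0 N hN0'
    rw [hp]
    exact h1.trans (mul_le_mul h4 h3 (by positivity) (by positivity))

/-- splitting of the fifth moment -/
private lemma split19 {ι : Type*} (s : Finset ι) (A : ι → ℝ) (hA : ∀ i ∈ s, 0 ≤ A i) {t1 t2 : ℝ} (h1 : 0 < t1) (h2 : 0 < t2) :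
    ∑ i ∈ s, A i ^ 5 ≤ t1 * ∑ i ∈ s, A i ^ 4 + t2⁻¹ * ∑ i ∈ s, A i ^ 6 + ((s.filter (fun i => t1 ≤ A i)).card : ℝ) * t2 ^ 5 := by
  have h3 : ((s.filter (fun i => t1 ≤ A i)).card : ℝ) * t2 ^ 5 = ∑ i ∈ s, if t1 ≤ A i then t2 ^ 5 else 0 := by
    rw [← Finset.sum_filter, Finset.sum_const, nsmul_eq_mul]
  rw [h3, Finset.mul_sum, Finset.mul_sum, ← Finset.sum_add_distrib, ← Finset.sum_add_distrib]
  refine Finset.sum_le_sum fun i hi => ?_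
  have h4 := hA i hi
  by_cases h5 : t1 ≤ A i
  · rw [if_pos h5]
    by_cases h6 : A i ≤ t2
    · have e1 : A i ^ 5 ≤ t2 ^ 5 := pow_le_pow_left₀ h4 h6 5
      have e2 : 0 ≤ t1 * A i ^ 4 := by positivity
      have e3 : 0 ≤ t2⁻¹ * A i ^ 6 := by positivity
      linarith
    · push Not at h6
      have e1 : A i ^ 5 ≤ t2⁻¹ * A i ^ 6 := by
        have : t2⁻¹ * A i ^ 6 = (t2⁻¹ * A i) * A i ^ 5 := by ring
        rw [this]
        have e4 : 1 ≤ t2⁻¹ * A i := by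
          rw [inv_mul_eq_div, le_div_iff₀ h2]
          linarith
        nlinarith [pow_nonneg h4 5]
      have e2 : 0 ≤ t1 * A i ^ 4 := by positivity
      have e3 : 0 ≤ t2 ^ 5 := by positivity
      linarith
  · rw [if_neg h5]
    push Not at h5
    have e1 : A i ^ 5 ≤ t1 * A i ^ 4 := by
      have : A i ^ 5 = A i * A i ^ 4 := by ring
      rw [this]
      exact mul_le_mul_of_nonneg_right h5.le (by positivity)
    have e3 : 0 ≤ t2⁻¹ * A i ^ 6 := by positivity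
    linarith

/-- the mean value theorem with a power of `N` -/
private lemma mv19 {ε : ℝ} (hε : 0 < ε) : ∃ N0 : ℕ, ∀ N : ℕ, N0 ≤ N → ∀ (q : ℕ) [NeZero q] (T : ℕ), 1 ≤ T →
    ∀ M : ℕ, 1 ≤ M → M ≤ N → ∀ (a : ℕ → ℂ) (F : ℝ), 0 ≤ F → (∀ n, ‖a n‖ ≤ F) →
    ∑ p ∈ (univ : Finset (DirichletCharacter ℂ q)) ×ˢ Icc (-(T : ℤ)) T, ‖P M a p‖ ^ 2 ≤
      (N : ℝ) ^ ε * (((q : ℝ) * T + M) * (M * F ^ 2)) := by
  have ht1 : Filter.Tendsto (fun N : ℕ => ((N : ℝ)) ^ (ε / 4)) Filter.atTop Filter.atTop :=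
    (tendsto_rpow_atTop (by positivity)).comp tendsto_natCast_atTop_atTop
  have hev := (ht1.eventually_ge_atTop 100).and (ht1.eventually_ge_atTop (100 * (4 / ε)))
  obtain ⟨N0, hN0⟩ := Filter.eventually_atTop.1 hev
  refine ⟨max N0 2, fun N hN q _ T hT M hM hMN a F hF ha => ?_⟩
  have hN1 : N0 ≤ N := (le_max_left _ _).trans hN
  have hN2 : 2 ≤ N := (le_max_right _ _).trans hN
  have hNr : (2 : ℝ) ≤ N := by exact_mod_cast hN2
  have hNp : (0 : ℝ) < N := by linarith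
  obtain ⟨hc1, hc2⟩ := hN0 N hN1
  obtain ⟨Y, hY⟩ : ∃ Y : ℝ, Y = (N : ℝ) ^ (ε / 4) := ⟨_, rfl⟩
  rw [← hY] at hc1 hc2
  have hY4 : (N : ℝ) ^ ε = Y ^ 4 := by
    rw [hY, ← Real.rpow_natCast, ← Real.rpow_mul hNp.le]
    congr 1
    push_cast
    ring
  have hMr : (1 : ℝ) ≤ M := by exact_mod_cast hM
  have hMN' : (M : ℝ) ≤ N := by exact_mod_cast hMN
  have hTr : (1 : ℝ) ≤ T := by exact_mod_cast hT
  have hqp : (0 : ℝ) < q := by exact_mod_cast Nat.pos_of_ne_zero (NeZero.ne q)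
  -- logarithms
  have hlogN : Real.log N ≤ Y * (4 / ε) := by
    have := Real.log_le_rpow_div hNp.le (show 0 < ε / 4 by positivity)
    rw [← hY] at this
    refine this.trans (le_of_eq ?_)
    field_simp
  have hlog0 : 0 ≤ Real.log N := Real.log_nonneg (by linarith)
  have hlogN2 : 100 * Real.log N ≤ Y ^ 2 := by nlinarith
  have hlog2 : (1 : ℝ) / 2 < Real.log 2 := by linarith [Real.log_two_gt_d9]
  have hlogN1 : Real.log 2 ≤ Real.log N := Real.log_le_log (by norm_num) hNr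
  have hJJ : (JJ M : ℝ) ≤ Y ^ 2 / 10 := by
    have h1 : (Nat.log 2 M : ℝ) ≤ Real.logb 2 M := by exact_mod_cast Real.natLog_le_logb M 2
    have h2 : Real.logb 2 M ≤ 2 * Real.log N := by
      unfold Real.logb
      rw [div_le_iff₀ (by linarith)]
      have : Real.log M ≤ Real.log N := Real.log_le_log (by linarith) hMN'
      nlinarith
    have h3 : (JJ M : ℝ) = Nat.log 2 M + 1 := by
      unfold JJ
      push_cast
      ring
    rw [h3]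
    linarith
  have hL : 1 + Real.log (4 * M + 1) ≤ Y ^ 2 / 10 := by
    have h1 : Real.log (4 * M + 1) ≤ Real.log ((N : ℝ) ^ 4) := by
      apply Real.log_le_log (by positivity)
      have h8 : (8 : ℝ) ≤ (N : ℝ) ^ 3 := by
        have := pow_le_pow_left₀ (by norm_num) hNr 3
        linarith
      nlinarith
    rw [Real.log_pow] at h1
    push_cast at h1
    linarith
  rw [Finset.sum_product]
  refine (mean_full T hM a).trans ?_
  have hsum : ∑ n ∈ Icc 1 M, ‖a n‖ ^ 2 ≤ M * F ^ 2 := by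
    have h1 : ∀ n ∈ Icc 1 M, ‖a n‖ ^ 2 ≤ F ^ 2 := fun n _ => pow_le_pow_left₀ (norm_nonneg _) (ha n) 2
    refine (Finset.sum_le_card_nsmul _ _ _ h1).trans ?_
    rw [nsmul_eq_mul, Nat.card_Icc, Nat.add_sub_cancel]
  have hbr : (q : ℝ) * (2 * T + 1) + 16 * M * (1 + Real.log (4 * M + 1)) ≤ Y ^ 2 * 2 * ((q : ℝ) * T + M) := by
    have h1 : 16 * (M : ℝ) * (1 + Real.log (4 * M + 1)) ≤ 16 * M * (Y ^ 2 / 10) :=
      mul_le_mul_of_nonneg_left hL (by positivity)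
    have h2 : (q : ℝ) * (2 * T + 1) ≤ 3 * (q * T) := by nlinarith
    have h3 : (3 : ℝ) ≤ Y ^ 2 := by nlinarith
    have h4 : 0 ≤ (q : ℝ) * T := by positivity
    nlinarith
  have hA : 0 ≤ (q : ℝ) * T + M := by positivity
  have hB : 0 ≤ (M : ℝ) * F ^ 2 := by positivity
  calc (JJ M : ℝ) * (((q : ℝ) * (2 * T + 1) + 16 * M * (1 + Real.log (4 * M + 1))) * ∑ n ∈ Icc 1 M, ‖a n‖ ^ 2)
      ≤ (Y ^ 2 / 10) * ((Y ^ 2 * 2 * ((q : ℝ) * T + M)) * (M * F ^ 2)) := by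
        refine mul_le_mul hJJ ?_ ?_ (by positivity)
        · exact mul_le_mul hbr hsum (Finset.sum_nonneg fun _ _ => by positivity) (by positivity)
        · have : 0 ≤ Real.log (4 * (M : ℝ) + 1) := Real.log_nonneg (by linarith)
          exact mul_nonneg (by positivity) (Finset.sum_nonneg fun _ _ => by positivity)
    _ = (1 / 5) * (Y ^ 4 * (((q : ℝ) * T + M) * (M * F ^ 2))) := by ring
    _ ≤ Y ^ 4 * (((q : ℝ) * T + M) * (M * F ^ 2)) := by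
        have : 0 ≤ Y ^ 4 * (((q : ℝ) * T + M) * (M * F ^ 2)) := by positivity
        linarith
    _ = _ := by rw [hY4]

theorem m5t {κ d : ℝ} (hκ : 0 < κ) (hd : 0 < d) (h : LVT κ d) :
    ∃ δ : ℝ, 0 < δ ∧ ∃ N0 : ℕ, ∀ N : ℕ, N0 ≤ N → ∀ (q : ℕ) [NeZero q] (T : ℕ), 1 ≤ T →
      (N : ℝ) ^ ((2 : ℝ) / 5 + κ) ≤ (q : ℝ) * T → (q : ℝ) * T ≤ (N : ℝ) ^ ((1 : ℝ) / 2 - d) →
      ∀ K : ℕ, (K : ℝ) ≤ (N : ℝ) ^ ((1 : ℝ) / 5 + δ) → ∀ c : ℕ → ℂ, (∀ n, ‖c n‖ ≤ 1) →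
        ∑ p ∈ (univ : Finset (DirichletCharacter ℂ q)) ×ˢ Icc (-(T : ℤ)) T, ‖P K c p‖ ^ 5 ≤
          Real.sqrt (q * T) * (N : ℝ) ^ ((4 : ℝ) / 5 - δ) := by
  classical
  obtain ⟨η, hη, c0, hc0, N1, hLV⟩ := h
  set δ : ℝ := min (min (η / 100) (κ / 4)) (1 / 100) with hδ
  have hδ0 : 0 < δ := by
    rw [hδ]
    exact lt_min (lt_min (by positivity) (by positivity)) (by norm_num)
  have hδ1 : δ ≤ η / 100 := (min_le_left _ _).trans (min_le_left _ _)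
  have hδ2 : δ ≤ κ / 4 := (min_le_left _ _).trans (min_le_right _ _)
  have hδ3 : δ ≤ 1 / 100 := min_le_right _ _
  clear_value δ
  obtain ⟨N2, hcv⟩ := cv19_small (ε := δ / 2) (by positivity)
  obtain ⟨N4, hmv⟩ := mv19 (ε := δ) hδ0
  have ht : Filter.Tendsto (fun N : ℕ => ((N : ℝ)) ^ (η / 4 - δ)) Filter.atTop Filter.atTop :=
    (tendsto_rpow_atTop (by linarith)).comp tendsto_natCast_atTop_atTop
  obtain ⟨N3, hN3⟩ := Filter.eventually_atTop.1 (ht.eventually_ge_atTop 5)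
  refine ⟨δ, hδ0, max (max N1 N2) (max N3 (max N4 2)), fun N hN q _ T hT hq0 hq1 K hK c hc => ?_⟩
  have hN1 : N1 ≤ N := ((le_max_left _ _).trans (le_max_left _ _)).trans hN
  have hN2 : N2 ≤ N := ((le_max_right _ _).trans (le_max_left _ _)).trans hN
  have hN3' : N3 ≤ N := ((le_max_left _ _).trans (le_max_right _ _)).trans hN
  have hN5 : N4 ≤ N := (((le_max_left _ _).trans (le_max_right _ _)).trans (le_max_right _ _)).trans hN
  have hN4 : 2 ≤ N := (((le_max_right _ _).trans (le_max_right _ _)).trans (le_max_right _ _)).trans hN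
  have hNr : (1 : ℝ) ≤ N := by exact_mod_cast (by omega : 1 ≤ N)
  have hNp : (0 : ℝ) < N := by linarith
  have hqp : (0 : ℝ) < q := by exact_mod_cast Nat.pos_of_ne_zero (NeZero.ne q)
  have hTp : (0 : ℝ) < T := by exact_mod_cast hT
  obtain ⟨Q, hQ⟩ : ∃ Q : ℝ, Q = (q : ℝ) * T := ⟨_, rfl⟩
  have hQp : 0 < Q := by rw [hQ]; positivity
  have h5 : (5 : ℝ) ≤ (N : ℝ) ^ (η / 4 - δ) := hN3 N hN3'
  have hmono : ∀ {x y : ℝ}, x ≤ y → (N : ℝ) ^ x ≤ (N : ℝ) ^ y := fun hxy => Real.rpow_le_rpow_of_exponent_le hNr hxy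
  rcases Nat.eq_zero_or_pos K with hK0 | hKpos
  · -- empty sums
    have : ∀ p ∈ (univ : Finset (DirichletCharacter ℂ q)) ×ˢ Icc (-(T : ℤ)) T, ‖P K c p‖ ^ 5 = 0 := by
      intro p _
      unfold P
      rw [hK0]
      simp
    rw [Finset.sum_eq_zero this]
    positivity
  -- the powers of `K`
  have hK2 : (((K * K : ℕ)) : ℝ) ≤ (N : ℝ) ^ ((2 : ℝ) / 5 + 2 * δ) := by
    push_cast
    have e1 : (N : ℝ) ^ ((2 : ℝ) / 5 + 2 * δ) = (N : ℝ) ^ ((1 : ℝ) / 5 + δ) * (N : ℝ) ^ ((1 : ℝ) / 5 + δ) := by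
      rw [← Real.rpow_add hNp]
      congr 1
      ring
    rw [e1]
    exact mul_le_mul hK hK (by positivity) (by positivity)
  have hK3 : (((K * K * K : ℕ)) : ℝ) ≤ (N : ℝ) ^ ((3 : ℝ) / 5 + 3 * δ) := by
    have e1 : (N : ℝ) ^ ((3 : ℝ) / 5 + 3 * δ) = (N : ℝ) ^ ((2 : ℝ) / 5 + 2 * δ) * (N : ℝ) ^ ((1 : ℝ) / 5 + δ) := by
      rw [← Real.rpow_add hNp]
      congr 1
      ring
    rw [e1]
    have e2 : (((K * K * K : ℕ)) : ℝ) = (((K * K : ℕ)) : ℝ) * K := by push_cast; ring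
    rw [e2]
    exact mul_le_mul hK2 hK (by positivity) (by positivity)
  have hK3N : K * K * K ≤ N := by
    have : (((K * K * K : ℕ)) : ℝ) ≤ N := by
      refine hK3.trans ?_
      calc (N : ℝ) ^ ((3 : ℝ) / 5 + 3 * δ) ≤ (N : ℝ) ^ (1 : ℝ) := hmono (by linarith)
        _ = N := Real.rpow_one _
    exact_mod_cast this
  have hK2N : K * K ≤ N := by
    have : (((K * K : ℕ)) : ℝ) ≤ N := by
      refine hK2.trans ?_
      calc (N : ℝ) ^ ((2 : ℝ) / 5 + 2 * δ) ≤ (N : ℝ) ^ (1 : ℝ) := hmono (by linarith)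
        _ = N := Real.rpow_one _
    exact_mod_cast this
  have hK21 : 1 ≤ K * K := Nat.mul_pos hKpos hKpos
  have hK31 : 1 ≤ K * K * K := Nat.mul_pos hK21 hKpos
  -- the convolutions
  set b2 : ℕ → ℂ := cv19 K K c c with hb2
  set b3 : ℕ → ℂ := cv19 (K * K) K b2 c with hb3
  have hb2le : ∀ n, ‖b2 n‖ ≤ (N : ℝ) ^ (δ / 2) := by
    intro n
    have := hcv N hN2 K K hK2N c c 1 1 zero_le_one zero_le_one hc hc n
    simpa using this
  have hb3le : ∀ n, ‖b3 n‖ ≤ (N : ℝ) ^ δ := by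
    intro n
    have := hcv N hN2 (K * K) K hK3N b2 c ((N : ℝ) ^ (δ / 2)) 1 (by positivity) zero_le_one hb2le hc n
    rw [mul_one, ← Real.rpow_add hNp] at this
    have e1 : δ / 2 + δ / 2 = δ := by ring
    rwa [e1] at this
  have hA2 : ∀ p : DirichletCharacter ℂ q × ℤ, P K c p ^ 2 = P (K * K) b2 p := by
    intro p
    rw [hb2, ← ps19_mul, sq]
  have hA3 : ∀ p : DirichletCharacter ℂ q × ℤ, P K c p ^ 3 = P (K * K * K) b3 p := by
    intro p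
    rw [hb3, ← ps19_mul, ← hA2]
    ring
  -- fourth moment
  have hS4 : ∑ p ∈ (univ : Finset (DirichletCharacter ℂ q)) ×ˢ Icc (-(T : ℤ)) T, ‖P K c p‖ ^ 4 ≤
      2 * Q * (N : ℝ) ^ ((2 : ℝ) / 5 + 4 * δ) := by
    have e1 : ∀ p ∈ (univ : Finset (DirichletCharacter ℂ q)) ×ˢ Icc (-(T : ℤ)) T,
        ‖P K c p‖ ^ 4 = ‖P (K * K) b2 p‖ ^ 2 := by
      intro p _
      rw [← hA2, norm_pow]
      ring
    rw [Finset.sum_congr rfl e1]
    refine (hmv N hN5 q T hT (K * K) hK21 hK2N b2 _ (by positivity) hb2le).trans ?_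
    have e5 : ((N : ℝ) ^ (δ / 2)) ^ 2 = (N : ℝ) ^ δ := by
      rw [← Real.rpow_natCast, ← Real.rpow_mul hNp.le]
      congr 1
      push_cast
      ring
    have e6 : (q : ℝ) * T + ((K * K : ℕ) : ℝ) ≤ 2 * Q := by
      have : (((K * K : ℕ)) : ℝ) ≤ (q : ℝ) * T := hK2.trans ((hmono (by linarith)).trans hq0)
      rw [hQ]
      linarith
    have e4 : (N : ℝ) ^ ((2 : ℝ) / 5 + 4 * δ) = (N : ℝ) ^ δ * ((N : ℝ) ^ ((2 : ℝ) / 5 + 2 * δ) * (N : ℝ) ^ δ) := by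
      rw [← Real.rpow_add hNp, ← Real.rpow_add hNp]
      congr 1
      ring
    rw [e5, e4]
    calc (N : ℝ) ^ δ * (((q : ℝ) * T + ((K * K : ℕ) : ℝ)) * (((K * K : ℕ) : ℝ) * (N : ℝ) ^ δ))
        ≤ (N : ℝ) ^ δ * ((2 * Q) * ((N : ℝ) ^ ((2 : ℝ) / 5 + 2 * δ) * (N : ℝ) ^ δ)) := by
          refine mul_le_mul_of_nonneg_left ?_ (by positivity)
          exact mul_le_mul e6 (mul_le_mul_of_nonneg_right hK2 (by positivity)) (by positivity) (by positivity)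
      _ = _ := by ring
  -- sixth moment
  have hS6 : ∑ p ∈ (univ : Finset (DirichletCharacter ℂ q)) ×ˢ Icc (-(T : ℤ)) T, ‖P K c p‖ ^ 6 ≤
      2 * (N : ℝ) ^ ((6 : ℝ) / 5 + 9 * δ) := by
    have e1 : ∀ p ∈ (univ : Finset (DirichletCharacter ℂ q)) ×ˢ Icc (-(T : ℤ)) T,
        ‖P K c p‖ ^ 6 = ‖P (K * K * K) b3 p‖ ^ 2 := by
      intro p _
      rw [← hA3, norm_pow]
      ring
    rw [Finset.sum_congr rfl e1]
    refine (hmv N hN5 q T hT (K * K * K) hK31 hK3N b3 _ (by positivity) hb3le).trans ?_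
    have e5 : ((N : ℝ) ^ δ) ^ 2 = (N : ℝ) ^ (2 * δ) := by
      rw [← Real.rpow_natCast, ← Real.rpow_mul hNp.le]
      congr 1
      push_cast
      ring
    have e6 : (q : ℝ) * T + ((K * K * K : ℕ) : ℝ) ≤ 2 * (N : ℝ) ^ ((3 : ℝ) / 5 + 3 * δ) := by
      have : (q : ℝ) * T ≤ (N : ℝ) ^ ((3 : ℝ) / 5 + 3 * δ) := hq1.trans (hmono (by linarith))
      linarith
    have e4 : (N : ℝ) ^ ((6 : ℝ) / 5 + 9 * δ) = (N : ℝ) ^ δ * ((N : ℝ) ^ ((3 : ℝ) / 5 + 3 * δ) *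
        ((N : ℝ) ^ ((3 : ℝ) / 5 + 3 * δ) * (N : ℝ) ^ (2 * δ))) := by
      rw [← Real.rpow_add hNp, ← Real.rpow_add hNp, ← Real.rpow_add hNp]
      congr 1
      ring
    rw [e5, e4]
    calc (N : ℝ) ^ δ * (((q : ℝ) * T + ((K * K * K : ℕ) : ℝ)) * (((K * K * K : ℕ) : ℝ) * (N : ℝ) ^ (2 * δ)))
        ≤ (N : ℝ) ^ δ * ((2 * (N : ℝ) ^ ((3 : ℝ) / 5 + 3 * δ)) * ((N : ℝ) ^ ((3 : ℝ) / 5 + 3 * δ) * (N : ℝ) ^ (2 * δ))) := by
          refine mul_le_mul_of_nonneg_left ?_ (by positivity)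
          exact mul_le_mul e6 (mul_le_mul_of_nonneg_right hK3 (by positivity)) (by positivity) (by positivity)
      _ = _ := by ring
  -- thresholds
  rw [← hQ]
  set s : ℝ := Real.sqrt Q with hs
  have hsp : 0 < s := Real.sqrt_pos.2 hQp
  have hss : s * s = Q := Real.mul_self_sqrt hQp.le
  set t1 : ℝ := (N : ℝ) ^ ((2 : ℝ) / 5 - η / 2) / s with ht1
  set t2 : ℝ := (N : ℝ) ^ ((2 : ℝ) / 5 + η / 2) / s with ht2
  have ht1p : 0 < t1 := by positivity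
  have ht2p : 0 < t2 := by positivity
  refine (split19 _ (fun p => ‖P K c p‖) (fun _ _ => norm_nonneg _) ht1p ht2p).trans ?_
  -- the count
  have hcount : ((((univ : Finset (DirichletCharacter ℂ q)) ×ˢ Icc (-(T : ℤ)) T).filter
      (fun p => t1 ≤ ‖P K c p‖)).card : ℝ) ≤ Q ^ 3 * (N : ℝ) ^ (-((6 : ℝ) / 5) - c0) := by
    rw [hQ]
    refine hLV N hN1 q T hT hq0 hq1 (K * K) (hK2.trans (hmono (by linarith))) b2
      (fun n => (hb2le n).trans (hmono (by linarith))) _ ?_ ?_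
    · intro p hp
      have h1 := (Finset.mem_filter.1 hp).1
      rw [Finset.mem_product, Finset.mem_Icc] at h1
      exact abs_le.2 h1.2
    · intro p hp
      have e1 : t1 ≤ ‖P K c p‖ := (Finset.mem_filter.1 hp).2
      rw [← hA2, norm_pow, ← hQ]
      have e2 : (N : ℝ) ^ ((4 : ℝ) / 5 - η) / Q = t1 ^ 2 := by
        rw [ht1, div_pow, ← Real.rpow_natCast, ← Real.rpow_mul hNp.le, sq, hss]
        congr 2
        push_cast
        ring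
      rw [e2]
      exact pow_le_pow_left₀ ht1p.le e1 2
  -- the three parts
  have hP1 : t1 * ∑ p ∈ (univ : Finset (DirichletCharacter ℂ q)) ×ˢ Icc (-(T : ℤ)) T, ‖P K c p‖ ^ 4 ≤
      2 * (s * (N : ℝ) ^ ((4 : ℝ) / 5 - η / 4)) := by
    refine (mul_le_mul_of_nonneg_left hS4 ht1p.le).trans ?_
    have e1 : t1 * (2 * Q * (N : ℝ) ^ ((2 : ℝ) / 5 + 4 * δ)) = 2 * (s * ((N : ℝ) ^ ((2 : ℝ) / 5 - η / 2) * (N : ℝ) ^ ((2 : ℝ) / 5 + 4 * δ))) := by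
      rw [ht1, ← hss]
      field_simp
    rw [e1, ← Real.rpow_add hNp]
    have e2 : (N : ℝ) ^ ((2 : ℝ) / 5 - η / 2 + ((2 : ℝ) / 5 + 4 * δ)) ≤ (N : ℝ) ^ ((4 : ℝ) / 5 - η / 4) := hmono (by linarith)
    have e3 := mul_le_mul_of_nonneg_left e2 hsp.le
    linarith
  have hP2 : t2⁻¹ * ∑ p ∈ (univ : Finset (DirichletCharacter ℂ q)) ×ˢ Icc (-(T : ℤ)) T, ‖P K c p‖ ^ 6 ≤
      2 * (s * (N : ℝ) ^ ((4 : ℝ) / 5 - η / 4)) := by
    refine (mul_le_mul_of_nonneg_left hS6 (inv_nonneg.2 ht2p.le)).trans ?_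
    have e1 : t2⁻¹ * (2 * (N : ℝ) ^ ((6 : ℝ) / 5 + 9 * δ)) = 2 * (s * ((N : ℝ) ^ (-((2 : ℝ) / 5 + η / 2)) * (N : ℝ) ^ ((6 : ℝ) / 5 + 9 * δ))) := by
      rw [ht2, inv_div, Real.rpow_neg hNp.le]
      field_simp
    rw [e1, ← Real.rpow_add hNp]
    have e2 : (N : ℝ) ^ (-((2 : ℝ) / 5 + η / 2) + ((6 : ℝ) / 5 + 9 * δ)) ≤ (N : ℝ) ^ ((4 : ℝ) / 5 - η / 4) := hmono (by linarith)
    have e3 := mul_le_mul_of_nonneg_left e2 hsp.le
    linarith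
  have hP3 : ((((univ : Finset (DirichletCharacter ℂ q)) ×ˢ Icc (-(T : ℤ)) T).filter
      (fun p => t1 ≤ ‖P K c p‖)).card : ℝ) * t2 ^ 5 ≤ s * (N : ℝ) ^ ((4 : ℝ) / 5 - η / 4) := by
    refine (mul_le_mul_of_nonneg_right hcount (by positivity)).trans ?_
    have e1 : Q ^ 3 * (N : ℝ) ^ (-((6 : ℝ) / 5) - c0) * t2 ^ 5 =
        s * ((N : ℝ) ^ (-((6 : ℝ) / 5) - c0) * (N : ℝ) ^ (((2 : ℝ) / 5 + η / 2) * ((5 : ℕ) : ℝ))) := by
      rw [ht2, div_pow, Real.rpow_mul hNp.le, Real.rpow_natCast, ← hss]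
      field_simp
    rw [e1, ← Real.rpow_add hNp]
    refine mul_le_mul_of_nonneg_left (hmono ?_) hsp.le
    push_cast
    linarith
  have hfin : 5 * (s * (N : ℝ) ^ ((4 : ℝ) / 5 - η / 4)) ≤ s * (N : ℝ) ^ ((4 : ℝ) / 5 - δ) := by
    have e1 : (N : ℝ) ^ ((4 : ℝ) / 5 - δ) = (N : ℝ) ^ (η / 4 - δ) * (N : ℝ) ^ ((4 : ℝ) / 5 - η / 4) := by
      rw [← Real.rpow_add hNp]
      congr 1
      ring
    rw [e1]
    have e2 : 0 ≤ s * (N : ℝ) ^ ((4 : ℝ) / 5 - η / 4) := by positivity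
    calc 5 * (s * (N : ℝ) ^ ((4 : ℝ) / 5 - η / 4)) ≤ (N : ℝ) ^ (η / 4 - δ) * (s * (N : ℝ) ^ ((4 : ℝ) / 5 - η / 4)) :=
          mul_le_mul_of_nonneg_right h5 e2
      _ = _ := by ring
  linarith

end Pool.Helper19.V5
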