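import Pool.Agent.Helper19.V5.FifthT
import Pool.Agent.Helper19.V4.Char
import Pool.Agent.Helper19.V4.Sep
import Pool.Agent.Helper25.HM.K10
import Pool.Agent.Helper88.LV.TDefs

/-!
# V5-14: five variables from the fifth moment over pairs

`FIVE (2/5 + h)` from the large value theorem for pairs: `e(n a/q)` is expanded in characters (`char_five`), `e(n β)` by helper25's separation theorem `mellin_sep` with `δ = 1/∏ L`; the factor `e^(n δ)` is
removed by partial summation, the partial sums by `sep_bound`.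
-/

namespace Pool.Helper19.V5

open ArithmeticFunction Finset Pool.Helper19.V4
open Pool.Agent.Helper25.HM (P nt nt_mul nt_add norm_nt mellin_sep w cr)

/-- `n ↦ (g/√n) n^{it} f(n)` -/
noncomputable def tq19 (g t : ℝ) (f : ArithmeticFunction ℂ) : ArithmeticFunction ℂ :=
  ⟨fun n => f n * ((g / Real.sqrt n : ℝ) : ℂ) * nt n t, by simp⟩

lemma tq19_apply (g t : ℝ) (f : ArithmeticFunction ℂ) (n : ℕ) :
    tq19 g t f n = f n * ((g / Real.sqrt n : ℝ) : ℂ) * nt n t := rfl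

lemma tq19_prod {ι : Type*} (s : Finset ι) (g : ι → ℝ) (t : ℝ) (F : ι → ArithmeticFunction ℂ) {n : ℕ} (hn : n ≠ 0) :
    (∏ i ∈ s, tq19 (g i) t (F i)) n =
      (∏ i ∈ s, F i) n * (((∏ i ∈ s, g i) / Real.sqrt n : ℝ) : ℂ) * nt n t := by
  classical
  induction s using Finset.induction_on generalizing n with
  | empty =>
    rw [Finset.prod_empty, Finset.prod_empty, Finset.prod_empty]
    by_cases h1 : n = 1
    · subst h1
      simp [nt]
    · rw [ArithmeticFunction.one_apply_ne h1]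
      simp
  | insert i s hi ih =>
    rw [Finset.prod_insert hi, Finset.prod_insert hi, Finset.prod_insert hi, ArithmeticFunction.mul_apply,
      ArithmeticFunction.mul_apply, Finset.sum_mul, Finset.sum_mul]
    refine Finset.sum_congr rfl fun p hp => ?_
    rw [Nat.mem_divisorsAntidiagonal] at hp
    have hx : p.1 ≠ 0 := fun h => hp.2 (by rw [← hp.1, h, zero_mul])
    have hy : p.2 ≠ 0 := fun h => hp.2 (by rw [← hp.1, h, mul_zero])
    rw [ih hy, tq19_apply, ← hp.1, nt_mul hx hy]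
    have e1 : Real.sqrt ((p.1 * p.2 : ℕ) : ℝ) = Real.sqrt p.1 * Real.sqrt p.2 := by
      rw [Nat.cast_mul, Real.sqrt_mul (by positivity)]
    rw [e1]
    push_cast
    have e2 : ((g i : ℝ) : ℂ) * (∏ j ∈ s, ((g j : ℝ) : ℂ)) /
        (((Real.sqrt (p.1 : ℝ) : ℝ) : ℂ) * ((Real.sqrt (p.2 : ℝ) : ℝ) : ℂ)) =
        (((g i : ℝ) : ℂ) / ((Real.sqrt (p.1 : ℝ) : ℝ) : ℂ)) *
          ((∏ j ∈ s, ((g j : ℝ) : ℂ)) / ((Real.sqrt (p.2 : ℝ) : ℝ) : ℂ)) := by
      rw [div_mul_div_comm]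
    rw [e2]
    ring

lemma supp19 {ι : Type*} (s : Finset ι) {F : ι → ArithmeticFunction ℂ} {U : ι → ℕ}
    (h : ∀ i ∈ s, ∀ n, F i n ≠ 0 → n ≤ U i) {n : ℕ} (hn : (∏ i ∈ s, F i) n ≠ 0) : n ≤ ∏ i ∈ s, U i := by
  classical
  induction s using Finset.induction_on generalizing n with
  | empty =>
    rw [Finset.prod_empty] at hn
    have : n = 1 := by
      by_contra h1
      exact hn (ArithmeticFunction.one_apply_ne h1)
    simp [this]
  | insert a s ha ih =>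
    rw [Finset.prod_insert ha, ArithmeticFunction.mul_apply] at hn
    obtain ⟨p, hp, hp2⟩ := Finset.exists_ne_zero_of_sum_ne_zero hn
    rw [Nat.mem_divisorsAntidiagonal] at hp
    have h1 := left_ne_zero_of_mul hp2
    have h2 := right_ne_zero_of_mul hp2
    rw [Finset.prod_insert ha, ← hp.1]
    exact Nat.mul_le_mul (h a (Finset.mem_insert_self _ _) _ h1) (ih (fun i hi => h i (Finset.mem_insert_of_mem hi)) h2)

lemma sqrt_prod19 (L : Fin 5 → ℝ) (hL : ∀ i, 0 ≤ L i) : ∏ i, Real.sqrt (L i) = Real.sqrt (∏ i, L i) := by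
  rw [Fin.prod_univ_five, Fin.prod_univ_five, Real.sqrt_mul, Real.sqrt_mul, Real.sqrt_mul, Real.sqrt_mul]
  all_goals have h0 := hL 0; have h1 := hL 1; have h2 := hL 2; have h3 := hL 3; positivity

/-- the sum over `k` -/
private lemma inner19 {q : ℕ} [NeZero q] {a : ℤ} (ha : IsCoprime a (q : ℤ)) (F : Fin 5 → ArithmeticFunction ℂ) (L : Fin 5 → ℝ)
    (hL1 : ∀ i, 1 ≤ L i) (hsupp : ∀ i n, F i n ≠ 0 → L i ≤ n ∧ (n : ℝ) < 2 * L i ∧ Nat.Coprime n q) (hF : ∀ i n, ‖F i n‖ ≤ 1)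
    (T : ℕ) {lam : Fin 5 → ℝ} (hlam : ∀ i, 0 < lam i) (hlam1 : ∏ i, lam i = 1) {Mm : Fin 5 → ℝ}
    (hM : ∀ (i : Fin 5) (c : ℕ → ℂ), (∀ n, ‖c n‖ ≤ 1) →
      ∑ p ∈ (univ : Finset (DirichletCharacter ℂ q)) ×ˢ Icc (-(T : ℤ)) T, ‖P ⌊2 * L i⌋₊ c p‖ ^ 5 ≤ Mm i)
    {Y : ℕ} (hY : ∏ i, ⌊2 * L i⌋₊ ≤ Y) (ξ θ : ℝ) :
    ∑ k ∈ Icc (-(T : ℤ)) T, ‖∑ n ∈ Icc 1 Y, ((((∏ i, F i) n * ex ((a : ℝ) * n / q)) * nt n ξ) / Real.sqrt n * nt n θ) * nt n k‖ ≤
      Real.sqrt q / (q.totient : ℝ) * (1 / Real.sqrt (∏ i, L i)) * (∑ i, lam i ^ 5 * Mm i) := by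
  classical
  have hPpos : 0 < ∏ i, L i := Finset.prod_pos fun i _ => lt_of_lt_of_le one_pos (hL1 i)
  have hsP : 0 < Real.sqrt (∏ i, L i) := Real.sqrt_pos.2 hPpos
  obtain ⟨c, hc⟩ : ∃ c : Fin 5 → ℕ → ℂ, c = fun i n => F i n * ((Real.sqrt (L i) / Real.sqrt n : ℝ) : ℂ) * nt n (ξ + θ) := ⟨_, rfl⟩
  have hc1 : ∀ i n, ‖c i n‖ ≤ 1 := by
    intro i n
    rw [hc]
    dsimp only
    by_cases h0 : F i n = 0
    · rw [h0]; simp
    · have h1 := (hsupp i n h0).1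
      have hn : (0 : ℝ) < n := lt_of_lt_of_le (lt_of_lt_of_le one_pos (hL1 i)) h1
      rw [norm_mul, norm_mul, norm_nt, mul_one, Complex.norm_real, Real.norm_eq_abs, abs_of_nonneg (by positivity)]
      have h2 : Real.sqrt (L i) / Real.sqrt n ≤ 1 := by
        rw [div_le_one (Real.sqrt_pos.2 hn)]
        exact Real.sqrt_le_sqrt h1
      exact mul_le_one₀ (hF i n) (by positivity) h2
  obtain ⟨S, hS⟩ : ∃ S : ℤ → ℝ, S = fun k => ∑ i, lam i ^ 5 * ∑ χ : DirichletCharacter ℂ q, ‖P ⌊2 * L i⌋₊ (c i) (χ, k)‖ ^ 5 := ⟨_, rfl⟩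
  have hprod : ∏ i, (lam i * Real.sqrt (L i)) = Real.sqrt (∏ i, L i) := by
    rw [Finset.prod_mul_distrib, hlam1, one_mul, sqrt_prod19 L (fun i => le_trans zero_le_one (hL1 i))]
  have hk : ∀ k ∈ Icc (-(T : ℤ)) T,
      ‖∑ n ∈ Icc 1 Y, ((((∏ i, F i) n * ex ((a : ℝ) * n / q)) * nt n ξ) / Real.sqrt n * nt n θ) * nt n k‖ ≤
        (1 / Real.sqrt (∏ i, L i)) * (Real.sqrt q / (q.totient : ℝ) * S k) := by
    intro k _
    have e1 : ∑ n ∈ Icc 1 Y, ((((∏ i, F i) n * ex ((a : ℝ) * n / q)) * nt n ξ) / Real.sqrt n * nt n θ) * nt n k =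
        ((1 / Real.sqrt (∏ i, L i) : ℝ) : ℂ) * SF (∏ i, tq19 (lam i * Real.sqrt (L i)) (ξ + θ + k) (F i)) Y a q := by
      unfold SF
      rw [Finset.mul_sum]
      refine Finset.sum_congr rfl fun n hn => ?_
      have hn0 : n ≠ 0 := by
        have := (Finset.mem_Icc.1 hn).1
        omega
      rw [tq19_prod _ _ _ _ hn0, hprod, nt_add, nt_add]
      have h1 : ((Real.sqrt (∏ i, L i) : ℝ) : ℂ) ≠ 0 := by exact_mod_cast hsP.ne'
      have h2 : ((Real.sqrt (n : ℝ) : ℝ) : ℂ) ≠ 0 := by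
        have : (0 : ℝ) < n := by exact_mod_cast Nat.pos_of_ne_zero hn0
        exact_mod_cast (Real.sqrt_pos.2 this).ne'
      push_cast
      field_simp
    rw [e1, norm_mul, Complex.norm_real, Real.norm_eq_abs, abs_of_nonneg (by positivity)]
    refine mul_le_mul_of_nonneg_left ?_ (by positivity)
    refine char_five ha (fun i => tq19 (lam i * Real.sqrt (L i)) (ξ + θ + k) (F i)) (fun i => ⌊2 * L i⌋₊) ?_ ?_ ?_ hY
    · intro i n hn
      have h0 : F i n ≠ 0 := fun h => hn (by rw [tq19_apply, h]; simp)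
      exact Nat.le_floor (hsupp i n h0).2.1.le
    · intro i n hn
      have h0 : F i n ≠ 0 := fun h => hn (by rw [tq19_apply, h]; simp)
      exact (hsupp i n h0).2.2
    · intro i
      have e2 : ∑ χ : DirichletCharacter ℂ q, ‖∑ n ∈ Icc 1 ⌊2 * L i⌋₊, tq19 (lam i * Real.sqrt (L i)) (ξ + θ + k) (F i) n * χ (n : ZMod q)‖ ^ 5 =
          lam i ^ 5 * ∑ χ : DirichletCharacter ℂ q, ‖P ⌊2 * L i⌋₊ (c i) (χ, k)‖ ^ 5 := by
        rw [Finset.mul_sum]
        refine Finset.sum_congr rfl fun χ _ => ?_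
        have e3 : ∑ n ∈ Icc 1 ⌊2 * L i⌋₊, tq19 (lam i * Real.sqrt (L i)) (ξ + θ + k) (F i) n * χ (n : ZMod q) =
            ((lam i : ℝ) : ℂ) * P ⌊2 * L i⌋₊ (c i) (χ, k) := by
          unfold P
          rw [Finset.mul_sum]
          refine Finset.sum_congr rfl fun n _ => ?_
          rw [tq19_apply, hc]
          dsimp only
          rw [nt_add]
          push_cast
          ring
        rw [e3, norm_mul, mul_pow, Complex.norm_real, Real.norm_eq_abs, abs_of_pos (hlam i)]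
      rw [e2, hS]
      dsimp only
      exact Finset.single_le_sum (f := fun i => lam i ^ 5 * ∑ χ : DirichletCharacter ℂ q, ‖P ⌊2 * L i⌋₊ (c i) (χ, k)‖ ^ 5)
        (fun j _ => mul_nonneg (by have := hlam j; positivity) (Finset.sum_nonneg fun _ _ => by positivity)) (Finset.mem_univ i)
  refine (Finset.sum_le_sum hk).trans ?_
  rw [← Finset.mul_sum, ← Finset.mul_sum]
  have hSS : ∑ k ∈ Icc (-(T : ℤ)) T, S k ≤ ∑ i, lam i ^ 5 * Mm i := by
    rw [hS]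
    dsimp only
    rw [Finset.sum_comm]
    refine Finset.sum_le_sum fun i _ => ?_
    rw [← Finset.mul_sum]
    refine mul_le_mul_of_nonneg_left ?_ (by have := hlam i; positivity)
    rw [Finset.sum_comm]
    refine le_trans (le_of_eq ?_) (hM i (c i) (hc1 i))
    rw [Finset.sum_product]
  calc 1 / Real.sqrt (∏ i, L i) * (Real.sqrt q / (q.totient : ℝ) * ∑ k ∈ Icc (-(T : ℤ)) T, S k)
      ≤ 1 / Real.sqrt (∏ i, L i) * (Real.sqrt q / (q.totient : ℝ) * (∑ i, lam i ^ 5 * Mm i)) :=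
        mul_le_mul_of_nonneg_left (mul_le_mul_of_nonneg_left hSS (by positivity)) (by positivity)
    _ = _ := by ring

/-- partial summation -/
lemma abel19 (Y : ℕ) (u : ℕ → ℂ) (v : ℕ → ℝ) (hv : Monotone v) (hv0 : ∀ n, 0 ≤ v n) {B : ℝ}
    (hB : ∀ M ≤ Y, ‖∑ n ∈ Icc 1 M, u n‖ ≤ B) : ‖∑ n ∈ Icc 1 Y, u n * (v n : ℂ)‖ ≤ 2 * v Y * B := by
  have hid : ∀ Z : ℕ, ∑ n ∈ Icc 1 Z, u n * (v n : ℂ) =
      (v Z : ℂ) * ∑ n ∈ Icc 1 Z, u n - ∑ m ∈ range Z, ((v (m + 1) - v m : ℝ) : ℂ) * ∑ n ∈ Icc 1 m, u n := by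
    intro Z
    induction Z with
    | zero => simp
    | succ Z ih =>
      rw [Finset.sum_Icc_succ_top (Nat.le_add_left 1 Z), ih, Finset.sum_Icc_succ_top (Nat.le_add_left 1 Z), Finset.sum_range_succ]
      push_cast
      ring
  have hB0 : 0 ≤ B := (norm_nonneg _).trans (hB 0 (Nat.zero_le _))
  rw [hid Y]
  refine (norm_sub_le _ _).trans ?_
  have h1 : ‖(v Y : ℂ) * ∑ n ∈ Icc 1 Y, u n‖ ≤ v Y * B := by
    rw [norm_mul, Complex.norm_real, Real.norm_eq_abs, abs_of_nonneg (hv0 Y)]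
    exact mul_le_mul_of_nonneg_left (hB Y le_rfl) (hv0 Y)
  have h2 : ‖∑ m ∈ range Y, ((v (m + 1) - v m : ℝ) : ℂ) * ∑ n ∈ Icc 1 m, u n‖ ≤ v Y * B := by
    refine (norm_sum_le _ _).trans ?_
    have h3 : ∀ m ∈ range Y, ‖((v (m + 1) - v m : ℝ) : ℂ) * ∑ n ∈ Icc 1 m, u n‖ ≤ (v (m + 1) - v m) * B := by
      intro m hm
      have h4 : 0 ≤ v (m + 1) - v m := sub_nonneg.2 (hv (Nat.le_succ m))
      rw [norm_mul, Complex.norm_real, Real.norm_eq_abs, abs_of_nonneg h4]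
      exact mul_le_mul_of_nonneg_left (hB m (Finset.mem_range.1 hm).le) h4
    refine (Finset.sum_le_sum h3).trans ?_
    rw [← Finset.sum_mul, Finset.sum_range_sub]
    exact mul_le_mul_of_nonneg_right (by linarith [hv0 0]) hB0
  linarith

/-- the pointwise bound -/
theorem five_pre_gen : ∃ C1 : ℝ, 0 < C1 ∧ ∀ (q : ℕ) [NeZero q] (a : ℤ), IsCoprime a (q : ℤ) →
    ∀ (x : ℝ) (F : Fin 5 → ArithmeticFunction ℂ) (L : Fin 5 → ℝ), (∀ i, 1 ≤ L i) →
    (∀ i n, F i n ≠ 0 → L i ≤ n ∧ (n : ℝ) < 2 * L i ∧ Nat.Coprime n q) → (∀ i n, ‖F i n‖ ≤ 1) →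
    ∀ (T : ℕ) (lam : Fin 5 → ℝ), (∀ i, 0 < lam i) → ∏ i, lam i = 1 → ∀ (Mm : Fin 5 → ℝ),
    (∀ (i : Fin 5) (c : ℕ → ℂ), (∀ n, ‖c n‖ ≤ 1) →
      ∑ p ∈ (univ : Finset (DirichletCharacter ℂ q)) ×ˢ Icc (-(T : ℤ)) T, ‖P ⌊2 * L i⌋₊ c p‖ ^ 5 ≤ Mm i) →
    ∀ X : ℕ, 32 * ∏ i, L i ≤ X →
      ‖SX (∏ i, F i) X x‖ ≤ C1 * Real.log (32 * ∏ i, L i) *
        (Real.sqrt (∏ i, L i) / Real.sqrt (1 + (∏ i, L i) * |x - a / q|) *
          (Real.sqrt q / (q.totient : ℝ) * (1 / Real.sqrt (∏ i, L i)) * (∑ i, lam i ^ 5 * Mm i) +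
            (32 * ∏ i, L i) * (4 * (2 * Real.pi * (1 + (∏ i, L i) * |x - a / q|))) *
              Real.exp (-(1 / (2 * Real.pi * (1 + (∏ i, L i) * |x - a / q|)) / 2 * T)))) := by
  classical
  obtain ⟨C0, hC0, hsep⟩ := sep_bound
  refine ⟨2 * Real.exp 32 * C0, by positivity, ?_⟩
  intro q _ a ha x F L hL1 hsupp hF T lam hlam hlam1 Mm hM X hX
  have hpi := Real.pi_pos
  obtain ⟨Pi1, hPd⟩ : ∃ Pi1 : ℝ, Pi1 = ∏ i, L i := ⟨_, rfl⟩
  obtain ⟨β, hβ⟩ : ∃ β : ℝ, β = x - a / q := ⟨_, rfl⟩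
  have hPb : 1 ≤ Pi1 := by rw [hPd]; exact Finset.prod_induction (s := (Finset.univ : Finset (Fin 5))) (fun i => L i) (fun y => 1 ≤ y) (fun _ _ ha hb => one_le_mul_of_one_le_of_one_le ha hb) le_rfl (fun i _ => hL1 i)
  have hPp : 0 < Pi1 := by linarith
  have hqp : (0 : ℝ) < q := by exact_mod_cast Nat.pos_of_ne_zero (NeZero.ne q)
  obtain ⟨Y, hY⟩ : ∃ Y : ℕ, Y = ∏ i, ⌊2 * L i⌋₊ := ⟨_, rfl⟩
  have hfl : ∀ i, 2 ≤ ⌊2 * L i⌋₊ := by
    intro i
    apply Nat.le_floor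
    have := hL1 i
    push_cast
    linarith
  have hY32 : (Y : ℝ) ≤ 32 * Pi1 := by
    rw [hY, hPd]
    push_cast
    calc ∏ i, (⌊2 * L i⌋₊ : ℝ) ≤ ∏ i, (2 * L i) := by
          refine Finset.prod_le_prod (fun _ _ => by positivity) fun i _ => ?_
          exact Nat.floor_le (by have := hL1 i; linarith)
      _ = 32 * ∏ i, L i := by
          rw [Finset.prod_mul_distrib]
          simp
          norm_num
  have hY2 : 2 ≤ Y := by
    rw [hY, Fin.prod_univ_five]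
    have h0 := hfl 0
    have h1 : 1 ≤ ⌊2 * L 1⌋₊ := by have := hfl 1; omega
    have h2 : 1 ≤ ⌊2 * L 2⌋₊ := by have := hfl 2; omega
    have h3 : 1 ≤ ⌊2 * L 3⌋₊ := by have := hfl 3; omega
    have h4 : 1 ≤ ⌊2 * L 4⌋₊ := by have := hfl 4; omega
    calc 2 ≤ ⌊2 * L 0⌋₊ := h0
      _ = ⌊2 * L 0⌋₊ * 1 * 1 * 1 * 1 := by ring
      _ ≤ _ := Nat.mul_le_mul (Nat.mul_le_mul (Nat.mul_le_mul (Nat.mul_le_mul le_rfl h1) h2) h3) h4
  have hYX : Y ≤ X := by
    have : (Y : ℝ) ≤ X := hY32.trans (by rw [hPd]; exact hX)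
    exact_mod_cast this
  have hsu : ∀ n, (∏ i, F i) n ≠ 0 → n ≤ Y := by
    intro n hn
    rw [hY]
    exact supp19 _ (fun i _ m hm => Nat.le_floor (hsupp i m hm).2.1.le) hn
  -- the sum up to `Y`
  have hSX : SX (∏ i, F i) X x = SX (∏ i, F i) Y x := by
    unfold SX
    symm
    refine Finset.sum_subset (Finset.Icc_subset_Icc_right hYX) fun n hn hn' => ?_
    have : (∏ i, F i) n = 0 := by
      by_contra h0
      exact hn' (Finset.mem_Icc.mpr ⟨(Finset.mem_Icc.mp hn).1, hsu n h0⟩)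
    rw [this, zero_mul]
  obtain ⟨δ, hδ⟩ : ∃ δ : ℝ, δ = 1 / Pi1 := ⟨_, rfl⟩
  have hδ0 : 0 < δ := by rw [hδ]; positivity
  -- the total mass
  have hPc : ∀ i ∈ (univ : Finset (Fin 5)), Pc ⌈L i⌉₊ (F i) := by
    intro i _
    refine ⟨?_, ?_, hF i⟩
    · rw [Nat.one_le_ceil_iff]
      linarith [hL1 i]
    · intro n hn
      obtain ⟨h1, h2, _⟩ := hsupp i n hn
      refine ⟨Nat.ceil_le.2 h1, ?_⟩
      have h3 : L i ≤ ⌈L i⌉₊ := Nat.le_ceil _
      have h4 : (n : ℝ) < 2 * (⌈L i⌉₊ : ℝ) := by linarith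
      exact_mod_cast h4
  have hmass : ∑ n ∈ Icc 1 Y, ‖(∏ i, F i) n‖ ≤ 32 * Pi1 := by
    refine (prod_l1 univ hPc Y).trans ?_
    rw [hPd]
    calc ∏ i, (⌈L i⌉₊ : ℝ) ≤ ∏ i, (2 * L i) := by
          refine Finset.prod_le_prod (fun _ _ => by positivity) fun i _ => ?_
          have := (Nat.ceil_lt_add_one (show 0 ≤ L i by linarith [hL1 i])).le
          linarith [hL1 i]
      _ = 32 * ∏ i, L i := by
          rw [Finset.prod_mul_distrib]
          simp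
          norm_num
  -- the main bound for all twists
  obtain ⟨B0, hB0⟩ : ∃ B0 : ℝ, B0 = Real.sqrt Pi1 / Real.sqrt (1 + Pi1 * |β|) *
      (Real.sqrt q / (q.totient : ℝ) * (1 / Real.sqrt Pi1) * (∑ i, lam i ^ 5 * Mm i) +
        (32 * Pi1) * (4 * (2 * Real.pi * (1 + Pi1 * |β|))) *
          Real.exp (-(1 / (2 * Real.pi * (1 + Pi1 * |β|)) / 2 * T))) := ⟨_, rfl⟩
  have hw : 0 < 1 + Pi1 * |β| := by positivity
  have hcr : cr δ β = 1 / (2 * Real.pi * (1 + Pi1 * |β|)) := by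
    unfold cr
    rw [hδ]
    have : (1 : ℝ) / Pi1 + |β| = (1 + Pi1 * |β|) / Pi1 := by field_simp
    rw [this]
    field_simp
  have hsq : 1 / Real.sqrt (δ + |β|) = Real.sqrt Pi1 / Real.sqrt (1 + Pi1 * |β|) := by
    have : δ + |β| = (1 + Pi1 * |β|) / Pi1 := by rw [hδ]; field_simp
    rw [this, Real.sqrt_div hw.le, one_div_div]
  have htw : ∀ ξ : ℝ, ‖∑ n ∈ Icc 1 Y, ((∏ i, F i) n * ex ((a : ℝ) * n / q) * Complex.exp (-(n * w δ β))) *
      Complex.exp (((ξ * Real.log n : ℝ) : ℂ) * Complex.I)‖ ≤ B0 := by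
    intro ξ
    have e1 : ∑ n ∈ Icc 1 Y, ((∏ i, F i) n * ex ((a : ℝ) * n / q) * Complex.exp (-(n * w δ β))) *
        Complex.exp (((ξ * Real.log n : ℝ) : ℂ) * Complex.I) =
        ∑ n ∈ Icc 1 Y, (((∏ i, F i) n * ex ((a : ℝ) * n / q)) * nt n ξ) * Complex.exp (-(n * w δ β)) := by
      refine Finset.sum_congr rfl fun n _ => ?_
      have : nt n ξ = Complex.exp (((ξ * Real.log n : ℝ) : ℂ) * Complex.I) := by
        unfold nt
        rw [mul_comm]
      rw [this]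
      ring
    rw [e1]
    refine (mellin_sep hδ0 Y _ T (S := Real.sqrt q / (q.totient : ℝ) * (1 / Real.sqrt Pi1) * (∑ i, lam i ^ 5 * Mm i)) (A := 32 * Pi1) ?_ ?_).trans ?_
    · intro θ
      rw [hPd]
      exact inner19 ha F L hL1 hsupp hF T hlam hlam1 hM (le_of_eq hY.symm) ξ θ
    · refine le_trans (Finset.sum_le_sum fun n _ => ?_) hmass
      rw [norm_mul, norm_mul, norm_nt, norm_ex, mul_one, mul_one]
    · rw [hsq, hcr, hB0]
      apply le_of_eq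
      rw [div_div_eq_mul_div, div_one]
  have hsep2 : ∀ M ≤ Y, ‖∑ n ∈ Icc 1 M, ((∏ i, F i) n * ex ((a : ℝ) * n / q) * Complex.exp (-(n * w δ β)))‖ ≤
      C0 * Real.log Y * B0 := by
    intro M hMY
    have := hsep Y hY2 M _ B0 htw
    rwa [min_eq_left hMY] at this
  have habel := abel19 Y (fun n => (∏ i, F i) n * ex ((a : ℝ) * n / q) * Complex.exp (-(n * w δ β)))
    (fun n => Real.exp (δ * n)) (fun m n hmn => Real.exp_le_exp.2 (mul_le_mul_of_nonneg_left (by exact_mod_cast hmn) hδ0.le))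
    (fun n => (Real.exp_pos _).le) hsep2
  have hid : ∑ n ∈ Icc 1 Y, ((∏ i, F i) n * ex ((a : ℝ) * n / q) * Complex.exp (-(n * w δ β))) * ((Real.exp (δ * n) : ℝ) : ℂ) =
      SX (∏ i, F i) Y x := by
    unfold SX
    refine Finset.sum_congr rfl fun n _ => ?_
    have e1 : ex ((n : ℝ) * x) = ex ((a : ℝ) * n / q) * ex (n * β) := by
      rw [← ex_add, hβ]
      congr 1
      ring
    have e2 : Complex.exp (-(n * w δ β)) * ((Real.exp (δ * n) : ℝ) : ℂ) = ex (n * β) := by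
      rw [ex, Complex.ofReal_exp, ← Complex.exp_add]
      congr 1
      unfold w
      push_cast
      ring
    rw [e1, ← e2]
    ring
  rw [hid] at habel
  rw [hSX]
  refine habel.trans ?_
  have hB00 : 0 ≤ B0 := (norm_nonneg _).trans (htw 0)
  have hexp : Real.exp (δ * Y) ≤ Real.exp 32 := by
    apply Real.exp_le_exp.2
    rw [hδ, one_div, inv_mul_le_iff₀ hPp]
    linarith
  have hlog : Real.log Y ≤ Real.log (32 * Pi1) := Real.log_le_log (by exact_mod_cast (by omega : 0 < Y)) hY32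
  have hlog0 : 0 ≤ Real.log Y := Real.log_natCast_nonneg Y
  rw [← hPd, ← hβ, ← hB0]
  calc 2 * Real.exp (δ * Y) * (C0 * Real.log Y * B0) ≤ 2 * Real.exp 32 * (C0 * Real.log (32 * Pi1) * B0) := by
        refine mul_le_mul (mul_le_mul_of_nonneg_left hexp (by norm_num)) ?_ (by positivity) (by positivity)
        exact mul_le_mul_of_nonneg_right (mul_le_mul_of_nonneg_left hlog hC0.le) hB00
    _ = _ := by ring

theorem five_pre : ∃ C1 : ℝ, 0 < C1 ∧ ∀ (q : ℕ) [NeZero q] (a : ℤ), IsCoprime a (q : ℤ) →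
    ∀ (x : ℝ) (F : Fin 5 → ArithmeticFunction ℂ) (L : Fin 5 → ℝ), (∀ i, 1 ≤ L i) →
    (∀ i n, F i n ≠ 0 → L i ≤ n ∧ (n : ℝ) < 2 * L i ∧ Nat.Coprime n q) → (∀ i n, ‖F i n‖ ≤ 1) →
    ∀ (T : ℕ) (Mm : ℝ), (∀ (i : Fin 5) (c : ℕ → ℂ), (∀ n, ‖c n‖ ≤ 1) →
      ∑ p ∈ (univ : Finset (DirichletCharacter ℂ q)) ×ˢ Icc (-(T : ℤ)) T, ‖P ⌊2 * L i⌋₊ c p‖ ^ 5 ≤ Mm) →
    ∀ X : ℕ, 32 * ∏ i, L i ≤ X →
      ‖SX (∏ i, F i) X x‖ ≤ C1 * Real.log (32 * ∏ i, L i) *
        (Real.sqrt (∏ i, L i) / Real.sqrt (1 + (∏ i, L i) * |x - a / q|) *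
          (Real.sqrt q / (q.totient : ℝ) * (1 / Real.sqrt (∏ i, L i)) * (5 * Mm) +
            (32 * ∏ i, L i) * (4 * (2 * Real.pi * (1 + (∏ i, L i) * |x - a / q|))) *
              Real.exp (-(1 / (2 * Real.pi * (1 + (∏ i, L i) * |x - a / q|)) / 2 * T)))) := by
  obtain ⟨C1, hC1, h⟩ := five_pre_gen
  refine ⟨C1, hC1, fun q _ a ha x F L hL1 hsupp hF T Mm hM X hX => ?_⟩
  have h1 := h q a ha x F L hL1 hsupp hF T (fun _ => 1) (fun _ => one_pos) (by simp) (fun _ => Mm) hM X hX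
  have h2 : ∑ _i : Fin 5, (1 : ℝ) ^ 5 * Mm = 5 * Mm := by simp
  rw [h2] at h1
  exact h1

lemma tot19 {q : ℕ} (hq : q ≠ 0) : (q : ℝ) ≤ (q.divisors.card : ℝ) * (Nat.totient q : ℝ) := by
  have h1 := Nat.totient_mul_prod_primeFactors q
  have h2 : ∏ p ∈ q.primeFactors, p ≤ 2 ^ q.primeFactors.card * ∏ p ∈ q.primeFactors, (p - 1) := by
    rw [← Finset.prod_const, ← Finset.prod_mul_distrib]
    refine Finset.prod_le_prod' fun p hp => ?_
    have := (Nat.prime_of_mem_primeFactors hp).two_le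
    omega
  have h3 : 0 < ∏ p ∈ q.primeFactors, (p - 1) := Finset.prod_pos fun p hp => by
    have := (Nat.prime_of_mem_primeFactors hp).two_le
    omega
  have h4 : 2 ^ q.primeFactors.card ≤ q.divisors.card := by
    rw [Nat.card_divisors hq, ← Finset.prod_const]
    refine Finset.prod_le_prod' fun p hp => ?_
    have := (Nat.prime_of_mem_primeFactors hp).factorization_pos_of_dvd hq (Nat.dvd_of_mem_primeFactors hp)
    omega
  have h5 : q * ∏ p ∈ q.primeFactors, (p - 1) ≤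
      (q.divisors.card * Nat.totient q) * ∏ p ∈ q.primeFactors, (p - 1) := by
    rw [← h1]
    calc Nat.totient q * ∏ p ∈ q.primeFactors, p
        ≤ Nat.totient q * (2 ^ q.primeFactors.card * ∏ p ∈ q.primeFactors, (p - 1)) := Nat.mul_le_mul_left _ h2
      _ ≤ Nat.totient q * (q.divisors.card * ∏ p ∈ q.primeFactors, (p - 1)) :=
          Nat.mul_le_mul_left _ (Nat.mul_le_mul_right _ h4)
      _ = _ := by ring
  have h6 := Nat.le_of_mul_le_mul_right h5 h3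
  exact_mod_cast h6


/-- the total mass -/
lemma mass19 {q : ℕ} (F : Fin 5 → ArithmeticFunction ℂ) (L : Fin 5 → ℝ)
    (hL1 : ∀ i, 1 ≤ L i) (hsupp : ∀ i n, F i n ≠ 0 → L i ≤ n ∧ (n : ℝ) < 2 * L i ∧ Nat.Coprime n q) (hF : ∀ i n, ‖F i n‖ ≤ 1)
    (X : ℕ) (x : ℝ) : ‖SX (∏ i, F i) X x‖ ≤ 32 * ∏ i, L i := by
  have hPc : ∀ i ∈ (univ : Finset (Fin 5)), Pc ⌈L i⌉₊ (F i) := by
    intro i _
    refine ⟨?_, ?_, hF i⟩
    · rw [Nat.one_le_ceil_iff]
      linarith [hL1 i]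
    · intro n hn
      obtain ⟨h1, h2, _⟩ := hsupp i n hn
      refine ⟨Nat.ceil_le.2 h1, ?_⟩
      have h3 : L i ≤ ⌈L i⌉₊ := Nat.le_ceil _
      have h4 : (n : ℝ) < 2 * (⌈L i⌉₊ : ℝ) := by linarith
      exact_mod_cast h4
  have hmass : ∑ n ∈ Icc 1 X, ‖(∏ i, F i) n‖ ≤ 32 * ∏ i, L i := by
    refine (prod_l1 univ hPc X).trans ?_
    calc ∏ i, (⌈L i⌉₊ : ℝ) ≤ ∏ i, (2 * L i) := by
          refine Finset.prod_le_prod (fun _ _ => by positivity) fun i _ => ?_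
          have := (Nat.ceil_lt_add_one (show 0 ≤ L i by linarith [hL1 i])).le
          linarith [hL1 i]
      _ = 32 * ∏ i, L i := by
          rw [Finset.prod_mul_distrib]
          simp
          norm_num
  unfold SX
  refine (norm_sum_le _ _).trans ((Finset.sum_le_sum fun n _ => ?_).trans hmass)
  rw [norm_mul, norm_ex, mul_one]

lemma ev19 {e : ℝ} (he : 0 < e) (C : ℝ) : ∀ᶠ N : ℕ in Filter.atTop, C ≤ (N : ℝ) ^ e :=
  ((tendsto_rpow_atTop he).comp tendsto_natCast_atTop_atTop).eventually_ge_atTop C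

lemma ev_exp19 {e : ℝ} (he : 0 < e) : ∀ᶠ N : ℕ in Filter.atTop,
    (N : ℝ) ^ 3 * Real.exp (-((N : ℝ) ^ e / (4 * Real.pi))) ≤ 1 := by
  have h1 := tendsto_rpow_mul_exp_neg_mul_atTop_nhds_zero (3 / e) (1 / (4 * Real.pi)) (by positivity)
  have h2 : Filter.Tendsto (fun N : ℕ => ((N : ℝ)) ^ e) Filter.atTop Filter.atTop :=
    (tendsto_rpow_atTop he).comp tendsto_natCast_atTop_atTop
  have h3 := (h1.comp h2).eventually (ge_mem_nhds zero_lt_one)
  filter_upwards [h3] with N hN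
  have e1 : ((N : ℝ) ^ e) ^ (3 / e) = (N : ℝ) ^ 3 := by
    rw [← Real.rpow_mul (by positivity)]
    have : e * (3 / e) = ((3 : ℕ) : ℝ) := by
      field_simp
      norm_num
    rw [this, Real.rpow_natCast]
  have e2 : -(1 / (4 * Real.pi)) * (N : ℝ) ^ e = -((N : ℝ) ^ e / (4 * Real.pi)) := by ring
  simp only [Function.comp] at hN
  rw [e1, e2] at hN
  exact hN

theorem five_of_lvt {h : ℝ} (hh : 0 < h) (hLV : ∀ d : ℝ, 0 < d → LVT h d) : FIVE (2 / 5 + h) := by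
  classical
  intro c0 hc0
  obtain ⟨δ0, hδ0, N1, hm0⟩ := m5t hh (d := c0 / 2) (by positivity) (hLV _ (by positivity))
  obtain ⟨δ, hδ, hδ1, hδ2⟩ : ∃ δ : ℝ, 0 < δ ∧ δ ≤ δ0 ∧ δ ≤ 1 / 100 :=
    ⟨min δ0 (1 / 100), lt_min hδ0 (by norm_num), min_le_left _ _, min_le_right _ _⟩
  obtain ⟨e, he, he1, he2⟩ : ∃ e : ℝ, 0 < e ∧ e ≤ δ / 8 ∧ e ≤ c0 / 4 :=
    ⟨min (δ / 8) (c0 / 4), lt_min (by positivity) (by positivity), min_le_left _ _, min_le_right _ _⟩
  obtain ⟨C1, hC1, hpre⟩ := five_pre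
  obtain ⟨C2, hC2, hdiv⟩ := Pool.Agent.Helper69.FF.div_bound (ε := δ / 8) (by positivity)
  have hev := (((ev19 (show 0 < c0 / 2 - e by linarith) 2).and (ev19 (show 0 < δ - δ / 4 by linarith) 2)).and
    ((ev19 (show 0 < δ / 16 by positivity) (4 + 16 / δ)).and (ev_exp19 he)))
  obtain ⟨N2, hN2⟩ := Filter.eventually_atTop.1 hev
  refine ⟨δ / 4, by positivity, fun ε hε => ?_⟩
  obtain ⟨N0, hN0⟩ : ∃ N0 : ℕ, N0 = max (max N1 N2) 1 := ⟨_, rfl⟩
  refine ⟨C1 * (10 * C2 + 1000) + 32 * N0, by positivity, ?_⟩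
  intro N hN q a hq ha x L F hL0 hL1 hPN hsupp hF hQ0 hQ1 X hX
  have hNr : (1 : ℝ) ≤ N := by exact_mod_cast hN
  have hNp : (0 : ℝ) < N := by linarith
  have hmono : ∀ {x y : ℝ}, x ≤ y → (N : ℝ) ^ x ≤ (N : ℝ) ^ y := fun hxy => Real.rpow_le_rpow_of_exponent_le hNr hxy
  have hL : ∀ i, 1 ≤ L i := fun i => (Real.one_le_rpow hNr (by linarith)).trans (hL0 i)
  have hqp : (0 : ℝ) < q := by exact_mod_cast hq
  have : NeZero q := ⟨by omega⟩
  obtain ⟨Pp, hPp⟩ : ∃ Pp : ℝ, Pp = ∏ i, L i := ⟨_, rfl⟩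
  have hP1 : 1 ≤ Pp := by
    rw [hPp]
    exact Finset.prod_induction (s := (Finset.univ : Finset (Fin 5))) (fun i => L i) (fun y => 1 ≤ y)
      (fun _ _ ha hb => one_le_mul_of_one_le_of_one_le ha hb) le_rfl (fun i _ => hL i)
  rw [← hPp] at hPN hQ0 hQ1 hX ⊢
  obtain ⟨W, hW⟩ : ∃ W : ℝ, W = 1 + Pp * |x - a / q| := ⟨_, rfl⟩
  have hW1 : 1 ≤ W := by
    rw [hW]
    have : 0 ≤ Pp * |x - a / q| := by positivity
    linarith
  have hQQ : QQ Pp x a q = q * W := by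
    unfold QQ
    rw [hW]
  rw [hQQ] at hQ0 hQ1 ⊢
  have hmain : ‖SX (∏ i, F i) X x‖ ≤ (C1 * (10 * C2 + 1000) + 32 * N0) * (N : ℝ) ^ ((4 : ℝ) / 5 - δ / 4) := by
    rcases lt_or_ge N N0 with hlt | hge
    · have h1 := mass19 F L hL hsupp hF X x
      rw [← hPp] at h1
      have h2 : (N : ℝ) ≤ N0 := by exact_mod_cast hlt.le
      have h3 : (1 : ℝ) ≤ (N : ℝ) ^ ((4 : ℝ) / 5 - δ / 4) := Real.one_le_rpow hNr (by linarith)
      have h4 : 0 ≤ C1 * (10 * C2 + 1000) := by positivity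
      have h5 : (0 : ℝ) ≤ N0 := by positivity
      calc ‖SX (∏ i, F i) X x‖ ≤ 32 * N0 := by linarith
        _ ≤ (C1 * (10 * C2 + 1000) + 32 * N0) * 1 := by linarith
        _ ≤ _ := mul_le_mul_of_nonneg_left h3 (by positivity)
    · have hNa : N1 ≤ N := ((le_max_left _ _).trans (le_max_left _ _)).trans (hN0 ▸ hge)
      have hNb : N2 ≤ N := ((le_max_right _ _).trans (le_max_left _ _)).trans (hN0 ▸ hge)
      obtain ⟨⟨hE1, hE2⟩, hE3, hE4⟩ := hN2 N hNb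
      have hWp : 0 < W := by linarith
      -- the length of the sum over `k`
      obtain ⟨T, hT⟩ : ∃ T : ℕ, T = ⌈W * (N : ℝ) ^ e⌉₊ := ⟨_, rfl⟩
      have hNe : (1 : ℝ) ≤ (N : ℝ) ^ e := Real.one_le_rpow hNr he.le
      have hWe : 1 ≤ W * (N : ℝ) ^ e := one_le_mul_of_one_le_of_one_le hW1 hNe
      have hT0 : W * (N : ℝ) ^ e ≤ T := by rw [hT]; exact Nat.le_ceil _
      have hT1 : (T : ℝ) ≤ 2 * (W * (N : ℝ) ^ e) := by
        rw [hT]
        have := (Nat.ceil_lt_add_one (show 0 ≤ W * (N : ℝ) ^ e by positivity)).le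
        linarith
      have hT2 : 1 ≤ T := by
        have : (1 : ℝ) ≤ T := hWe.trans hT0
        exact_mod_cast this
      have hWT : W ≤ T := le_trans (by nlinarith) hT0
      have hqT0 : (N : ℝ) ^ ((2 : ℝ) / 5 + h) ≤ (q : ℝ) * T := hQ0.trans (mul_le_mul_of_nonneg_left hWT hqp.le)
      have hqT1 : (q : ℝ) * T ≤ (N : ℝ) ^ ((1 : ℝ) / 2 - c0 / 2) := by
        calc (q : ℝ) * T ≤ q * (2 * (W * (N : ℝ) ^ e)) := mul_le_mul_of_nonneg_left hT1 hqp.le
          _ = 2 * ((q * W) * (N : ℝ) ^ e) := by ring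
          _ ≤ (N : ℝ) ^ (c0 / 2 - e) * ((N : ℝ) ^ ((1 : ℝ) / 2 - c0) * (N : ℝ) ^ e) :=
              mul_le_mul hE1 (mul_le_mul_of_nonneg_right hQ1 (by positivity)) (by positivity) (by positivity)
          _ = (N : ℝ) ^ ((1 : ℝ) / 2 - c0 / 2) := by
              rw [← Real.rpow_add hNp, ← Real.rpow_add hNp]
              congr 1
              ring
      -- the fifth moment
      have hM : ∀ (i : Fin 5) (c : ℕ → ℂ), (∀ n, ‖c n‖ ≤ 1) →
          ∑ p ∈ (univ : Finset (DirichletCharacter ℂ q)) ×ˢ Icc (-(T : ℤ)) T, ‖P ⌊2 * L i⌋₊ c p‖ ^ 5 ≤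
            Real.sqrt (q * T) * (N : ℝ) ^ ((4 : ℝ) / 5 - δ) := by
        intro i c hc
        refine (hm0 N hNa q T hT2 hqT0 hqT1 ⌊2 * L i⌋₊ ?_ c hc).trans ?_
        · have h1 : (⌊2 * L i⌋₊ : ℝ) ≤ 2 * L i := Nat.floor_le (by linarith [hL i])
          have h2 : 2 * L i ≤ (N : ℝ) ^ (δ - δ / 4) * (N : ℝ) ^ ((1 : ℝ) / 5 + δ / 4) :=
            mul_le_mul hE2 (hL1 i) (by linarith [hL i]) (by positivity)
          rw [← Real.rpow_add hNp] at h2
          exact h1.trans (h2.trans (hmono (by linarith)))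
        · exact mul_le_mul_of_nonneg_left (hmono (by linarith)) (Real.sqrt_nonneg _)
      have h1 := hpre q a ha x F L hL hsupp hF T _ hM X (by rw [← hPp]; exact hX)
      rw [← hPp, ← hW] at h1
      refine h1.trans ?_
      -- the first part
      have hφ : (0 : ℝ) < q.totient := by exact_mod_cast Nat.totient_pos.2 (by omega)
      have hqN : (q : ℝ) ≤ N := by
        have : (q : ℝ) ≤ q * W := by nlinarith
        calc (q : ℝ) ≤ (N : ℝ) ^ ((1 : ℝ) / 2 - c0) := this.trans hQ1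
          _ ≤ (N : ℝ) ^ (1 : ℝ) := hmono (by linarith)
          _ = N := Real.rpow_one _
      have hWN : W ≤ N := by
        have hq1 : (1 : ℝ) ≤ q := by exact_mod_cast hq
        have : W ≤ q * W := by nlinarith
        calc W ≤ (N : ℝ) ^ ((1 : ℝ) / 2 - c0) := this.trans hQ1
          _ ≤ (N : ℝ) ^ (1 : ℝ) := hmono (by linarith)
          _ = N := Real.rpow_one _
      have hqφ : (q : ℝ) / q.totient ≤ C2 * (N : ℝ) ^ (δ / 8) := by
        rw [div_le_iff₀ hφ]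
        refine (tot19 (NeZero.ne q)).trans (mul_le_mul_of_nonneg_right ?_ hφ.le)
        refine (hdiv q (NeZero.ne q)).trans (mul_le_mul_of_nonneg_left ?_ hC2.le)
        exact Real.rpow_le_rpow hqp.le hqN (by positivity)
      have hsP : 0 < Real.sqrt Pp := Real.sqrt_pos.2 (by linarith)
      have hsW : 0 < Real.sqrt W := Real.sqrt_pos.2 hWp
      have hsq : 0 < Real.sqrt q := Real.sqrt_pos.2 hqp
      have hsqT : Real.sqrt (q * T) ≤ Real.sqrt q * Real.sqrt W * (2 * (N : ℝ) ^ e) := by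
        have h2 : (q : ℝ) * T ≤ (q * W) * (2 * (N : ℝ) ^ e) ^ 2 := by
          have h3 : 2 * (N : ℝ) ^ e ≤ (2 * (N : ℝ) ^ e) ^ 2 := by nlinarith
          calc (q : ℝ) * T ≤ q * (2 * (W * (N : ℝ) ^ e)) := mul_le_mul_of_nonneg_left hT1 hqp.le
            _ = (q * W) * (2 * (N : ℝ) ^ e) := by ring
            _ ≤ _ := mul_le_mul_of_nonneg_left h3 (by positivity)
        calc Real.sqrt (q * T) ≤ Real.sqrt ((q * W) * (2 * (N : ℝ) ^ e) ^ 2) := Real.sqrt_le_sqrt h2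
          _ = _ := by
              rw [Real.sqrt_mul (by positivity), Real.sqrt_sq (by positivity), Real.sqrt_mul hqp.le]
      have hA1 : Real.sqrt Pp / Real.sqrt W * (Real.sqrt q / (q.totient : ℝ) * (1 / Real.sqrt Pp) *
          (5 * (Real.sqrt (q * T) * (N : ℝ) ^ ((4 : ℝ) / 5 - δ)))) ≤ 10 * C2 * (N : ℝ) ^ ((4 : ℝ) / 5 - δ / 2 - δ / 8) := by
        have h2 : Real.sqrt Pp / Real.sqrt W * (Real.sqrt q / (q.totient : ℝ) * (1 / Real.sqrt Pp) *
            (5 * (Real.sqrt (q * T) * (N : ℝ) ^ ((4 : ℝ) / 5 - δ)))) =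
            5 * (Real.sqrt q / (Real.sqrt W * q.totient)) * Real.sqrt (q * T) * (N : ℝ) ^ ((4 : ℝ) / 5 - δ) := by
          field_simp
        have h3 : 5 * (Real.sqrt q / (Real.sqrt W * q.totient)) * Real.sqrt (q * T) * (N : ℝ) ^ ((4 : ℝ) / 5 - δ) ≤
            5 * (Real.sqrt q / (Real.sqrt W * q.totient)) * (Real.sqrt q * Real.sqrt W * (2 * (N : ℝ) ^ e)) * (N : ℝ) ^ ((4 : ℝ) / 5 - δ) :=
          mul_le_mul_of_nonneg_right (mul_le_mul_of_nonneg_left hsqT (by positivity)) (by positivity)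
        have h4 : 5 * (Real.sqrt q / (Real.sqrt W * q.totient)) * (Real.sqrt q * Real.sqrt W * (2 * (N : ℝ) ^ e)) * (N : ℝ) ^ ((4 : ℝ) / 5 - δ) =
            10 * ((Real.sqrt q * Real.sqrt q) / q.totient) * ((N : ℝ) ^ e * (N : ℝ) ^ ((4 : ℝ) / 5 - δ)) := by
          field_simp
          ring
        rw [h2]
        refine h3.trans ?_
        rw [h4, Real.mul_self_sqrt hqp.le, ← Real.rpow_add hNp]
        calc 10 * ((q : ℝ) / q.totient) * (N : ℝ) ^ (e + ((4 : ℝ) / 5 - δ))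
            ≤ 10 * (C2 * (N : ℝ) ^ (δ / 8)) * (N : ℝ) ^ (δ / 8 + ((4 : ℝ) / 5 - δ)) := by
              refine mul_le_mul (mul_le_mul_of_nonneg_left hqφ (by norm_num)) (hmono (by linarith)) (by positivity) (by positivity)
          _ = 10 * C2 * ((N : ℝ) ^ (δ / 8) * (N : ℝ) ^ (δ / 8 + ((4 : ℝ) / 5 - δ))) := by ring
          _ ≤ 10 * C2 * (N : ℝ) ^ ((4 : ℝ) / 5 - δ / 2 - δ / 8) := by
              rw [← Real.rpow_add hNp]
              exact mul_le_mul_of_nonneg_left (hmono (by linarith)) (by positivity)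
      -- the tail
      have hA2 : Real.sqrt Pp / Real.sqrt W * ((32 * Pp) * (4 * (2 * Real.pi * W)) *
          Real.exp (-(1 / (2 * Real.pi * W) / 2 * T))) ≤ 1000 := by
        have hpi := Real.pi_pos
        have hpi2 := Real.pi_lt_d2
        have h2 : Real.exp (-(1 / (2 * Real.pi * W) / 2 * T)) ≤ Real.exp (-((N : ℝ) ^ e / (4 * Real.pi))) := by
          apply Real.exp_le_exp.2
          apply neg_le_neg
          have h3 : 1 / (2 * Real.pi * W) / 2 * T = T / (4 * Real.pi * W) := by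
            field_simp
            norm_num
          rw [h3, div_le_div_iff₀ (by positivity) (by positivity)]
          nlinarith
        have h4 : Real.sqrt Pp / Real.sqrt W ≤ N := by
          rw [div_le_iff₀ hsW]
          have h5 : Real.sqrt Pp ≤ N := by
            rw [Real.sqrt_le_left (by linarith)]
            nlinarith
          have h6 : 1 ≤ Real.sqrt W := by rw [Real.one_le_sqrt]; exact hW1
          nlinarith
        have h5 : (32 * Pp) * (4 * (2 * Real.pi * W)) ≤ 1000 * (N : ℝ) ^ 2 := by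
          have h6 : Pp * W ≤ N * N := mul_le_mul hPN hWN hWp.le hNp.le
          have h7 : (32 * Pp) * (4 * (2 * Real.pi * W)) = 256 * Real.pi * (Pp * W) := by ring
          rw [h7]
          have h8 : 0 ≤ Pp * W := by positivity
          nlinarith
        calc Real.sqrt Pp / Real.sqrt W * ((32 * Pp) * (4 * (2 * Real.pi * W)) * Real.exp (-(1 / (2 * Real.pi * W) / 2 * T)))
            ≤ N * ((1000 * (N : ℝ) ^ 2) * Real.exp (-((N : ℝ) ^ e / (4 * Real.pi)))) := by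
              refine mul_le_mul h4 ?_ (by positivity) hNp.le
              exact mul_le_mul h5 h2 (Real.exp_pos _).le (by positivity)
          _ = 1000 * ((N : ℝ) ^ 3 * Real.exp (-((N : ℝ) ^ e / (4 * Real.pi)))) := by ring
          _ ≤ 1000 * 1 := mul_le_mul_of_nonneg_left hE4 (by norm_num)
          _ = 1000 := by norm_num
      -- the logarithm
      have hlog : Real.log (32 * Pp) ≤ (N : ℝ) ^ (δ / 8) := by
        have h2 : Real.log (32 * Pp) ≤ Real.log (32 * N) := Real.log_le_log (by positivity) (by linarith)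
        have h3 : Real.log (32 * N) = Real.log 32 + Real.log N := Real.log_mul (by norm_num) hNp.ne'
        have h4 : Real.log 32 ≤ 4 := by
          have h5 : (32 : ℝ) = 2 ^ 5 := by norm_num
          rw [h5, Real.log_pow]
          have := Real.log_two_lt_d9
          push_cast
          linarith
        have h5 := Real.log_le_rpow_div hNp.le (show 0 < δ / 16 by positivity)
        have h6 : (N : ℝ) ^ (δ / 16) / (δ / 16) = (16 / δ) * (N : ℝ) ^ (δ / 16) := by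
          field_simp
        rw [h6] at h5
        have h7 : (N : ℝ) ^ (δ / 8) = (N : ℝ) ^ (δ / 16) * (N : ℝ) ^ (δ / 16) := by
          rw [← Real.rpow_add hNp]
          congr 1
          ring
        have h8 : (1 : ℝ) ≤ (N : ℝ) ^ (δ / 16) := Real.one_le_rpow hNr (by positivity)
        rw [h7]
        calc Real.log (32 * Pp) ≤ 4 + (16 / δ) * (N : ℝ) ^ (δ / 16) := by linarith
          _ ≤ (4 + 16 / δ) * (N : ℝ) ^ (δ / 16) := by nlinarith
          _ ≤ _ := mul_le_mul_of_nonneg_right hE3 (by positivity)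
      have hlog0 : 0 ≤ Real.log (32 * Pp) := Real.log_nonneg (by linarith)
      have hsum : Real.sqrt Pp / Real.sqrt W * (Real.sqrt q / (q.totient : ℝ) * (1 / Real.sqrt Pp) *
          (5 * (Real.sqrt (q * T) * (N : ℝ) ^ ((4 : ℝ) / 5 - δ))) + (32 * Pp) * (4 * (2 * Real.pi * W)) *
          Real.exp (-(1 / (2 * Real.pi * W) / 2 * T))) ≤ (10 * C2 + 1000) * (N : ℝ) ^ ((4 : ℝ) / 5 - δ / 2 - δ / 8) := by
        have h2 : (1 : ℝ) ≤ (N : ℝ) ^ ((4 : ℝ) / 5 - δ / 2 - δ / 8) := Real.one_le_rpow hNr (by linarith)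
        rw [mul_add]
        nlinarith
      have hfin : C1 * Real.log (32 * Pp) * ((10 * C2 + 1000) * (N : ℝ) ^ ((4 : ℝ) / 5 - δ / 2 - δ / 8)) ≤
          C1 * (10 * C2 + 1000) * (N : ℝ) ^ ((4 : ℝ) / 5 - δ / 4) := by
        calc C1 * Real.log (32 * Pp) * ((10 * C2 + 1000) * (N : ℝ) ^ ((4 : ℝ) / 5 - δ / 2 - δ / 8))
            ≤ C1 * (N : ℝ) ^ (δ / 8) * ((10 * C2 + 1000) * (N : ℝ) ^ ((4 : ℝ) / 5 - δ / 2 - δ / 8)) :=
              mul_le_mul_of_nonneg_right (mul_le_mul_of_nonneg_left hlog hC1.le) (by positivity)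
          _ = C1 * (10 * C2 + 1000) * ((N : ℝ) ^ (δ / 8) * (N : ℝ) ^ ((4 : ℝ) / 5 - δ / 2 - δ / 8)) := by ring
          _ ≤ C1 * (10 * C2 + 1000) * (N : ℝ) ^ ((4 : ℝ) / 5 - δ / 4) := by
              rw [← Real.rpow_add hNp]
              exact mul_le_mul_of_nonneg_left (hmono (by linarith)) (by positivity)
      calc _ ≤ C1 * Real.log (32 * Pp) * ((10 * C2 + 1000) * (N : ℝ) ^ ((4 : ℝ) / 5 - δ / 2 - δ / 8)) :=
            mul_le_mul_of_nonneg_left hsum (by positivity)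
        _ ≤ C1 * (10 * C2 + 1000) * (N : ℝ) ^ ((4 : ℝ) / 5 - δ / 4) := hfin
        _ ≤ _ := by
            have : 0 ≤ 32 * (N0 : ℝ) * (N : ℝ) ^ ((4 : ℝ) / 5 - δ / 4) := by positivity
            linarith
  refine hmain.trans ?_
  have h1 : (1 : ℝ) ≤ (N : ℝ) ^ ε := Real.one_le_rpow hNr hε.le
  have h2 : 0 ≤ Pp / Real.sqrt (q * W) := by positivity
  have h3 : 0 ≤ (C1 * (10 * C2 + 1000) + 32 * (N0 : ℝ)) := by positivity
  calc (C1 * (10 * C2 + 1000) + 32 * (N0 : ℝ)) * (N : ℝ) ^ ((4 : ℝ) / 5 - δ / 4)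
      ≤ ((C1 * (10 * C2 + 1000) + 32 * (N0 : ℝ)) * (N : ℝ) ^ ε) * (Pp / Real.sqrt (q * W) + (N : ℝ) ^ ((4 : ℝ) / 5 - δ / 4)) := by
        refine mul_le_mul ?_ (by linarith) (by positivity) (by positivity)
        nlinarith
    _ = _ := by ring

end Pool.Helper19.V5
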