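import Pool.Agent.Helper19.V5.Defs
import Pool.Agent.Helper19.V4.FiveBox

/-!
# V5-8: five variables and a short rest, real `x`

As `V4/FiveBox.lean`, but the bound `B r` may depend on the short factor `r`: `∏ i, f i = H * F`, `H = ∏_{Tᶜ} f i` (supported in `[R, 2^4 R]`, `R = ∏_{Tᶜ} K`, at most four factors, `|H r| ≤ d(r)^4 ≤ C N^ε`), `F = ∏_T f i`
(supported in `n ≤ 32 P`, `P = ∏_T K`): `SX (H * F) M x = ∑_{R ≤ r ≤ 16 R} H(r) ∑_{n ≤ M/r} F(n) e(n (r x))`; `sep_bound` with `X = max 2 (32 P)` removes `n ≤ M/r` and puts `tw ξ` on `F`, `tw ξ F = ∏ tw ξ (f i)` (`tw_pc`, `tw_prod`).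
`∏_{i ∈ T} g i = ∏_{j : Fin 5} g (T.orderEmbOfFin hT j)`. If `∏ K > M` the sum is `0`, so `P ≤ N`.
-/

namespace Pool.Helper19.V5

open ArithmeticFunction Finset Pool.Helper19.V4

private theorem expand61 (H F : ArithmeticFunction ℂ) (M : ℕ) (x : ℝ) :
    SX (H * F) M x = ∑ r ∈ Icc 1 M, H r * ∑ m ∈ Icc 1 (M / r), F m * ex ((m : ℝ) * ((r : ℝ) * x)) := by
  unfold SX
  simp only [ArithmeticFunction.mul_apply, Finset.sum_mul, Finset.mul_sum]
  rw [Finset.sum_sigma', Finset.sum_sigma']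
  refine Finset.sum_nbij' (fun p => ⟨p.2.1, p.2.2⟩) (fun p => ⟨p.1 * p.2, (p.1, p.2)⟩) ?_ ?_ ?_ ?_ ?_
  · rintro ⟨n, r, m⟩ hp
    simp only [mem_sigma, mem_Icc, Nat.mem_divisorsAntidiagonal] at hp ⊢
    obtain ⟨⟨h1, h2⟩, h3, h4⟩ := hp
    have hr : 0 < r := Nat.pos_of_ne_zero fun h => h4 (by rw [← h3, h, zero_mul])
    have hm : 0 < m := Nat.pos_of_ne_zero fun h => h4 (by rw [← h3, h, mul_zero])
    refine ⟨⟨hr, ?_⟩, hm, ?_⟩
    · exact (Nat.le_mul_of_pos_right r hm).trans (h3.le.trans h2)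
    · rw [Nat.le_div_iff_mul_le hr, mul_comm]
      exact h3.le.trans h2
  · rintro ⟨r, m⟩ hp
    simp only [mem_sigma, mem_Icc, Nat.mem_divisorsAntidiagonal] at hp ⊢
    obtain ⟨⟨h1, h2⟩, h3, h4⟩ := hp
    have h5 : 0 < r * m := Nat.mul_pos h1 h3
    refine ⟨⟨h5, ?_⟩, trivial, h5.ne'⟩
    rw [Nat.le_div_iff_mul_le h1, mul_comm] at h4
    exact h4
  · rintro ⟨n, r, m⟩ hp
    simp only [mem_sigma, mem_Icc, Nat.mem_divisorsAntidiagonal] at hp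
    obtain ⟨⟨h1, h2⟩, h3, h4⟩ := hp
    subst h3
    rfl
  · rintro ⟨r, m⟩ _
    rfl
  · rintro ⟨n, r, m⟩ hp
    simp only [mem_sigma, mem_Icc, Nat.mem_divisorsAntidiagonal] at hp
    obtain ⟨⟨h1, h2⟩, h3, h4⟩ := hp
    subst h3
    have h5 : ((r * m : ℕ) : ℝ) * x = (m : ℝ) * ((r : ℝ) * x) := by push_cast; ring
    show H r * F m * ex (((r * m : ℕ) : ℝ) * x) = H r * (F m * ex ((m : ℝ) * ((r : ℝ) * x)))
    rw [h5, mul_assoc]

theorem five_box_x {ε : ℝ} (hε : 0 < ε) : ∃ C : ℝ, 0 < C ∧ ∀ N : ℕ, 2 ≤ N → ∀ x : ℝ,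
    ∀ k ≤ 9, ∀ (f : Fin k → ArithmeticFunction ℂ) (K : Fin k → ℕ), (∀ i, Pc (K i) (f i)) →
    ∀ (T : Finset (Fin k)) (hT : T.card = 5) (B : ℕ → ℝ), (∀ r, 0 ≤ B r) →
    (∀ r : ℕ, 1 ≤ r → ∏ i ∈ Tᶜ, K i ≤ r → r ≤ 16 * ∏ i ∈ Tᶜ, K i →
      ∀ g : Fin 5 → ArithmeticFunction ℂ, (∀ j, Pc (K (T.orderEmbOfFin hT j)) (g j)) →
      ∀ X : ℕ, 32 * ∏ i ∈ T, K i ≤ X → ‖SX (∏ j, g j) X ((r : ℝ) * x)‖ ≤ B r) →
    ∀ M ≤ N, ‖SX (∏ i, f i) M x‖ ≤ C * (N : ℝ) ^ ε * ∑ r ∈ Icc (∏ i ∈ Tᶜ, K i) (16 * ∏ i ∈ Tᶜ, K i), B r := by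
  obtain ⟨C0, hC0, hsep⟩ := sep_bound
  obtain ⟨C₁, hC₁, hdiv⟩ := Pool.Agent.Helper69.FF.div_bound (ε := ε / 8) (by positivity)
  obtain ⟨C₂, hC₂⟩ : ∃ C₂ : ℝ, C₂ = max 1 C₁ := ⟨_, rfl⟩
  have hC₂1 : 1 ≤ C₂ := by rw [hC₂]; exact le_max_left _ _
  have hC₂2 : C₁ ≤ C₂ := by rw [hC₂]; exact le_max_right _ _
  refine ⟨C₂ ^ 4 * (C0 * ((32 : ℝ) ^ (ε / 2) / (ε / 2))), by positivity, ?_⟩
  intro N hN x k hk f K hK T hT B hB hyp M hM
  have hNR : (2 : ℝ) ≤ N := by exact_mod_cast hN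
  have hN0 : (0 : ℝ) < N := by linarith
  have hK1 : ∀ i, 1 ≤ K i := fun i => (hK i).pos
  set R : ℕ := ∏ i ∈ Tᶜ, K i with hR
  have hSB : 0 ≤ ∑ r ∈ Icc R (16 * R), B r := Finset.sum_nonneg fun r _ => hB r
  rcases lt_or_ge M (∏ i, K i) with hlt | hge
  · have h0 : SX (∏ i, f i) M x = 0 := by
      unfold SX
      refine sum_eq_zero fun n hn => ?_
      rw [mem_Icc] at hn
      by_cases h0 : (∏ i, f i) n = 0
      · rw [h0, zero_mul]
      · have := (prod_supp Finset.univ (fun i _ => hK i) h0).1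
        omega
    rw [h0, norm_zero]
    positivity
  have hprod : R * ∏ i ∈ T, K i = ∏ i, K i := Finset.prod_compl_mul_prod T K
  have hPN : ∏ i ∈ T, K i ≤ N := by
    have h1 : 1 ≤ R := Finset.one_le_prod' fun i _ => hK1 i
    calc ∏ i ∈ T, K i ≤ R * ∏ i ∈ T, K i := Nat.le_mul_of_pos_left _ h1
      _ = ∏ i, K i := hprod
      _ ≤ N := hge.trans hM
  set P : ℕ := ∏ i ∈ T, K i with hP
  have hP1 : 1 ≤ P := Finset.one_le_prod' fun i _ => hK1 i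
  set X : ℕ := 32 * P with hX
  have hX2 : 2 ≤ X := by omega
  set H : ArithmeticFunction ℂ := ∏ i ∈ Tᶜ, f i with hH
  set F : ArithmeticFunction ℂ := ∏ i ∈ T, f i with hF
  have hHF : ∏ i, f i = H * F := (Finset.prod_compl_mul_prod T f).symm
  have hcard : (Tᶜ : Finset (Fin k)).card ≤ 4 := by
    rw [Finset.card_compl, Fintype.card_fin, hT]
    omega
  have hFX : ∀ n, F n ≠ 0 → n ≤ X := by
    intro n hn
    have h1 := (prod_supp T (fun i _ => hK i) hn).2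
    rw [hT] at h1
    omega
  have hHsupp : ∀ r, H r ≠ 0 → r ∈ Icc R (16 * R) := by
    intro r hHr
    obtain ⟨h1, h2⟩ := prod_supp Tᶜ (fun i _ => hK i) hHr
    rw [mem_Icc]
    refine ⟨h1, h2.trans (Nat.mul_le_mul_right _ ?_)⟩
    calc 2 ^ (Tᶜ : Finset (Fin k)).card ≤ 2 ^ 4 := Nat.pow_le_pow_right (by norm_num) hcard
      _ = 16 := by norm_num
  -- the inner sums
  have hinner : ∀ r ∈ Icc 1 M, H r ≠ 0 →
      ‖∑ m ∈ Icc 1 (M / r), F m * ex ((m : ℝ) * ((r : ℝ) * x))‖ ≤ C0 * Real.log X * B r := by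
    intro r hr hHr
    rw [mem_Icc] at hr
    have hr16 := hHsupp r hHr
    rw [mem_Icc] at hr16
    set c : ℕ → ℂ := fun m => F m * ex ((m : ℝ) * ((r : ℝ) * x)) with hc
    have hsum : ∑ m ∈ Icc 1 (M / r), F m * ex ((m : ℝ) * ((r : ℝ) * x)) = ∑ m ∈ Icc 1 (min (M / r) X), c m := by
      symm
      have h1 : Icc 1 (min (M / r) X) ⊆ Icc 1 (M / r) := by
        intro m hm
        rw [mem_Icc] at hm ⊢
        exact ⟨hm.1, hm.2.trans (min_le_left _ _)⟩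
      rw [Finset.sum_subset h1]
      · intro m hm hnm
        rw [mem_Icc] at hm hnm
        have h2 : F m = 0 := by
          by_contra h
          have h3 := hFX m h
          exact hnm ⟨hm.1, le_min hm.2 h3⟩
        rw [hc]
        simp only
        rw [h2, zero_mul]
    rw [hsum]
    refine hsep X hX2 (M / r) c (B r) fun ξ => ?_
    have h1 : ∑ n ∈ Icc 1 X, c n * Complex.exp (((ξ * Real.log n : ℝ) : ℂ) * Complex.I) =
        SX (tw ξ F) X ((r : ℝ) * x) := by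
      unfold SX
      refine Finset.sum_congr rfl fun n _ => ?_
      show F n * ex ((n : ℝ) * ((r : ℝ) * x)) * Complex.exp (((ξ * Real.log n : ℝ) : ℂ) * Complex.I) =
        F n * Complex.exp (((ξ * Real.log n : ℝ) : ℂ) * Complex.I) * ex ((n : ℝ) * ((r : ℝ) * x))
      ring
    have h2 : tw ξ F = ∏ j : Fin 5, tw ξ (f (T.orderEmbOfFin hT j)) := by
      rw [hF, tw_prod]
      symm
      have h3 : (Finset.univ : Finset (Fin 5)).map (T.orderEmbOfFin hT).toEmbedding = T := by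
        rw [Finset.map_orderEmbOfFin_univ]
      conv_rhs => rw [← h3]
      rw [Finset.prod_map]
      rfl
    rw [h1, h2]
    exact hyp r hr.1 hr16.1 hr16.2 _ (fun j => tw_pc (hK _) ξ) X le_rfl
  have hlogX : Real.log X ≤ (32 : ℝ) ^ (ε / 2) / (ε / 2) * (N : ℝ) ^ (ε / 2) := by
    have h1 : (X : ℝ) ≤ 32 * N := by
      have : X ≤ 32 * N := Nat.mul_le_mul_left _ hPN
      exact_mod_cast this
    have h2 : (0 : ℝ) < X := by
      have : 0 < X := by omega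
      exact_mod_cast this
    calc Real.log X ≤ Real.log (32 * N) := Real.log_le_log h2 h1
      _ ≤ (32 * (N : ℝ)) ^ (ε / 2) / (ε / 2) := Real.log_le_rpow_div (by positivity) (by positivity)
      _ = (32 : ℝ) ^ (ε / 2) / (ε / 2) * (N : ℝ) ^ (ε / 2) := by
        rw [Real.mul_rpow (by norm_num) (by positivity)]
        ring
  have hlog0 : 0 ≤ Real.log X := Real.log_natCast_nonneg _
  -- the outer factor
  have hHb : ∀ r ∈ Icc 1 M, ‖H r‖ ≤ C₂ ^ 4 * (N : ℝ) ^ (ε / 2) := by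
    intro r hr
    rw [mem_Icc] at hr
    have hr0 : r ≠ 0 := by omega
    have h1 := prod_le Tᶜ (fun i _ n => (hK i).le n) (n := r) hr0
    have h2 : (r.divisors.card : ℝ) ≤ C₂ * (N : ℝ) ^ (ε / 8) := by
      refine (hdiv r hr0).trans (mul_le_mul hC₂2 ?_ (by positivity) (by linarith))
      refine Real.rpow_le_rpow (by positivity) ?_ (by positivity)
      exact_mod_cast hr.2.trans hM
    have h3 : (1 : ℝ) ≤ C₂ * (N : ℝ) ^ (ε / 8) := by
      have : (1 : ℝ) ≤ (N : ℝ) ^ (ε / 8) := Real.one_le_rpow (by linarith) (by positivity)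
      nlinarith
    calc ‖H r‖ ≤ (r.divisors.card : ℝ) ^ (Tᶜ : Finset (Fin k)).card := h1
      _ ≤ (C₂ * (N : ℝ) ^ (ε / 8)) ^ (Tᶜ : Finset (Fin k)).card := pow_le_pow_left₀ (by positivity) h2 _
      _ ≤ (C₂ * (N : ℝ) ^ (ε / 8)) ^ 4 := pow_le_pow_right₀ h3 hcard
      _ = C₂ ^ 4 * (N : ℝ) ^ (ε / 2) := by
        rw [mul_pow, ← Real.rpow_natCast ((N : ℝ) ^ (ε / 8)) 4, ← Real.rpow_mul hN0.le]
        congr 2
        push_cast
        ring
  have hterm : ∀ r ∈ Icc 1 M, ‖H r * ∑ m ∈ Icc 1 (M / r), F m * ex ((m : ℝ) * ((r : ℝ) * x))‖ ≤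
      if r ∈ Icc R (16 * R) then C₂ ^ 4 * (N : ℝ) ^ (ε / 2) * (C0 * Real.log X * B r) else 0 := by
    intro r hr
    rw [norm_mul]
    by_cases h0 : H r = 0
    · rw [h0, norm_zero, zero_mul]
      split_ifs
      · have := hB r
        positivity
      · exact le_rfl
    · rw [if_pos (hHsupp r h0)]
      exact mul_le_mul (hHb r hr) (hinner r hr h0) (norm_nonneg _) (by positivity)
  rw [hHF, expand61]
  calc ‖∑ r ∈ Icc 1 M, H r * ∑ m ∈ Icc 1 (M / r), F m * ex ((m : ℝ) * ((r : ℝ) * x))‖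
      ≤ ∑ r ∈ Icc 1 M, if r ∈ Icc R (16 * R) then C₂ ^ 4 * (N : ℝ) ^ (ε / 2) * (C0 * Real.log X * B r) else 0 :=
        (norm_sum_le _ _).trans (Finset.sum_le_sum hterm)
    _ = ∑ r ∈ (Icc 1 M).filter (fun r => r ∈ Icc R (16 * R)), C₂ ^ 4 * (N : ℝ) ^ (ε / 2) * (C0 * Real.log X * B r) := by
        rw [Finset.sum_filter]
    _ ≤ ∑ r ∈ Icc R (16 * R), C₂ ^ 4 * (N : ℝ) ^ (ε / 2) * (C0 * Real.log X * B r) := by
        refine Finset.sum_le_sum_of_subset_of_nonneg (fun r hr => (mem_filter.1 hr).2) fun r _ _ => ?_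
        have := hB r
        positivity
    _ = C₂ ^ 4 * (N : ℝ) ^ (ε / 2) * (C0 * Real.log X) * ∑ r ∈ Icc R (16 * R), B r := by
        rw [Finset.mul_sum]
        refine Finset.sum_congr rfl fun r _ => ?_
        ring
    _ ≤ C₂ ^ 4 * (N : ℝ) ^ (ε / 2) * (C0 * ((32 : ℝ) ^ (ε / 2) / (ε / 2) * (N : ℝ) ^ (ε / 2))) *
          ∑ r ∈ Icc R (16 * R), B r := by
        refine mul_le_mul_of_nonneg_right (mul_le_mul_of_nonneg_left (mul_le_mul_of_nonneg_left hlogX hC0.le) ?_) hSB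
        positivity
    _ = C₂ ^ 4 * (C0 * ((32 : ℝ) ^ (ε / 2) / (ε / 2))) * (N : ℝ) ^ ε * ∑ r ∈ Icc R (16 * R), B r := by
        have h1 : (N : ℝ) ^ ε = (N : ℝ) ^ (ε / 2) * (N : ℝ) ^ (ε / 2) := by
          rw [← Real.rpow_add hN0]
          congr 1
          ring
        rw [h1]
        ring

end Pool.Helper19.V5

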