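import Pool.Agent.Helper19.V5.Five
import Pool.Agent.Helper25.HM.M5F

/-!
# V5-16: five variables for small `Q`, and `FIVE 0`

For `Q ≤ N^(2/5 + 1/300)` the fifth moment is `≤ C N^ε K⁵` (helper25); with the weights `λ i = (∏ L)^(1/5) / L i` the arithmetic-geometric mean loses nothing and the sum is `≤ C N^ε (∏ L)/√Q`.
-/

namespace Pool.Helper19.V5

open ArithmeticFunction Finset Pool.Helper19.V4
open Pool.Agent.Helper25.HM (P nt nt_mul nt_add norm_nt mellin_sep w cr)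

theorem five_small : ∀ ε : ℝ, 0 < ε → ∃ C : ℝ, 0 < C ∧ ∀ N : ℕ, 1 ≤ N →
    ∀ (q : ℕ) (a : ℤ), 1 ≤ q → IsCoprime a (q : ℤ) → ∀ (x : ℝ) (L : Fin 5 → ℝ) (F : Fin 5 → ArithmeticFunction ℂ),
    (∀ i, (N : ℝ) ^ ((1 : ℝ) / 5 - 1 / 2000) ≤ L i) → (∀ i, L i ≤ (N : ℝ) ^ ((1 : ℝ) / 5 + 1 / 2000)) → ∏ i, L i ≤ N →
    (∀ i n, F i n ≠ 0 → L i ≤ n ∧ (n : ℝ) < 2 * L i ∧ Nat.Coprime n q) → (∀ i n, ‖F i n‖ ≤ 1) →
    QQ (∏ i, L i) x a q ≤ (N : ℝ) ^ ((2 : ℝ) / 5 + 1 / 300) →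
    ∀ X : ℕ, 32 * ∏ i, L i ≤ X →
      ‖SX (∏ i, F i) X x‖ ≤ C * (N : ℝ) ^ ε * ((∏ i, L i) / Real.sqrt (QQ (∏ i, L i) x a q)) := by
  classical
  intro ε hε
  obtain ⟨C3, hC3, hm⟩ := Pool.Agent.Helper25.HM.m5s' (ε := ε / 4) (by positivity)
  obtain ⟨C1, hC1, hpre⟩ := five_pre_gen
  obtain ⟨C2, hC2, hdiv⟩ := Pool.Agent.Helper69.FF.div_bound (ε := ε / 4) (by positivity)
  have hev := ((ev19 (show (0 : ℝ) < 1 / 1200 by norm_num) 2).and (ev19 (show (0 : ℝ) < 1 / 2000 by norm_num) 2)).and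
    (ev_exp19 (show (0 : ℝ) < 1 / 1200 by norm_num))
  obtain ⟨N0, hN0⟩ := Filter.eventually_atTop.1 hev
  refine ⟨C1 * (4 + 4 / ε) * (160 * C3 * C2 + 1000) + 32 * N0, by positivity, ?_⟩
  intro N hN q a hq ha x L F hL0 hL1 hPN hsupp hF hQ1 X hX
  have hNr : (1 : ℝ) ≤ N := by exact_mod_cast hN
  have hNp : (0 : ℝ) < N := by linarith
  have hmono : ∀ {x y : ℝ}, x ≤ y → (N : ℝ) ^ x ≤ (N : ℝ) ^ y := fun hxy => Real.rpow_le_rpow_of_exponent_le hNr hxy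
  have hL : ∀ i, 1 ≤ L i := fun i => (Real.one_le_rpow hNr (by norm_num)).trans (hL0 i)
  have hLp : ∀ i, 0 < L i := fun i => lt_of_lt_of_le one_pos (hL i)
  have hqp : (0 : ℝ) < q := by exact_mod_cast hq
  have hq1 : (1 : ℝ) ≤ q := by exact_mod_cast hq
  have : NeZero q := ⟨by omega⟩
  obtain ⟨Pp, hPp⟩ : ∃ Pp : ℝ, Pp = ∏ i, L i := ⟨_, rfl⟩
  have hP1 : 1 ≤ Pp := by
    rw [hPp]
    exact Finset.prod_induction (s := (Finset.univ : Finset (Fin 5))) (fun i => L i) (fun y => 1 ≤ y)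
      (fun _ _ ha hb => one_le_mul_of_one_le_of_one_le ha hb) le_rfl (fun i _ => hL i)
  have hPp0 : 0 < Pp := by linarith
  -- the product is large
  have hPlow : (N : ℝ) ^ ((399 : ℝ) / 400) ≤ Pp := by
    have h1 : ∏ _i : Fin 5, (N : ℝ) ^ ((1 : ℝ) / 5 - 1 / 2000) ≤ Pp := by
      rw [hPp]
      exact Finset.prod_le_prod (fun _ _ => by positivity) fun i _ => hL0 i
    rw [Finset.prod_const, Finset.card_univ, Fintype.card_fin, ← Real.rpow_natCast, ← Real.rpow_mul hNp.le] at h1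
    refine le_trans (hmono ?_) h1
    norm_num
  rw [← hPp] at hPN hQ1 hX ⊢
  obtain ⟨W, hW⟩ : ∃ W : ℝ, W = 1 + Pp * |x - a / q| := ⟨_, rfl⟩
  have hW1 : 1 ≤ W := by
    rw [hW]
    have : 0 ≤ Pp * |x - a / q| := by positivity
    linarith
  have hWp : 0 < W := by linarith
  have hQQ : QQ Pp x a q = q * W := by
    unfold QQ
    rw [hW]
  rw [hQQ] at hQ1 ⊢
  have hqW : 0 < (q : ℝ) * W := by positivity
  have hQN : (q : ℝ) * W ≤ N := by
    refine hQ1.trans ?_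
    calc (N : ℝ) ^ ((2 : ℝ) / 5 + 1 / 300) ≤ (N : ℝ) ^ (1 : ℝ) := hmono (by norm_num)
      _ = N := Real.rpow_one _
  have hratio : 1 ≤ Pp / Real.sqrt (q * W) := by
    rw [one_le_div (Real.sqrt_pos.2 hqW)]
    refine le_trans ?_ hPlow
    rw [Real.sqrt_le_left (by positivity), ← Real.rpow_natCast, ← Real.rpow_mul hNp.le]
    refine hQN.trans ?_
    calc (N : ℝ) = (N : ℝ) ^ (1 : ℝ) := (Real.rpow_one _).symm
      _ ≤ _ := hmono (by norm_num)
  obtain ⟨R, hR⟩ : ∃ R : ℝ, R = Pp / Real.sqrt (q * W) := ⟨_, rfl⟩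
  rw [← hR] at hratio ⊢
  have hNε : (1 : ℝ) ≤ (N : ℝ) ^ ε := Real.one_le_rpow hNr hε.le
  rcases lt_or_ge N N0 with hlt | hge
  · have h1 := mass19 F L hL hsupp hF X x
    rw [← hPp] at h1
    have h2 : (N : ℝ) ≤ N0 := by exact_mod_cast hlt.le
    have h4 : 0 ≤ C1 * (4 + 4 / ε) * (160 * C3 * C2 + 1000) := by positivity
    have h5 : (0 : ℝ) ≤ N0 := by positivity
    have h6 : 1 ≤ (N : ℝ) ^ ε * R := one_le_mul_of_one_le_of_one_le hNε hratio
    calc ‖SX (∏ i, F i) X x‖ ≤ 32 * N0 := by linarith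
      _ ≤ (C1 * (4 + 4 / ε) * (160 * C3 * C2 + 1000) + 32 * N0) * 1 := by linarith
      _ ≤ (C1 * (4 + 4 / ε) * (160 * C3 * C2 + 1000) + 32 * N0) * ((N : ℝ) ^ ε * R) :=
          mul_le_mul_of_nonneg_left h6 (by positivity)
      _ = _ := by ring
  · obtain ⟨⟨hE1, hE2⟩, hE4⟩ := hN0 N hge
    obtain ⟨T, hT⟩ : ∃ T : ℕ, T = ⌈W * (N : ℝ) ^ ((1 : ℝ) / 1200)⌉₊ := ⟨_, rfl⟩
    have hNe : (1 : ℝ) ≤ (N : ℝ) ^ ((1 : ℝ) / 1200) := Real.one_le_rpow hNr (by norm_num)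
    have hWe : 1 ≤ W * (N : ℝ) ^ ((1 : ℝ) / 1200) := one_le_mul_of_one_le_of_one_le hW1 hNe
    have hT0 : W * (N : ℝ) ^ ((1 : ℝ) / 1200) ≤ T := by rw [hT]; exact Nat.le_ceil _
    have hT1 : (T : ℝ) ≤ 2 * (W * (N : ℝ) ^ ((1 : ℝ) / 1200)) := by
      rw [hT]
      have := (Nat.ceil_lt_add_one (show 0 ≤ W * (N : ℝ) ^ ((1 : ℝ) / 1200) by positivity)).le
      linarith
    have hT2 : 1 ≤ T := by
      have : (1 : ℝ) ≤ T := hWe.trans hT0
      exact_mod_cast this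
    have hqT1 : (q : ℝ) * T ≤ (N : ℝ) ^ ((2 : ℝ) / 5 + 1 / 200) := by
      calc (q : ℝ) * T ≤ q * (2 * (W * (N : ℝ) ^ ((1 : ℝ) / 1200))) := mul_le_mul_of_nonneg_left hT1 hqp.le
        _ = 2 * ((q * W) * (N : ℝ) ^ ((1 : ℝ) / 1200)) := by ring
        _ ≤ (N : ℝ) ^ ((1 : ℝ) / 1200) * ((N : ℝ) ^ ((2 : ℝ) / 5 + 1 / 300) * (N : ℝ) ^ ((1 : ℝ) / 1200)) :=
            mul_le_mul hE1 (mul_le_mul_of_nonneg_right hQ1 (by positivity)) (by positivity) (by positivity)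
        _ = (N : ℝ) ^ ((2 : ℝ) / 5 + 1 / 200) := by
            rw [← Real.rpow_add hNp, ← Real.rpow_add hNp]
            congr 1
            norm_num
    -- the fifth moments
    have hM : ∀ (i : Fin 5) (c : ℕ → ℂ), (∀ n, ‖c n‖ ≤ 1) →
        ∑ p ∈ (univ : Finset (DirichletCharacter ℂ q)) ×ˢ Icc (-(T : ℤ)) T, ‖P ⌊2 * L i⌋₊ c p‖ ^ 5 ≤
          C3 * (N : ℝ) ^ (ε / 4) * (32 * L i ^ 5) := by
      intro i c hc
      have h1 : (⌊2 * L i⌋₊ : ℝ) ≤ 2 * L i := Nat.floor_le (by linarith [hL i])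
      have h2 : L i ≤ (⌊2 * L i⌋₊ : ℝ) := by
        have := (Nat.lt_floor_add_one (2 * L i)).le
        linarith [hL i]
      refine (hm N hN q T hT2 hqT1 ⌊2 * L i⌋₊ ?_ ?_ c hc).trans ?_
      · refine le_trans (hmono (by norm_num)) ((hL0 i).trans h2)
      · have h3 : 2 * L i ≤ (N : ℝ) ^ ((1 : ℝ) / 2000) * (N : ℝ) ^ ((1 : ℝ) / 5 + 1 / 2000) :=
          mul_le_mul hE2 (hL1 i) (by linarith [hL i]) (by positivity)
        rw [← Real.rpow_add hNp] at h3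
        exact h1.trans (h3.trans (hmono (by norm_num)))
      · refine mul_le_mul_of_nonneg_left ?_ (by positivity)
        calc (⌊2 * L i⌋₊ : ℝ) ^ 5 ≤ (2 * L i) ^ 5 := pow_le_pow_left₀ (by positivity) h1 5
          _ = 32 * L i ^ 5 := by ring
    -- the weights
    obtain ⟨g, hg⟩ : ∃ g : ℝ, g = Pp ^ ((1 : ℝ) / 5) := ⟨_, rfl⟩
    have hg5 : g ^ 5 = Pp := by
      rw [hg, ← Real.rpow_natCast, ← Real.rpow_mul hPp0.le]
      norm_num
    have hg0 : 0 < g := by rw [hg]; positivity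
    have h1 := hpre q a ha x F L hL hsupp hF T (fun i => g / L i) (fun i => div_pos hg0 (hLp i))
      (by rw [Finset.prod_div_distrib, Finset.prod_const, Finset.card_univ, Fintype.card_fin, hg5, ← hPp, div_self hPp0.ne'])
      (fun i => C3 * (N : ℝ) ^ (ε / 4) * (32 * L i ^ 5)) hM X (by rw [← hPp]; exact hX)
    have hsumM : ∑ i : Fin 5, (g / L i) ^ 5 * (C3 * (N : ℝ) ^ (ε / 4) * (32 * L i ^ 5)) = 160 * C3 * (N : ℝ) ^ (ε / 4) * Pp := by
      have h2 : ∀ i ∈ (univ : Finset (Fin 5)), (g / L i) ^ 5 * (C3 * (N : ℝ) ^ (ε / 4) * (32 * L i ^ 5)) =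
          32 * C3 * (N : ℝ) ^ (ε / 4) * Pp := by
        intro i _
        have := (hLp i).ne'
        rw [div_pow, hg5]
        field_simp
      rw [Finset.sum_congr rfl h2]
      simp
      ring
    rw [hsumM, ← hPp, ← hW] at h1
    refine h1.trans ?_
    have hφ : (0 : ℝ) < q.totient := by exact_mod_cast Nat.totient_pos.2 (by omega)
    have hqN : (q : ℝ) ≤ N := le_trans (by nlinarith) hQN
    have hWN : W ≤ N := le_trans (by nlinarith) hQN
    have hqφ : (q : ℝ) / q.totient ≤ C2 * (N : ℝ) ^ (ε / 4) := by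
      rw [div_le_iff₀ hφ]
      refine (tot19 (NeZero.ne q)).trans (mul_le_mul_of_nonneg_right ?_ hφ.le)
      refine (hdiv q (NeZero.ne q)).trans (mul_le_mul_of_nonneg_left ?_ hC2.le)
      exact Real.rpow_le_rpow hqp.le hqN (by positivity)
    have hsP : 0 < Real.sqrt Pp := Real.sqrt_pos.2 hPp0
    have hsW : 0 < Real.sqrt W := Real.sqrt_pos.2 hWp
    have hsq : 0 < Real.sqrt q := Real.sqrt_pos.2 hqp
    have hR2 : R = Pp / (Real.sqrt q * Real.sqrt W) := by rw [hR, Real.sqrt_mul hqp.le]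
    have hA1 : Real.sqrt Pp / Real.sqrt W * (Real.sqrt q / (q.totient : ℝ) * (1 / Real.sqrt Pp) *
        (160 * C3 * (N : ℝ) ^ (ε / 4) * Pp)) ≤ 160 * C3 * C2 * ((N : ℝ) ^ (ε / 4) * (N : ℝ) ^ (ε / 4)) * R := by
      have h2 : Real.sqrt Pp / Real.sqrt W * (Real.sqrt q / (q.totient : ℝ) * (1 / Real.sqrt Pp) *
          (160 * C3 * (N : ℝ) ^ (ε / 4) * Pp)) =
          160 * C3 * (N : ℝ) ^ (ε / 4) * (Pp / (Real.sqrt q * Real.sqrt W)) * ((Real.sqrt q * Real.sqrt q) / q.totient) := by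
        field_simp
      rw [h2, Real.mul_self_sqrt hqp.le, ← hR2]
      calc 160 * C3 * (N : ℝ) ^ (ε / 4) * R * ((q : ℝ) / q.totient)
          ≤ 160 * C3 * (N : ℝ) ^ (ε / 4) * R * (C2 * (N : ℝ) ^ (ε / 4)) :=
            mul_le_mul_of_nonneg_left hqφ (by positivity)
        _ = _ := by ring
    have hA2 : Real.sqrt Pp / Real.sqrt W * ((32 * Pp) * (4 * (2 * Real.pi * W)) *
        Real.exp (-(1 / (2 * Real.pi * W) / 2 * T))) ≤ 1000 := by
      have hpi := Real.pi_pos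
      have hpi2 := Real.pi_lt_d2
      have h2 : Real.exp (-(1 / (2 * Real.pi * W) / 2 * T)) ≤ Real.exp (-((N : ℝ) ^ ((1 : ℝ) / 1200) / (4 * Real.pi))) := by
        apply Real.exp_le_exp.2
        apply neg_le_neg
        have h3 : 1 / (2 * Real.pi * W) / 2 * T = T / (4 * Real.pi * W) := by
          field_simp
          norm_num
        rw [h3, div_le_div_iff₀ (by positivity) (by positivity)]
        nlinarith
      have h4 : Real.sqrt Pp / Real.sqrt W ≤ N := by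
        rw [div_le_iff₀ hsW]
        have h5 : Real.sqrt Pp ≤ N := by
          rw [Real.sqrt_le_left (by linarith)]
          nlinarith
        have h6 : 1 ≤ Real.sqrt W := by rw [Real.one_le_sqrt]; exact hW1
        nlinarith
      have h5 : (32 * Pp) * (4 * (2 * Real.pi * W)) ≤ 1000 * (N : ℝ) ^ 2 := by
        have h6 : Pp * W ≤ N * N := mul_le_mul hPN hWN hWp.le hNp.le
        have h7 : (32 * Pp) * (4 * (2 * Real.pi * W)) = 256 * Real.pi * (Pp * W) := by ring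
        rw [h7]
        have h8 : 0 ≤ Pp * W := by positivity
        nlinarith
      calc Real.sqrt Pp / Real.sqrt W * ((32 * Pp) * (4 * (2 * Real.pi * W)) * Real.exp (-(1 / (2 * Real.pi * W) / 2 * T)))
          ≤ N * ((1000 * (N : ℝ) ^ 2) * Real.exp (-((N : ℝ) ^ ((1 : ℝ) / 1200) / (4 * Real.pi)))) := by
            refine mul_le_mul h4 ?_ (by positivity) hNp.le
            exact mul_le_mul h5 h2 (Real.exp_pos _).le (by positivity)
        _ = 1000 * ((N : ℝ) ^ 3 * Real.exp (-((N : ℝ) ^ ((1 : ℝ) / 1200) / (4 * Real.pi)))) := by ring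
        _ ≤ 1000 * 1 := mul_le_mul_of_nonneg_left hE4 (by norm_num)
        _ = 1000 := by norm_num
    -- the logarithm
    have hY1 : (1 : ℝ) ≤ (N : ℝ) ^ (ε / 4) := Real.one_le_rpow hNr (by positivity)
    have hlog : Real.log (32 * Pp) ≤ (4 + 4 / ε) * (N : ℝ) ^ (ε / 4) := by
      have h2 : Real.log (32 * Pp) ≤ Real.log (32 * N) := Real.log_le_log (by positivity) (by linarith)
      have h3 : Real.log (32 * N) = Real.log 32 + Real.log N := Real.log_mul (by norm_num) hNp.ne'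
      have h4 : Real.log 32 ≤ 4 := by
        have h5 : (32 : ℝ) = 2 ^ 5 := by norm_num
        rw [h5, Real.log_pow]
        have := Real.log_two_lt_d9
        push_cast
        linarith
      have h5 := Real.log_le_rpow_div hNp.le (show 0 < ε / 4 by positivity)
      have h6 : (N : ℝ) ^ (ε / 4) / (ε / 4) = (4 / ε) * (N : ℝ) ^ (ε / 4) := by
        field_simp
      rw [h6] at h5
      nlinarith
    have hlog0 : 0 ≤ Real.log (32 * Pp) := Real.log_nonneg (by linarith)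
    have hsum : Real.sqrt Pp / Real.sqrt W * (Real.sqrt q / (q.totient : ℝ) * (1 / Real.sqrt Pp) *
        (160 * C3 * (N : ℝ) ^ (ε / 4) * Pp) + (32 * Pp) * (4 * (2 * Real.pi * W)) *
        Real.exp (-(1 / (2 * Real.pi * W) / 2 * T))) ≤ (160 * C3 * C2 + 1000) * ((N : ℝ) ^ (ε / 4) * (N : ℝ) ^ (ε / 4)) * R := by
      rw [mul_add]
      have h2 : 1 ≤ ((N : ℝ) ^ (ε / 4) * (N : ℝ) ^ (ε / 4)) * R :=
        one_le_mul_of_one_le_of_one_le (one_le_mul_of_one_le_of_one_le hY1 hY1) hratio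
      nlinarith
    have h7 : (N : ℝ) ^ (ε / 4) * ((N : ℝ) ^ (ε / 4) * (N : ℝ) ^ (ε / 4)) ≤ (N : ℝ) ^ ε := by
      rw [← Real.rpow_add hNp, ← Real.rpow_add hNp]
      exact hmono (by linarith)
    calc _ ≤ C1 * Real.log (32 * Pp) * ((160 * C3 * C2 + 1000) * ((N : ℝ) ^ (ε / 4) * (N : ℝ) ^ (ε / 4)) * R) :=
          mul_le_mul_of_nonneg_left hsum (by positivity)
      _ ≤ C1 * ((4 + 4 / ε) * (N : ℝ) ^ (ε / 4)) * ((160 * C3 * C2 + 1000) * ((N : ℝ) ^ (ε / 4) * (N : ℝ) ^ (ε / 4)) * R) :=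
          mul_le_mul_of_nonneg_right (mul_le_mul_of_nonneg_left hlog hC1.le) (by positivity)
      _ = C1 * (4 + 4 / ε) * (160 * C3 * C2 + 1000) * R * ((N : ℝ) ^ (ε / 4) * ((N : ℝ) ^ (ε / 4) * (N : ℝ) ^ (ε / 4))) := by ring
      _ ≤ C1 * (4 + 4 / ε) * (160 * C3 * C2 + 1000) * R * (N : ℝ) ^ ε := mul_le_mul_of_nonneg_left h7 (by positivity)
      _ ≤ (C1 * (4 + 4 / ε) * (160 * C3 * C2 + 1000) + 32 * N0) * (N : ℝ) ^ ε * R := by
          have : 0 ≤ 32 * (N0 : ℝ) * (N : ℝ) ^ ε * R := by positivity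
          linarith

/-- the full range -/
theorem five_zero (hLV : ∀ h d : ℝ, 0 < h → 0 < d → LVT h d) : FIVE 0 := by
  intro c0 hc0
  obtain ⟨c, hc, hbig⟩ := five_of_lvt (h := 1 / 300) (by norm_num) (fun d hd => hLV _ _ (by norm_num) hd) c0 hc0
  refine ⟨min c (1 / 2000), lt_min hc (by norm_num), fun ε hε => ?_⟩
  obtain ⟨C, hC, h1⟩ := hbig ε hε
  obtain ⟨C', hC', h2⟩ := five_small ε hε
  refine ⟨C + C', by positivity, ?_⟩
  intro N hN q a hq ha x L F hL0 hL1 hPN hsupp hF hQ0 hQ1 X hX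
  have hNr : (1 : ℝ) ≤ N := by exact_mod_cast hN
  have hmono : ∀ {x y : ℝ}, x ≤ y → (N : ℝ) ^ x ≤ (N : ℝ) ^ y := fun hxy => Real.rpow_le_rpow_of_exponent_le hNr hxy
  have hm1 : min c (1 / 2000) ≤ c := min_le_left _ _
  have hm2 : min c (1 / 2000) ≤ 1 / 2000 := min_le_right _ _
  have hL : ∀ i, 0 ≤ L i := fun i => le_trans (by positivity) (hL0 i)
  have hPp : 0 ≤ ∏ i, L i := Finset.prod_nonneg fun i _ => hL i
  have hA : 0 ≤ (∏ i, L i) / Real.sqrt (QQ (∏ i, L i) x a q) := by positivity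
  have hB : 0 ≤ (N : ℝ) ^ ((4 : ℝ) / 5 - min c (1 / 2000)) := by positivity
  rcases le_total (QQ (∏ i, L i) x a q) ((N : ℝ) ^ ((2 : ℝ) / 5 + 1 / 300)) with hs | hs
  · refine (h2 N hN q a hq ha x L F (fun i => (hmono (by linarith)).trans (hL0 i)) (fun i => (hL1 i).trans (hmono (by linarith)))
      hPN hsupp hF hs X hX).trans ?_
    have h3 : C' * (N : ℝ) ^ ε * ((∏ i, L i) / Real.sqrt (QQ (∏ i, L i) x a q)) ≤
        (C + C') * (N : ℝ) ^ ε * ((∏ i, L i) / Real.sqrt (QQ (∏ i, L i) x a q)) :=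
      mul_le_mul_of_nonneg_right (mul_le_mul_of_nonneg_right (by linarith) (by positivity)) hA
    refine h3.trans (mul_le_mul_of_nonneg_left (by linarith) (by positivity))
  · refine (h1 N hN q a hq ha x L F (fun i => (hmono (by linarith)).trans (hL0 i)) (fun i => (hL1 i).trans (hmono (by linarith)))
      hPN hsupp hF hs hQ1 X hX).trans ?_
    have h3 : (N : ℝ) ^ ((4 : ℝ) / 5 - c) ≤ (N : ℝ) ^ ((4 : ℝ) / 5 - min c (1 / 2000)) := hmono (by linarith)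
    refine mul_le_mul (mul_le_mul_of_nonneg_right (by linarith) (by positivity)) (by linarith) ?_ (by positivity)
    exact add_nonneg hA (by positivity)

end Pool.Helper19.V5
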