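import Pool.Agent.Helper19.V5.FiveS
import Pool.Agent.Helper88.LV.Bridge

/-!
# V5-17: `FIVE 0` without hypotheses
-/

namespace Pool.Helper19.V5

theorem five0 : FIVE 0 := five_zero fun _ _ hh hd => Pool.Agent.Helper88.LV.lvt_pairs hh hd

end Pool.Helper19.V5
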