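import Pool.Agent.Helper19.V5.Defs
import Pool.Agent.Helper19.V4.Gcd

/-!
# V5-9: common factors, real `x`

* `five_dec_x`: as `V4/Gcd.lean` (`f = ∑_{g ∣ b} dl g * gp b g f`, `SX (dl G * F) X x = SX F (X / G) (G x)`).
* `gcd_sum`: `gcd(r, q) ≤ ∑_{d ∣ q, d ∣ r} d`, and `∑_{d ∣ q} d ⌊X/d⌋ ≤ X d(q)`.
* `QQ_mul`: `|G x - a (G/g)/(q/g)| = G |x - a/q|`, `g = gcd(G, q)`.
-/

namespace Pool.Helper19.V5

open ArithmeticFunction Finset Pool.Helper19.V4

theorem SX_dl24 {G : ℕ} (hG : 1 ≤ G) (F : ArithmeticFunction ℂ) (X : ℕ) (x : ℝ) :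
    SX (dl G * F) X x = SX F (X / G) ((G : ℝ) * x) := by
  classical
  unfold SX
  simp_rw [dl_mul_apply70 hG]
  symm
  refine Finset.sum_of_injOn (fun m => G * m) ?_ ?_ ?_ ?_
  · intro x _ y _ hxy
    exact Nat.eq_of_mul_eq_mul_left (by omega) hxy
  · intro m hm
    simp only [Finset.coe_Icc, Set.mem_Icc] at hm ⊢
    constructor
    · nlinarith
    · have := (Nat.le_div_iff_mul_le (by omega)).1 hm.2
      rwa [mul_comm] at this
  · intro n hn hn'
    rw [if_neg, zero_mul]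
    rintro ⟨m, rfl⟩
    apply hn'
    refine ⟨m, ?_, rfl⟩
    simp only [Finset.coe_Icc, Set.mem_Icc, Finset.mem_Icc] at hn ⊢
    constructor
    · rcases Nat.eq_zero_or_pos m with rfl | h
      · simp at hn
      · exact h
    · rw [Nat.le_div_iff_mul_le (by omega), mul_comm]
      exact hn.2
  · intro m _
    rw [if_pos (Dvd.intro _ rfl), Nat.mul_div_cancel_left _ (by omega)]
    congr 2
    push_cast
    ring

theorem five_dec_x {b : ℕ} (hb : 1 ≤ b) (f : Fin 5 → ArithmeticFunction ℂ) (X : ℕ) (x : ℝ) {B : ℝ}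
    (hB : ∀ t : Fin 5 → ℕ, (∀ i, t i ∈ b.divisors) →
      ‖SX (∏ i, gp b (t i) (f i)) (X / ∏ i, t i) (((∏ i, t i : ℕ) : ℝ) * x)‖ ≤ B) :
    ‖SX (∏ i, f i) X x‖ ≤ (b.divisors.card : ℝ) ^ 5 * B := by
  classical
  have h1 : ∏ i, f i = ∑ t ∈ Fintype.piFinset (fun _ : Fin 5 => b.divisors),
      ∏ i, (dl (t i) * gp b (t i) (f i)) := by
    rw [← Finset.prod_univ_sum (fun _ : Fin 5 => b.divisors) (fun i g => dl g * gp b g (f i))]
    exact Finset.prod_congr rfl fun i _ => gcd_dec hb (f i)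
  have hSF : ∀ (s : Finset (Fin 5 → ℕ)) (F : (Fin 5 → ℕ) → ArithmeticFunction ℂ),
      SX (∑ t ∈ s, F t) X x = ∑ t ∈ s, SX (F t) X x := by
    intro s F
    induction s using Finset.induction_on with
    | empty => simp [SX]
    | insert t s ht ih =>
      rw [Finset.sum_insert ht, Finset.sum_insert ht, ← ih]
      unfold SX
      rw [← Finset.sum_add_distrib]
      refine Finset.sum_congr rfl fun n _ => ?_
      rw [ArithmeticFunction.add_apply, add_mul]
  rw [h1, hSF]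
  refine (norm_sum_le _ _).trans ?_
  have h2 : ∀ t ∈ Fintype.piFinset (fun _ : Fin 5 => b.divisors),
      ‖SX (∏ i, (dl (t i) * gp b (t i) (f i))) X x‖ ≤ B := by
    intro t ht
    rw [Fintype.mem_piFinset] at ht
    have ht1 : ∀ i, 1 ≤ t i := fun i => Nat.pos_of_mem_divisors (ht i)
    rw [Finset.prod_mul_distrib, prod_dl70 _ _ ht1, SX_dl24]
    · exact hB t ht
    · exact Nat.one_le_iff_ne_zero.2 (Finset.prod_ne_zero_iff.2 fun i _ => by
        have := ht1 i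
        omega)
  refine (Finset.sum_le_card_nsmul _ _ _ h2).trans ?_
  rw [Fintype.card_piFinset, Finset.prod_const, Finset.card_univ, Fintype.card_fin, nsmul_eq_mul]
  push_cast
  exact le_rfl

theorem gcd_sum (X : ℕ) {q : ℕ} (hq : 1 ≤ q) : ∑ r ∈ Icc 1 X, (Nat.gcd r q : ℝ) ≤ X * (q.divisors.card : ℝ) := by
  classical
  have h1 : ∀ r ∈ Icc 1 X, Nat.gcd r q ≤ ∑ d ∈ q.divisors, if d ∣ r then d else 0 := by
    intro r _
    have h2 : Nat.gcd r q ∈ q.divisors := by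
      rw [Nat.mem_divisors]
      exact ⟨Nat.gcd_dvd_right r q, by omega⟩
    have h3 := Finset.single_le_sum (f := fun d => if d ∣ r then d else 0)
      (fun d _ => Nat.zero_le _) h2
    simpa [Nat.gcd_dvd_left] using h3
  have h4 : ∑ r ∈ Icc 1 X, Nat.gcd r q ≤ X * q.divisors.card := by
    refine (Finset.sum_le_sum h1).trans ?_
    rw [Finset.sum_comm, mul_comm X, ← smul_eq_mul]
    refine Finset.sum_le_card_nsmul _ _ _ fun d hd => ?_
    have hd1 : 0 < d := Nat.pos_of_mem_divisors hd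
    rw [← Finset.sum_filter, Finset.sum_const, smul_eq_mul]
    have h5 : (filter (fun r => d ∣ r) (Icc 1 X)).card = X / d := by
      rw [show Icc 1 X = Ioc 0 X from by ext; simp [Nat.succ_le_iff]]
      exact Nat.Ioc_filter_dvd_card_eq_div X d
    rw [h5]
    exact Nat.div_mul_le_self X d
  exact_mod_cast h4

theorem QQ_mul {a : ℤ} {q G : ℕ} (hq : 1 ≤ q) (hG : 1 ≤ G) (M x : ℝ) :
    QQ M (G * x) (a * ((G / Nat.gcd G q : ℕ) : ℤ)) (q / Nat.gcd G q) =
      ((q : ℝ) / Nat.gcd G q) * (1 + M * G * |x - a / q|) := by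
  unfold QQ
  set d := Nat.gcd G q with hd
  have hd0 : 0 < d := Nat.gcd_pos_of_pos_left _ (by omega)
  have hdR : (0 : ℝ) < d := by exact_mod_cast hd0
  have e1 : ((G / d : ℕ) : ℝ) = (G : ℝ) / d := Nat.cast_div (Nat.gcd_dvd_left G q) hdR.ne'
  have e2 : ((q / d : ℕ) : ℝ) = (q : ℝ) / d := Nat.cast_div (Nat.gcd_dvd_right G q) hdR.ne'
  have hqR : (0 : ℝ) < q := by exact_mod_cast hq
  have hGR : (0 : ℝ) < G := by exact_mod_cast hG
  rw [Int.cast_mul, Int.cast_natCast, e1, e2]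
  have e3 : (G : ℝ) * x - (a : ℝ) * ((G : ℝ) / d) / ((q : ℝ) / d) = G * (x - a / q) := by
    field_simp
  rw [e3, abs_mul, abs_of_pos hGR]
  ring

end Pool.Helper19.V5
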