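import Pool.Agent.Helper19.V5.TypeTwoR
import Pool.Agent.Helper19.V5.GcdX
import Pool.Agent.Helper19.V4.Large

/-!
# V5-10: five variables with a common factor, real `x`

As `V4/Large.lean`, with `type_two_x` at the point `G x`, `G = ∏ t`, fraction `a (G/g) / (q/g)`, `g = gcd(G, q)` (`coprime_red`, `QQ_mul`). `A = ⌊4 K_0 K_1/(t_0 t_1)⌋`, `B = ⌊8 K_2 K_3 K_4/(t_2 t_3 t_4)⌋`, `A B ≤ 32 P/G`, `P = ∏ K`,
`β = x - a/q`, `Q = QQ P x a q = q (1 + P |β|)`: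
`QQ (A B) (G x) .. = (q/g)(1 + A B G |β|) ≤ q (1 + 32 P |β|) ≤ 32 Q`, and `A B / QQ (A B) (G x) .. ≤ (32 P/G) / ((q/g)(1 + 32 P |β|)) ≤ 32 P/Q` (`t ↦ t/(1 + c t)` is increasing, `g ≤ G`). `A ≤ 4 K_0 K_1`, `B ≤ 8 K_2 K_3 K_4`.
If `A = 0` or `B = 0` everything is `0`.
-/

namespace Pool.Helper19.V5

open ArithmeticFunction Finset Pool.Helper19.V4

private lemma gp_supp6 {b g K : ℕ} (hg : 1 ≤ g) {f : ArithmeticFunction ℂ} (h : Pc K f) {m : ℕ} (hm : gp b g f m ≠ 0) :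
    m ≤ 2 * K / g := by
  have h1 : gp b g f m = if Nat.gcd (g * m) b = g then f (g * m) else 0 := rfl
  rw [h1] at hm
  have h2 : f (g * m) ≠ 0 := by
    intro h0
    apply hm
    rw [h0]
    split_ifs <;> rfl
  have h3 := (h.supp _ h2).2
  rw [Nat.le_div_iff_mul_le (by omega), mul_comm]
  exact h3.le

private lemma gp_le6 {b g K : ℕ} {f : ArithmeticFunction ℂ} (h : Pc K f) (m : ℕ) : ‖gp b g f m‖ ≤ 1 := by
  have h1 : gp b g f m = if Nat.gcd (g * m) b = g then f (g * m) else 0 := rfl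
  rw [h1]
  split_ifs
  · exact h.le _
  · simp

private lemma mul_supp6 {f g : ArithmeticFunction ℂ} {A B : ℕ} (hf : ∀ n, f n ≠ 0 → n ≤ A) (hg : ∀ n, g n ≠ 0 → n ≤ B)
    {n : ℕ} (hn : (f * g) n ≠ 0) : n ≤ A * B := by
  rw [ArithmeticFunction.mul_apply] at hn
  obtain ⟨p, hp, h⟩ := Finset.exists_ne_zero_of_sum_ne_zero hn
  rw [Nat.mem_divisorsAntidiagonal] at hp
  have h1 : f p.1 ≠ 0 := fun h0 => h (by rw [h0, zero_mul])
  have h2 : g p.2 ≠ 0 := fun h0 => h (by rw [h0, mul_zero])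
  rw [← hp.1]
  exact Nat.mul_le_mul (hf _ h1) (hg _ h2)

private lemma divpow6 {C δ M : ℝ} (hC : 0 < C) (hδ : 0 < δ) {n j : ℕ} (hd : (n.divisors.card : ℝ) ≤ C * (n : ℝ) ^ δ)
    (hM : (n : ℝ) ≤ M) (x : ℝ) (hx0 : 0 ≤ x) (hx : x ≤ (n.divisors.card : ℝ) ^ j) : x ^ 2 ≤ (C * M ^ δ) ^ (2 * j) := by
  have h1 : (n : ℝ) ^ δ ≤ M ^ δ := Real.rpow_le_rpow (by positivity) hM hδ.le
  have h2 : (n.divisors.card : ℝ) ≤ C * M ^ δ := hd.trans (mul_le_mul_of_nonneg_left h1 hC.le)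
  have h3 : (n.divisors.card : ℝ) ^ j ≤ (C * M ^ δ) ^ j := pow_le_pow_left₀ (by positivity) h2 j
  calc x ^ 2 ≤ ((C * M ^ δ) ^ j) ^ 2 := pow_le_pow_left₀ hx0 (hx.trans h3) 2
    _ = (C * M ^ δ) ^ (2 * j) := by rw [← pow_mul, mul_comm j 2]

private lemma SX_mul6 (f g : ArithmeticFunction ℂ) {A B X : ℕ} (hf : ∀ n, f n ≠ 0 → n ≤ A) (hg : ∀ n, g n ≠ 0 → n ≤ B)
    (hX : A * B ≤ X) (x : ℝ) :
    SX (f * g) X x = ∑ m ∈ Icc 1 A, ∑ n ∈ Icc 1 B, f m * g n * ex (((m : ℝ) * n) * x) := by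
  classical
  rw [SX, ← Finset.sum_product' (Icc 1 A) (Icc 1 B) fun m n => f m * g n * ex (((m : ℝ) * n) * x)]
  have hmaps : ∀ p ∈ Icc 1 A ×ˢ Icc 1 B, p.1 * p.2 ∈ Icc 1 X := by
    intro p hp
    rw [mem_product, mem_Icc, mem_Icc] at hp
    rw [mem_Icc]
    exact ⟨Nat.one_le_iff_ne_zero.mpr (Nat.mul_ne_zero (by omega) (by omega)),
      (Nat.mul_le_mul hp.1.2 hp.2.2).trans hX⟩
  rw [← Finset.sum_fiberwise_of_maps_to hmaps]
  refine Finset.sum_congr rfl fun n hn => ?_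
  rw [ArithmeticFunction.mul_apply, Finset.sum_mul]
  rw [mem_Icc] at hn
  have hsub : (Icc 1 A ×ˢ Icc 1 B).filter (fun p => p.1 * p.2 = n) ⊆ n.divisorsAntidiagonal := by
    intro p hp
    rw [mem_filter] at hp
    rw [Nat.mem_divisorsAntidiagonal]
    exact ⟨hp.2, by omega⟩
  rw [← Finset.sum_subset hsub]
  · refine Finset.sum_congr rfl fun p hp => ?_
    rw [mem_filter] at hp
    rw [← hp.2]
    push_cast
    rfl
  · intro p hp hnp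
    rw [Nat.mem_divisorsAntidiagonal] at hp
    obtain ⟨h1, h2⟩ := hp
    have hx : p.1 ≠ 0 := fun h => h2 (by rw [← h1, h, zero_mul])
    have hy : p.2 ≠ 0 := fun h => h2 (by rw [← h1, h, mul_zero])
    by_contra hne
    apply hnp
    rw [mem_filter, mem_product, mem_Icc, mem_Icc]
    refine ⟨⟨⟨by omega, hf _ fun h0 => hne ?_⟩, ⟨by omega, hg _ fun h0 => hne ?_⟩⟩, h1⟩
    · rw [h0, zero_mul, zero_mul]
    · rw [h0, mul_zero, zero_mul]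

private lemma sizes6 {A B G P β d q : ℝ} (hA : 0 ≤ A) (hB : 0 ≤ B) (hd : 0 < d) (hdG : d ≤ G) (hP : 0 ≤ P) (hβ : 0 ≤ β)
    (hq : 1 ≤ q) (hd1 : 1 ≤ d) (hABG : A * B * G ≤ 32 * P) :
    q / d * (1 + A * B * G * β) ≤ 32 * (q * (1 + P * β)) ∧
      A * B / (q / d * (1 + A * B * G * β)) ≤ 32 * (P / (q * (1 + P * β))) := by
  have hAB : 0 ≤ A * B := mul_nonneg hA hB
  have hG : 0 < G := lt_of_lt_of_le hd hdG
  have hABG0 : 0 ≤ A * B * G := mul_nonneg hAB hG.le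
  have hPβ : 0 ≤ P * β := mul_nonneg hP hβ
  have hq0 : 0 < q := by linarith
  have h1 : A * B * G * β ≤ 32 * P * β := mul_le_mul_of_nonneg_right hABG hβ
  have h2 : 0 ≤ A * B * G * β := mul_nonneg hABG0 hβ
  have h3 : q / d ≤ q := div_le_self hq0.le hd1
  refine ⟨?_, ?_⟩
  · calc q / d * (1 + A * B * G * β) ≤ q * (1 + 32 * P * β) :=
          mul_le_mul h3 (by linarith) (by linarith) hq0.le
      _ ≤ 32 * (q * (1 + P * β)) := by nlinarith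
  · have h4 : 0 < q / d * (1 + A * B * G * β) := mul_pos (div_pos hq0 hd) (by linarith)
    have h5 : 0 < q * (1 + P * β) := mul_pos hq0 (by linarith)
    rw [← mul_div_assoc, div_le_div_iff₀ h4 h5]
    have h6 : A * B * d ≤ 32 * P := (mul_le_mul_of_nonneg_left hdG hAB).trans hABG
    have h7 : A * B * d * (P * β) ≤ 32 * P * (A * B * G * β) := by
      have h8 : A * B * d * (P * β) ≤ A * B * G * (P * β) :=
        mul_le_mul_of_nonneg_right (mul_le_mul_of_nonneg_left hdG hAB) hPβ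
      have h9 : 0 ≤ A * B * G * (P * β) := mul_nonneg hABG0 hPβ
      nlinarith
    have h10 : A * B * d * (1 + P * β) ≤ 32 * P * (1 + A * B * G * β) := by nlinarith
    have h11 : A * B * (q * (1 + P * β)) = q / d * (A * B * d * (1 + P * β)) := by
      field_simp
    have h12 : 32 * P * (q / d * (1 + A * B * G * β)) = q / d * (32 * P * (1 + A * B * G * β)) := by ring
    rw [h11, h12]
    exact mul_le_mul_of_nonneg_left h10 (div_pos hq0 hd).le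

theorem large_x {ε : ℝ} (hε : 0 < ε) : ∃ C : ℝ, 0 < C ∧ ∀ N : ℕ, 2 ≤ N → ∀ (x : ℝ) (a : ℤ) (q : ℕ), 1 ≤ q →
    IsCoprime a (q : ℤ) → ∀ (f : Fin 5 → ArithmeticFunction ℂ) (K : Fin 5 → ℕ), (∀ i, Pc (K i) (f i)) → ∏ i, K i ≤ N →
    ∀ t : Fin 5 → ℕ, (∀ i, t i ∈ q.divisors) → ∀ X : ℕ, 32 * ∏ i, K i ≤ X →
      ‖SX (∏ i, gp q (t i) (f i)) (X / ∏ i, t i) (((∏ i, t i : ℕ) : ℝ) * x)‖ ^ 2 ≤
        C * (N : ℝ) ^ ε * ((∏ i, (K i : ℝ)) / ∏ i, (t i : ℝ)) *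
          ((∏ i, (K i : ℝ)) / QQ (∏ i, (K i : ℝ)) x a q + (K 0 : ℝ) * K 1 + (K 2 : ℝ) * K 3 * K 4 + QQ (∏ i, (K i : ℝ)) x a q) := by
  obtain ⟨C1, hC1, hdiv⟩ := Pool.Agent.Helper69.FF.div_bound (ε := ε / 10) (by positivity)
  refine ⟨65536 * ((C1 * 8 ^ (ε / 10)) ^ 10), by positivity, ?_⟩
  intro N hN x a q hq haq f K hf hK t ht X hX
  have ht1 : ∀ i, 1 ≤ t i := fun i => Nat.pos_of_mem_divisors (ht i)
  have hK1 : ∀ i, 1 ≤ K i := fun i => (hf i).pos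
  obtain ⟨G, hG⟩ : ∃ G, G = ∏ i, t i := ⟨_, rfl⟩
  have hG1 : 1 ≤ G := by
    rw [hG]
    exact Nat.one_le_iff_ne_zero.2 (Finset.prod_ne_zero_iff.2 fun i _ => by have := ht1 i; omega)
  have hGR : (∏ i, (t i : ℝ)) = (G : ℝ) := by rw [hG]; push_cast; rfl
  rw [hGR, ← hG]
  obtain ⟨d, hd⟩ : ∃ d, d = Nat.gcd G q := ⟨_, rfl⟩
  have hd0 : 0 < d := by rw [hd]; exact Nat.gcd_pos_of_pos_right _ (by omega)
  have hdG : d ≤ G := by rw [hd]; exact Nat.gcd_le_left _ (by omega)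
  have hdq : d ∣ q := by rw [hd]; exact Nat.gcd_dvd_right G q
  have hcop : IsCoprime (a * (G / d : ℕ)) ((q / d : ℕ) : ℤ) := by rw [hd]; exact coprime_red hq haq
  have hq'1 : 1 ≤ q / d := Nat.div_pos (Nat.le_of_dvd (by omega) hdq) hd0
  -- the factors
  obtain ⟨g, hgdef⟩ : ∃ g : Fin 5 → ArithmeticFunction ℂ, ∀ i, g i = gp q (t i) (f i) := ⟨_, fun _ => rfl⟩
  have hgs : ∀ i n, g i n ≠ 0 → n ≤ 2 * K i / t i := fun i n hn => by
    rw [hgdef] at hn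
    exact gp_supp6 (ht1 i) (hf i) hn
  have hgl : ∀ i n, ‖g i n‖ ≤ 1 := fun i n => by rw [hgdef]; exact gp_le6 (hf i) n
  have hprod : (∏ i, gp q (t i) (f i)) = (g 0 * g 1) * (g 2 * g 3 * g 4) := by
    rw [Fin.prod_univ_five, ← hgdef, ← hgdef, ← hgdef, ← hgdef, ← hgdef]
    ring
  rw [hprod]
  obtain ⟨r, hr⟩ : ∃ r : Fin 5 → ℕ, ∀ i, r i = 2 * K i / t i := ⟨_, fun _ => rfl⟩
  have hrt : ∀ i, r i * t i ≤ 2 * K i := fun i => by rw [hr]; exact Nat.div_mul_le_self _ _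
  have hrK : ∀ i, r i ≤ 2 * K i := fun i => by rw [hr]; exact Nat.div_le_self _ _
  have hgs' : ∀ i n, g i n ≠ 0 → n ≤ r i := fun i n hn => by rw [hr]; exact hgs i n hn
  obtain ⟨A, hA⟩ : ∃ A, A = r 0 * r 1 := ⟨_, rfl⟩
  obtain ⟨B, hB⟩ : ∃ B, B = r 2 * r 3 * r 4 := ⟨_, rfl⟩
  have hF1 : ∀ n, (g 0 * g 1) n ≠ 0 → n ≤ A := fun n hn => by
    rw [hA]
    exact mul_supp6 (hgs' 0) (hgs' 1) hn
  have hF2 : ∀ n, (g 2 * g 3 * g 4) n ≠ 0 → n ≤ B := fun n hn => by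
    rw [hB]
    exact mul_supp6 (fun m hm => mul_supp6 (hgs' 2) (hgs' 3) hm) (hgs' 4) hn
  have hABG : A * B * G ≤ 32 * ∏ i, K i := by
    have e1 : A * B * G = (r 0 * t 0) * (r 1 * t 1) * (r 2 * t 2) * (r 3 * t 3) * (r 4 * t 4) := by
      rw [hA, hB, hG, Fin.prod_univ_five]; ring
    have e2 : 32 * ∏ i, K i = (2 * K 0) * (2 * K 1) * (2 * K 2) * (2 * K 3) * (2 * K 4) := by
      rw [Fin.prod_univ_five]; ring
    rw [e1, e2]
    exact Nat.mul_le_mul (Nat.mul_le_mul (Nat.mul_le_mul (Nat.mul_le_mul (hrt 0) (hrt 1)) (hrt 2)) (hrt 3)) (hrt 4)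
  have hABX : A * B ≤ X / G := by
    rw [Nat.le_div_iff_mul_le (by omega)]
    exact hABG.trans hX
  rw [SX_mul6 (g 0 * g 1) (g 2 * g 3 * g 4) hF1 hF2 hABX]
  refine (type_two_x hq'1 hcop ((G : ℝ) * x) A B (fun m => (g 0 * g 1) m) (fun n => (g 2 * g 3 * g 4) n)).trans ?_
  have hQQ : QQ ((A : ℝ) * B) ((G : ℝ) * x) (a * ((G / d : ℕ) : ℤ)) (q / d) =
      (q : ℝ) / d * (1 + (A : ℝ) * B * G * |x - a / q|) := by
    rw [hd]; exact QQ_mul hq hG1 _ x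
  rw [hQQ]
  -- the sizes
  have hKN : (∏ i, K i) ≤ N := hK
  have hA4 : A ≤ 4 * (K 0 * K 1) := by
    rw [hA]
    calc r 0 * r 1 ≤ (2 * K 0) * (2 * K 1) := Nat.mul_le_mul (hrK 0) (hrK 1)
      _ = 4 * (K 0 * K 1) := by ring
  have hB8 : B ≤ 8 * (K 2 * K 3 * K 4) := by
    rw [hB]
    calc r 2 * r 3 * r 4 ≤ (2 * K 2) * (2 * K 3) * (2 * K 4) :=
          Nat.mul_le_mul (Nat.mul_le_mul (hrK 2) (hrK 3)) (hrK 4)
      _ = 8 * (K 2 * K 3 * K 4) := by ring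
  have h01 : K 0 * K 1 ≤ N := by
    refine le_trans ?_ hKN
    rw [Fin.prod_univ_five]
    have : 1 ≤ K 2 * K 3 * K 4 := Nat.one_le_iff_ne_zero.2 (by
      have h2 := hK1 2; have h3 := hK1 3; have h4 := hK1 4
      positivity)
    calc K 0 * K 1 = K 0 * K 1 * 1 := (mul_one _).symm
      _ ≤ K 0 * K 1 * (K 2 * K 3 * K 4) := Nat.mul_le_mul_left _ this
      _ = _ := by ring
  have h234 : K 2 * K 3 * K 4 ≤ N := by
    refine le_trans ?_ hKN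
    rw [Fin.prod_univ_five]
    have : 1 ≤ K 0 * K 1 := Nat.one_le_iff_ne_zero.2 (by
      have h2 := hK1 0; have h3 := hK1 1
      positivity)
    calc K 2 * K 3 * K 4 = 1 * (K 2 * K 3 * K 4) := (one_mul _).symm
      _ ≤ K 0 * K 1 * (K 2 * K 3 * K 4) := Nat.mul_le_mul_right _ this
      _ = _ := by ring
  have hAN : (A : ℝ) ≤ 8 * N := by
    have : A ≤ 8 * N := by omega
    exact_mod_cast this
  have hBN : (B : ℝ) ≤ 8 * N := by
    have : B ≤ 8 * N := by omega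
    exact_mod_cast this
  obtain ⟨E, hE⟩ : ∃ E : ℝ, E = C1 * (8 * (N : ℝ)) ^ (ε / 10) := ⟨_, rfl⟩
  have hE0 : 0 < E := by
    have : (0 : ℝ) < N := by exact_mod_cast (by omega : 0 < N)
    rw [hE]; positivity
  have hs1 : ∑ m ∈ Icc 1 A, ‖(g 0 * g 1) m‖ ^ 2 ≤ A * E ^ 4 := by
    have h1 : ∀ m ∈ Icc 1 A, ‖(g 0 * g 1) m‖ ^ 2 ≤ E ^ 4 := by
      intro m hm
      rw [mem_Icc] at hm
      have h2 := prod_le ({0, 1} : Finset (Fin 5)) (f := g) (fun i _ n => hgl i n) (n := m) (by omega)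
      have h3 : (∏ i ∈ ({0, 1} : Finset (Fin 5)), g i) = g 0 * g 1 := by
        rw [Finset.prod_insert (by decide), Finset.prod_singleton]
      have h4 : ({0, 1} : Finset (Fin 5)).card = 2 := by decide
      rw [h3, h4] at h2
      rw [hE]
      exact divpow6 (j := 2) hC1 (by positivity) (hdiv m (by omega))
        (le_trans (by exact_mod_cast hm.2) hAN) _ (norm_nonneg _) h2
    refine (Finset.sum_le_sum h1).trans (le_of_eq ?_)
    rw [Finset.sum_const, Nat.card_Icc, nsmul_eq_mul]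
    simp
  have hs2 : ∑ n ∈ Icc 1 B, ‖(g 2 * g 3 * g 4) n‖ ^ 2 ≤ B * E ^ 6 := by
    have h1 : ∀ n ∈ Icc 1 B, ‖(g 2 * g 3 * g 4) n‖ ^ 2 ≤ E ^ 6 := by
      intro m hm
      rw [mem_Icc] at hm
      have h2 := prod_le ({2, 3, 4} : Finset (Fin 5)) (f := g) (fun i _ n => hgl i n) (n := m) (by omega)
      have h3 : (∏ i ∈ ({2, 3, 4} : Finset (Fin 5)), g i) = g 2 * g 3 * g 4 := by
        rw [Finset.prod_insert (by decide), Finset.prod_insert (by decide), Finset.prod_singleton]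
        ring
      have h4 : ({2, 3, 4} : Finset (Fin 5)).card = 3 := by decide
      rw [h3, h4] at h2
      rw [hE]
      exact divpow6 (j := 3) hC1 (by positivity) (hdiv m (by omega))
        (le_trans (by exact_mod_cast hm.2) hBN) _ (norm_nonneg _) h2
    refine (Finset.sum_le_sum h1).trans (le_of_eq ?_)
    rw [Finset.sum_const, Nat.card_Icc, nsmul_eq_mul]
    simp
  have hE10 : E ^ 10 = (C1 * 8 ^ (ε / 10)) ^ 10 * (N : ℝ) ^ ε := by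
    have hN0 : (0 : ℝ) ≤ N := by positivity
    rw [hE, Real.mul_rpow (by norm_num) hN0, ← mul_assoc, mul_pow, ← Real.rpow_natCast ((N : ℝ) ^ (ε / 10)) 10,
      ← Real.rpow_mul hN0]
    congr 2
    push_cast
    ring
  have hG0 : (0 : ℝ) < G := by exact_mod_cast hG1
  have hdR : (1 : ℝ) ≤ d := by exact_mod_cast hd0
  have hqR : (1 : ℝ) ≤ q := by exact_mod_cast hq
  obtain ⟨P, hP⟩ : ∃ P : ℝ, P = ∏ i, (K i : ℝ) := ⟨_, rfl⟩
  have hP0 : 0 ≤ P := by rw [hP]; positivity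
  have hABGR : (A : ℝ) * B * G ≤ 32 * P := by
    rw [hP]
    exact_mod_cast hABG
  have hAB : (A : ℝ) * B ≤ 32 * (P / G) := by
    rw [← mul_div_assoc, le_div_iff₀ hG0]
    exact hABGR
  have hA4R : (A : ℝ) ≤ 4 * (K 0 * K 1) := by exact_mod_cast hA4
  have hB8R : (B : ℝ) ≤ 8 * (K 2 * K 3 * K 4) := by exact_mod_cast hB8
  rw [← hP]
  obtain ⟨Q, hQ⟩ : ∃ Q : ℝ, Q = QQ P x a q := ⟨_, rfl⟩
  have hQ1 : 1 ≤ Q := by rw [hQ]; exact QQ_pos hP0 hq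
  obtain ⟨D, hD⟩ : ∃ D : ℝ, D = (q : ℝ) / d * (1 + (A : ℝ) * B * G * |x - a / q|) := ⟨_, rfl⟩
  obtain ⟨hsz1, hsz2⟩ := sizes6 (A := (A : ℝ)) (B := (B : ℝ)) (G := (G : ℝ)) (P := P) (β := |x - a / q|) (d := (d : ℝ))
    (q := (q : ℝ)) (by positivity) (by positivity) (by linarith) (by exact_mod_cast hdG) hP0 (abs_nonneg _) hqR hdR hABGR
  have hQe : (q : ℝ) * (1 + P * |x - a / q|) = Q := by rw [hQ]; rfl
  rw [hQe, ← hD] at hsz1
  rw [hQe, ← hD] at hsz2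
  rw [← hD, ← hQ]
  have hcomb : 64 * ((A : ℝ) * B / D + A + B + D) ≤
      2048 * (P / Q + (K 0 : ℝ) * K 1 + (K 2 : ℝ) * K 3 * K 4 + Q) := by
    have k1 : (0 : ℝ) ≤ (K 0 : ℝ) * K 1 := by positivity
    have k2 : (0 : ℝ) ≤ (K 2 : ℝ) * K 3 * K 4 := by positivity
    linarith
  have hs0 : 0 ≤ ∑ m ∈ Icc 1 A, ‖(g 0 * g 1) m‖ ^ 2 := Finset.sum_nonneg fun _ _ => by positivity
  have hc0 : 0 ≤ 2048 * (P / Q + (K 0 : ℝ) * K 1 + (K 2 : ℝ) * K 3 * K 4 + Q) := by positivity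
  calc 64 * ((A : ℝ) * B / D + A + B + D) * (∑ m ∈ Icc 1 A, ‖(g 0 * g 1) m‖ ^ 2) *
        ∑ n ∈ Icc 1 B, ‖(g 2 * g 3 * g 4) n‖ ^ 2 ≤
      2048 * (P / Q + (K 0 : ℝ) * K 1 + (K 2 : ℝ) * K 3 * K 4 + Q) * (A * E ^ 4) * (B * E ^ 6) := by
        refine mul_le_mul (mul_le_mul hcomb hs1 hs0 hc0) hs2 (Finset.sum_nonneg fun _ _ => by positivity)
          (mul_nonneg hc0 (by positivity))
    _ = 2048 * (P / Q + (K 0 : ℝ) * K 1 + (K 2 : ℝ) * K 3 * K 4 + Q) * E ^ 10 * (A * B) := by ring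
    _ ≤ 2048 * (P / Q + (K 0 : ℝ) * K 1 + (K 2 : ℝ) * K 3 * K 4 + Q) * E ^ 10 * (32 * (P / G)) :=
        mul_le_mul_of_nonneg_left hAB (mul_nonneg hc0 (by positivity))
    _ = _ := by rw [hE10]; ring

end Pool.Helper19.V5
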