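import Pool.Agent.Helper19.V5.LargeX
import Pool.Agent.Helper19.V4.Quintic

/-!
# V5-11: five variables, real `x`

`P = ∏ K`, `β = x - a/q`, `Q = QQ P x a q`. `five_dec_x` (loss `d(q)^5 ≤ C N^ε`, `q ≤ Q ≤ N`); `G = ∏ t`, `g = gcd(G, q)`. `c` from `FIVE` (with `c0`); `γ = min (c/2) (κ' - κ)` (only `c/2` if `κ ≤ 0`) and small, `δ = γ/100`.
* `G ≤ N^γ`: `FIVE` with `L i = K i / t i ∈ [N^(1/5 - δ - γ), N^(1/5 + δ)]`, `∏ L = P/G`, the point `G x` with the fraction `a (G/g)/(q/g)` (`coprime_red`), `QQ (P/G) (G x) .. = (q/g)(1 + P |β|) = Q/g` (`QQ_mul`), which is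
  `≤ Q ≤ N^(1/2 - c0)` and `≥ Q/G ≥ N^(κ' - γ) ≥ N^κ` (or `≥ 1 ≥ N^κ` if `κ ≤ 0`), `F i = gp q (t i) (f i)` supported in `L i ≤ m < 2 L i`, `gcd(m, q/g) = 1` (`gcd(t m, q) = t` gives `gcd(m, q/t) = 1`, and `q/g ∣ q/t`). The bound is
  `(P/G) √g/√Q ≤ P/√Q`, plus `N^(4/5 - c)`. Cut-off: `32 P/G ≤ X/G`; replace the natural number `X / G` by a larger one if needed (`SX` does not change beyond the support).
* `G > N^γ`: `large_x`: `|SX|² ≤ C N^ε (P/G)(P/Q + N^(2/5 + 2δ) + N^(3/5 + 3δ) + N^(1/2)) ≤ C N^ε (P²/Q + 3 N^(8/5 + 3δ - γ))`.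
-/

namespace Pool.Helper19.V5

open ArithmeticFunction Finset Pool.Helper19.V4

private lemma supp63 {ι : Type*} (s : Finset ι) {F : ι → ArithmeticFunction ℂ} {t M : ι → ℕ}
    (h : ∀ i ∈ s, ∀ n, F i n ≠ 0 → t i * n ≤ M i) {n : ℕ} (hn : (∏ i ∈ s, F i) n ≠ 0) :
    (∏ i ∈ s, t i) * n ≤ ∏ i ∈ s, M i := by
  classical
  induction s using Finset.induction_on generalizing n with
  | empty =>
    rw [Finset.prod_empty] at hn
    have : n = 1 := by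
      by_contra h1
      exact hn (ArithmeticFunction.one_apply_ne h1)
    simp [this]
  | insert a s ha ih =>
    rw [Finset.prod_insert ha, ArithmeticFunction.mul_apply] at hn
    obtain ⟨p, hp, hp2⟩ := Finset.exists_ne_zero_of_sum_ne_zero hn
    rw [Nat.mem_divisorsAntidiagonal] at hp
    have h1 := left_ne_zero_of_mul hp2
    have h2 := right_ne_zero_of_mul hp2
    have h3 := h a (Finset.mem_insert_self _ _) _ h1
    have h4 := ih (fun i hi => h i (Finset.mem_insert_of_mem hi)) h2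
    rw [Finset.prod_insert ha, Finset.prod_insert ha, ← hp.1]
    calc t a * (∏ i ∈ s, t i) * (p.1 * p.2) = (t a * p.1) * ((∏ i ∈ s, t i) * p.2) := by ring
      _ ≤ _ := Nat.mul_le_mul h3 h4

private lemma SX_ext63 {F : ArithmeticFunction ℂ} {M M' : ℕ} (hM : M ≤ M') (h : ∀ n, F n ≠ 0 → n ≤ M) (x : ℝ) :
    SX F M x = SX F M' x := by
  unfold SX
  refine Finset.sum_subset (Finset.Icc_subset_Icc_right hM) fun n hn hn' => ?_
  have : F n = 0 := by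
    by_contra h0
    exact hn' (Finset.mem_Icc.mpr ⟨(Finset.mem_Icc.mp hn).1, h n h0⟩)
  rw [this, zero_mul]

private lemma gp_norm63 {b g K : ℕ} {f : ArithmeticFunction ℂ} (h : Pc K f) (n : ℕ) : ‖gp b g f n‖ ≤ 1 := by
  show ‖(if Nat.gcd (g * n) b = g then f (g * n) else 0)‖ ≤ 1
  split_ifs
  · exact h.le _
  · simp

private lemma gp_supp63 {b g K : ℕ} {f : ArithmeticFunction ℂ} (h : Pc K f) {n : ℕ} (hn : gp b g f n ≠ 0) :
    Nat.gcd (g * n) b = g ∧ K ≤ g * n ∧ g * n < 2 * K := by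
  have h1 : (if Nat.gcd (g * n) b = g then f (g * n) else 0) ≠ 0 := hn
  split_ifs at h1 with h2
  · exact ⟨h2, (h.supp _ h1).1, (h.supp _ h1).2⟩
  · exact absurd rfl h1

private lemma small63 {κ c c0 C ε : ℝ} {N : ℕ} (hC : 0 < C)
    (hF : ∀ (q : ℕ) (a : ℤ), 1 ≤ q → IsCoprime a (q : ℤ) → ∀ (x : ℝ) (L : Fin 5 → ℝ) (F : Fin 5 → ArithmeticFunction ℂ),
      (∀ i, (N : ℝ) ^ ((1 : ℝ) / 5 - c) ≤ L i) → (∀ i, L i ≤ (N : ℝ) ^ ((1 : ℝ) / 5 + c)) → ∏ i, L i ≤ N →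
      (∀ i n, F i n ≠ 0 → L i ≤ n ∧ (n : ℝ) < 2 * L i ∧ Nat.Coprime n q) → (∀ i n, ‖F i n‖ ≤ 1) →
      (N : ℝ) ^ κ ≤ QQ (∏ i, L i) x a q → QQ (∏ i, L i) x a q ≤ (N : ℝ) ^ ((1 : ℝ) / 2 - c0) →
      ∀ X : ℕ, 32 * ∏ i, L i ≤ X →
        ‖SX (∏ i, F i) X x‖ ≤ C * (N : ℝ) ^ ε * ((∏ i, L i) / Real.sqrt (QQ (∏ i, L i) x a q) + (N : ℝ) ^ ((4 : ℝ) / 5 - c)))
    {x : ℝ} {a : ℤ} {q : ℕ} (hq : 1 ≤ q) (haq : IsCoprime a (q : ℤ)) {f : Fin 5 → ArithmeticFunction ℂ} {K : Fin 5 → ℕ}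
    (hf : ∀ i, Pc (K i) (f i)) (hP : ∏ i, K i ≤ N) {t : Fin 5 → ℕ} (ht : ∀ i, t i ∈ q.divisors)
    (hl : ∀ i, (N : ℝ) ^ ((1 : ℝ) / 5 - c) ≤ (K i : ℝ) / t i) (hu : ∀ i, (K i : ℝ) / t i ≤ (N : ℝ) ^ ((1 : ℝ) / 5 + c))
    (hQl : (N : ℝ) ^ κ ≤ QQ (∏ i, (K i : ℝ)) x a q / (Nat.gcd (∏ i, t i) q : ℕ))
    (hQu : QQ (∏ i, (K i : ℝ)) x a q ≤ (N : ℝ) ^ ((1 : ℝ) / 2 - c0)) {X : ℕ} (hX : 32 * ∏ i, K i ≤ X) :
    ‖SX (∏ i, gp q (t i) (f i)) (X / ∏ i, t i) (((∏ i, t i : ℕ) : ℝ) * x)‖ ≤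
      C * (N : ℝ) ^ ε * ((∏ i, (K i : ℝ)) / Real.sqrt (QQ (∏ i, (K i : ℝ)) x a q) + (N : ℝ) ^ ((4 : ℝ) / 5 - c)) := by
  have ht1 : ∀ i, 1 ≤ t i := fun i => Nat.pos_of_mem_divisors (ht i)
  obtain ⟨G, hG⟩ : ∃ G, G = ∏ i, t i := ⟨_, rfl⟩
  have hGR : (∏ i, (t i : ℝ)) = (G : ℝ) := by rw [hG]; push_cast; rfl
  rw [← hG] at hQl ⊢
  obtain ⟨d, hd⟩ : ∃ d, d = Nat.gcd G q := ⟨_, rfl⟩
  rw [← hd] at hQl
  have hG1 : 1 ≤ G := by
    rw [hG]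
    exact Nat.succ_le_of_lt (Finset.prod_pos fun i _ => ht1 i)
  have hd0 : 0 < d := by rw [hd]; exact Nat.gcd_pos_of_pos_right _ (by omega)
  have hdG : d ≤ G := by rw [hd]; exact Nat.gcd_le_left _ (by omega)
  have hdq : d ∣ q := by rw [hd]; exact Nat.gcd_dvd_right G q
  have hcop : IsCoprime (a * (G / d : ℕ)) ((q / d : ℕ) : ℤ) := by rw [hd]; exact coprime_red hq haq
  have hq'1 : 1 ≤ q / d := Nat.div_pos (Nat.le_of_dvd (by omega) hdq) hd0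
  have hG0 : (0 : ℝ) < G := by exact_mod_cast hG1
  have hd0R : (0 : ℝ) < d := by exact_mod_cast hd0
  obtain ⟨P, hPdef⟩ : ∃ P : ℝ, P = ∏ i, (K i : ℝ) := ⟨_, rfl⟩
  have hP0 : 0 ≤ P := by rw [hPdef]; positivity
  rw [← hPdef] at hQl hQu ⊢
  obtain ⟨Q, hQ⟩ : ∃ Q : ℝ, Q = QQ P x a q := ⟨_, rfl⟩
  have hQ1 : 1 ≤ Q := by rw [hQ]; exact QQ_pos hP0 hq
  have hL : (∏ i, ((K i : ℝ) / t i)) = P / G := by
    rw [Finset.prod_div_distrib, hGR, hPdef]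
  have hQQ : QQ (P / G) ((G : ℝ) * x) (a * ((G / d : ℕ) : ℤ)) (q / d) = Q / d := by
    rw [hd, QQ_mul hq hG1, ← hd, div_mul_cancel₀ _ hG0.ne', hQ]
    unfold QQ
    ring
  have hPG : P / G ≤ P := div_le_self hP0 (by exact_mod_cast hG1)
  have hPN : P ≤ N := by
    rw [hPdef]
    exact_mod_cast hP
  have hsup : ∀ n, (∏ i, gp q (t i) (f i)) n ≠ 0 → G * n ≤ 32 * ∏ i, K i := by
    intro n hn
    have h1 := supp63 Finset.univ (t := t) (M := fun i => 2 * K i)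
      (fun i _ m hm => (gp_supp63 (hf i) hm).2.2.le) hn
    rw [Finset.prod_mul_distrib, Finset.prod_const, Finset.card_univ, Fintype.card_fin, ← hG] at h1
    calc G * n ≤ 2 ^ 5 * ∏ i, K i := h1
      _ = 32 * ∏ i, K i := by norm_num
  have hs1 : ∀ n, (∏ i, gp q (t i) (f i)) n ≠ 0 → n ≤ X / G := by
    intro n hn
    rw [Nat.le_div_iff_mul_le hG1, mul_comm]
    exact (hsup n hn).trans hX
  rw [SX_ext63 (le_max_left (X / G) (32 * ∏ i, K i)) hs1]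
  have key := hF (q / d) (a * ((G / d : ℕ) : ℤ)) hq'1 hcop ((G : ℝ) * x) (fun i => (K i : ℝ) / t i)
    (fun i => gp q (t i) (f i)) hl hu (by rw [hL]; exact hPG.trans hPN) (fun i n hn => ?_) (fun i n => gp_norm63 (hf i) n)
    (by rw [hL, hQQ, hQ]; exact hQl)
    (by
      rw [hL, hQQ]
      exact (div_le_self (by linarith) (by exact_mod_cast hd0)).trans (by rw [hQ]; exact hQu))
    (max (X / G) (32 * ∏ i, K i)) (by
      rw [hL]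
      have h1 : ((32 * ∏ i, K i : ℕ) : ℝ) ≤ ((max (X / G) (32 * ∏ i, K i) : ℕ) : ℝ) := by
        exact_mod_cast le_max_right _ _
      have h2 : ((32 * ∏ i, K i : ℕ) : ℝ) = 32 * P := by
        rw [hPdef]
        push_cast
        ring
      rw [h2] at h1
      exact (mul_le_mul_of_nonneg_left hPG (by norm_num)).trans h1)
  · rw [hL, hQQ] at key
    refine key.trans ?_
    refine mul_le_mul_of_nonneg_left (add_le_add ?_ le_rfl) (by positivity)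
    rw [← hQ, Real.sqrt_div (by linarith)]
    have hsQ : 0 < Real.sqrt Q := Real.sqrt_pos.mpr (by linarith)
    have hsd : 0 < Real.sqrt (d : ℝ) := Real.sqrt_pos.mpr hd0R
    have e : P / G / (Real.sqrt Q / Real.sqrt (d : ℝ)) = P / Real.sqrt Q * (Real.sqrt (d : ℝ) / G) := by
      field_simp
    rw [e]
    have h3 : Real.sqrt (d : ℝ) / G ≤ 1 := by
      rw [div_le_one hG0]
      have h4 : Real.sqrt (d : ℝ) ≤ d := by
        rw [Real.sqrt_le_left (by positivity)]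
        have : (1 : ℝ) ≤ d := by exact_mod_cast hd0
        nlinarith
      exact h4.trans (by exact_mod_cast hdG)
    exact mul_le_of_le_one_right (by positivity) h3
  · obtain ⟨h1, h2, h3⟩ := gp_supp63 (hf i) hn
    have hti : (0 : ℝ) < t i := by exact_mod_cast ht1 i
    refine ⟨?_, ?_, ?_⟩
    · rw [div_le_iff₀ hti]
      have : (K i : ℝ) ≤ (t i : ℝ) * n := by exact_mod_cast h2
      linarith
    · rw [← mul_div_assoc, lt_div_iff₀ hti]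
      have : (t i : ℝ) * n < 2 * (K i : ℝ) := by exact_mod_cast h3
      linarith
    · have hdv : t i ∣ q := Nat.dvd_of_mem_divisors (ht i)
      have h5 : t i ∣ d := by
        rw [hd]
        exact Nat.dvd_gcd (by rw [hG]; exact Finset.dvd_prod_of_mem t (Finset.mem_univ i)) hdv
      have h6 : q / d ∣ q / t i := Nat.div_dvd_div_left hdq h5
      have h4 : Nat.Coprime n (q / t i) := by
        obtain ⟨c', hc'⟩ := hdv
        rw [hc', Nat.mul_div_cancel_left _ (ht1 i)]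
        have h7 : Nat.gcd (t i * n) (t i * c') = t i := by
          rw [← hc']
          exact h1
        rw [Nat.gcd_mul_left] at h7
        exact Nat.eq_of_mul_eq_mul_left (ht1 i) (h7.trans (mul_one _).symm)
      exact h4.coprime_dvd_right h6

theorem quintic_x {κ κ' : ℝ} (hκ : κ ≤ 0 ∨ κ < κ') (h : FIVE κ) {c0 : ℝ} (hc0 : 0 < c0) :
    ∃ δ : ℝ, 0 < δ ∧ ∀ ε : ℝ, 0 < ε → ∃ C : ℝ, 0 < C ∧ ∀ N : ℕ, 2 ≤ N → ∀ (x : ℝ) (a : ℤ) (q : ℕ), 1 ≤ q →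
      IsCoprime a (q : ℤ) → ∀ (f : Fin 5 → ArithmeticFunction ℂ) (K : Fin 5 → ℕ), (∀ i, Pc (K i) (f i)) → ∏ i, K i ≤ N →
      (∀ i, (N : ℝ) ^ ((1 : ℝ) / 5 - δ) ≤ K i) → (∀ i, (K i : ℝ) ≤ (N : ℝ) ^ ((1 : ℝ) / 5 + δ)) →
      (N : ℝ) ^ κ' ≤ QQ (∏ i, (K i : ℝ)) x a q → QQ (∏ i, (K i : ℝ)) x a q ≤ (N : ℝ) ^ ((1 : ℝ) / 2 - c0) →
      ∀ X : ℕ, 32 * ∏ i, K i ≤ X →
        ‖SX (∏ i, f i) X x‖ ≤ C * (N : ℝ) ^ ε *
          ((∏ i, (K i : ℝ)) / Real.sqrt (QQ (∏ i, (K i : ℝ)) x a q) + (N : ℝ) ^ ((4 : ℝ) / 5 - δ)) := by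
  obtain ⟨c, hc, hF⟩ := h c0 hc0
  obtain ⟨γ, hγ0, hγc, hγκ⟩ : ∃ γ : ℝ, 0 < γ ∧ γ ≤ c / 2 ∧ (κ ≤ 0 ∨ γ ≤ κ' - κ) := by
    rcases hκ with hκ | hκ
    · exact ⟨c / 2, by positivity, le_rfl, Or.inl hκ⟩
    · exact ⟨min (c / 2) (κ' - κ), lt_min (by positivity) (by linarith), min_le_left _ _, Or.inr (min_le_right _ _)⟩
  obtain ⟨δ, hδ⟩ : ∃ δ : ℝ, δ = γ / 100 := ⟨_, rfl⟩
  have hδ0 : 0 < δ := by rw [hδ]; positivity
  refine ⟨δ, hδ0, fun ε hε => ?_⟩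
  obtain ⟨CF, hCF, hF⟩ := hF (ε / 2) (by positivity)
  obtain ⟨C1, hC1, hL⟩ := large_x (ε := ε) hε
  obtain ⟨C2, hC2, hD⟩ := Pool.Agent.Helper69.FF.div_bound (ε := ε / 10) (by positivity)
  refine ⟨C2 ^ 5 * (CF + 2 * Real.sqrt C1), by positivity, ?_⟩
  intro N hN x a q hq haq f K hf hP hKl hKu hQl hQu X hX
  have hNR : (1 : ℝ) ≤ N := by exact_mod_cast (by omega : 1 ≤ N)
  have hN0 : (0 : ℝ) < N := by linarith
  have hmono : ∀ {x y : ℝ}, x ≤ y → (N : ℝ) ^ x ≤ (N : ℝ) ^ y := fun hxy => Real.rpow_le_rpow_of_exponent_le hNR hxy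
  obtain ⟨P, hPdef⟩ : ∃ P : ℝ, P = ∏ i, (K i : ℝ) := ⟨_, rfl⟩
  have hP0 : 0 ≤ P := by rw [hPdef]; positivity
  have hPN : P ≤ N := by
    rw [hPdef]
    exact_mod_cast hP
  obtain ⟨Q, hQ⟩ : ∃ Q : ℝ, Q = QQ P x a q := ⟨_, rfl⟩
  have hQ1 : 1 ≤ Q := by rw [hQ]; exact QQ_pos hP0 hq
  have hqQ : (q : ℝ) ≤ Q := by rw [hQ]; exact QQ_ge hP0
  have hQl' : (N : ℝ) ^ κ' ≤ Q := by rw [hQ, hPdef]; exact hQl
  have hQu' : Q ≤ (N : ℝ) ^ ((1 : ℝ) / 2 - c0) := by rw [hQ, hPdef]; exact hQu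
  have hqN : (q : ℝ) ≤ N := by
    calc (q : ℝ) ≤ Q := hqQ
      _ ≤ (N : ℝ) ^ ((1 : ℝ) / 2 - c0) := hQu'
      _ ≤ (N : ℝ) ^ (1 : ℝ) := hmono (by linarith)
      _ = N := Real.rpow_one _
  have hq0 : (0 : ℝ) < q := by exact_mod_cast hq
  have hsQ : 0 < Real.sqrt Q := Real.sqrt_pos.mpr (by linarith)
  have hR0 : 0 ≤ P / Real.sqrt Q + (N : ℝ) ^ ((4 : ℝ) / 5 - δ) := by positivity
  have hB : ∀ t : Fin 5 → ℕ, (∀ i, t i ∈ q.divisors) →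
      ‖SX (∏ i, gp q (t i) (f i)) (X / ∏ i, t i) (((∏ i, t i : ℕ) : ℝ) * x)‖ ≤
        (CF + 2 * Real.sqrt C1) * (N : ℝ) ^ (ε / 2) * (P / Real.sqrt Q + (N : ℝ) ^ ((4 : ℝ) / 5 - δ)) := by
    intro t ht
    have ht1 : ∀ i, 1 ≤ t i := fun i => Nat.pos_of_mem_divisors (ht i)
    have hG1 : 1 ≤ ∏ i, t i := Nat.succ_le_of_lt (Finset.prod_pos fun i _ => ht1 i)
    have hGR : (1 : ℝ) ≤ ∏ i, (t i : ℝ) := by exact_mod_cast hG1
    by_cases hG : (∏ i, (t i : ℝ)) ≤ (N : ℝ) ^ γ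
    · -- small common factor
      have hgq : Nat.gcd (∏ i, t i) q ∣ q := Nat.gcd_dvd_right _ _
      have hg0 : 0 < Nat.gcd (∏ i, t i) q := Nat.gcd_pos_of_pos_right _ hq
      have hg0R : (0 : ℝ) < ((Nat.gcd (∏ i, t i) q : ℕ) : ℝ) := by exact_mod_cast hg0
      have hgG : ((Nat.gcd (∏ i, t i) q : ℕ) : ℝ) ≤ (N : ℝ) ^ γ := by
        refine le_trans ?_ hG
        have : Nat.gcd (∏ i, t i) q ≤ ∏ i, t i := Nat.gcd_le_left _ hG1
        exact_mod_cast this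
      have htG : ∀ i, (t i : ℝ) ≤ (N : ℝ) ^ γ := by
        intro i
        refine le_trans ?_ hG
        have : t i ≤ ∏ i, t i := Nat.le_of_dvd (by omega) (Finset.dvd_prod_of_mem t (Finset.mem_univ i))
        exact_mod_cast this
      have hlow : (N : ℝ) ^ κ ≤ Q / ((Nat.gcd (∏ i, t i) q : ℕ) : ℝ) := by
        rw [le_div_iff₀ hg0R]
        rcases hγκ with hk | hk
        · have h1 : ((Nat.gcd (∏ i, t i) q : ℕ) : ℝ) ≤ q := by exact_mod_cast Nat.le_of_dvd (by omega) hgq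
          calc (N : ℝ) ^ κ * ((Nat.gcd (∏ i, t i) q : ℕ) : ℝ) ≤ 1 * ((Nat.gcd (∏ i, t i) q : ℕ) : ℝ) :=
                mul_le_mul_of_nonneg_right (Real.rpow_le_one_of_one_le_of_nonpos hNR hk) hg0R.le
            _ ≤ Q := by linarith
        · calc (N : ℝ) ^ κ * ((Nat.gcd (∏ i, t i) q : ℕ) : ℝ) ≤ (N : ℝ) ^ κ * (N : ℝ) ^ γ :=
                mul_le_mul_of_nonneg_left hgG (by positivity)
            _ = (N : ℝ) ^ (κ + γ) := (Real.rpow_add hN0 _ _).symm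
            _ ≤ (N : ℝ) ^ κ' := hmono (by linarith)
            _ ≤ Q := hQl'
      have h1 := small63 (κ := κ) (c := c) (c0 := c0) (C := CF) (ε := ε / 2) (N := N) hCF (hF N (by omega)) hq haq hf hP ht
        (fun i => by
          have hti : (0 : ℝ) < t i := by exact_mod_cast ht1 i
          rw [le_div_iff₀ hti]
          calc (N : ℝ) ^ ((1 : ℝ) / 5 - c) * t i ≤ (N : ℝ) ^ ((1 : ℝ) / 5 - c) * (N : ℝ) ^ γ :=
                mul_le_mul_of_nonneg_left (htG i) (by positivity)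
            _ = (N : ℝ) ^ ((1 : ℝ) / 5 - c + γ) := (Real.rpow_add hN0 _ _).symm
            _ ≤ (N : ℝ) ^ ((1 : ℝ) / 5 - δ) := hmono (by linarith)
            _ ≤ K i := hKl i)
        (fun i => by
          calc (K i : ℝ) / t i ≤ K i := div_le_self (by positivity) (by exact_mod_cast ht1 i)
            _ ≤ (N : ℝ) ^ ((1 : ℝ) / 5 + δ) := hKu i
            _ ≤ (N : ℝ) ^ ((1 : ℝ) / 5 + c) := hmono (by linarith))
        (x := x) (by rw [← hPdef, ← hQ]; exact hlow) hQu hX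
      rw [← hPdef, ← hQ] at h1
      refine h1.trans ?_
      refine mul_le_mul ?_ (add_le_add le_rfl (hmono (by linarith))) (by positivity) (by positivity)
      exact mul_le_mul_of_nonneg_right (by linarith [Real.sqrt_nonneg C1]) (by positivity)
    · -- large common factor
      rw [not_le] at hG
      have h1 := hL N hN x a q hq haq f K hf hP t ht X hX
      rw [← hPdef, ← hQ] at h1
      have hPG : P / ∏ i, (t i : ℝ) ≤ (N : ℝ) ^ (1 - γ) := by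
        rw [div_le_iff₀ (by linarith)]
        calc P ≤ N := hPN
          _ = (N : ℝ) ^ (1 - γ) * (N : ℝ) ^ γ := by
              rw [← Real.rpow_add hN0, sub_add_cancel, Real.rpow_one]
          _ ≤ (N : ℝ) ^ (1 - γ) * ∏ i, (t i : ℝ) := mul_le_mul_of_nonneg_left hG.le (by positivity)
      have hPG1 : P / ∏ i, (t i : ℝ) ≤ P := div_le_self hP0 hGR
      have hPG0 : 0 ≤ P / ∏ i, (t i : ℝ) := by positivity
      have e2 : (K 0 : ℝ) * K 1 ≤ (N : ℝ) ^ ((3 : ℝ) / 5 + 3 * δ) := by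
        calc (K 0 : ℝ) * K 1 ≤ (N : ℝ) ^ ((1 : ℝ) / 5 + δ) * (N : ℝ) ^ ((1 : ℝ) / 5 + δ) :=
              mul_le_mul (hKu 0) (hKu 1) (by positivity) (by positivity)
          _ = (N : ℝ) ^ ((1 : ℝ) / 5 + δ + ((1 : ℝ) / 5 + δ)) := (Real.rpow_add hN0 _ _).symm
          _ ≤ _ := hmono (by linarith)
      have e3 : (K 2 : ℝ) * K 3 * K 4 ≤ (N : ℝ) ^ ((3 : ℝ) / 5 + 3 * δ) := by
        calc (K 2 : ℝ) * K 3 * K 4 ≤
              (N : ℝ) ^ ((1 : ℝ) / 5 + δ) * (N : ℝ) ^ ((1 : ℝ) / 5 + δ) * (N : ℝ) ^ ((1 : ℝ) / 5 + δ) :=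
              mul_le_mul (mul_le_mul (hKu 2) (hKu 3) (by positivity) (by positivity)) (hKu 4) (by positivity)
                (by positivity)
          _ = (N : ℝ) ^ ((1 : ℝ) / 5 + δ + ((1 : ℝ) / 5 + δ) + ((1 : ℝ) / 5 + δ)) := by
              rw [Real.rpow_add hN0 ((1 : ℝ) / 5 + δ + ((1 : ℝ) / 5 + δ)), Real.rpow_add hN0 ((1 : ℝ) / 5 + δ)]
          _ ≤ _ := hmono (by linarith)
      have e4 : Q ≤ (N : ℝ) ^ ((3 : ℝ) / 5 + 3 * δ) := hQu'.trans (hmono (by linarith))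
      have e5 : (P / ∏ i, (t i : ℝ)) * (P / Q + (K 0 : ℝ) * K 1 + (K 2 : ℝ) * K 3 * K 4 + Q) ≤
          (P / Real.sqrt Q) ^ 2 + 3 * ((N : ℝ) ^ ((4 : ℝ) / 5 - δ)) ^ 2 := by
        have a1 : (P / ∏ i, (t i : ℝ)) * (P / Q) ≤ (P / Real.sqrt Q) ^ 2 := by
          rw [div_pow, Real.sq_sqrt (by linarith), sq, mul_div_assoc]
          exact mul_le_mul_of_nonneg_right hPG1 (by positivity)
        have a2 : (P / ∏ i, (t i : ℝ)) * ((K 0 : ℝ) * K 1 + (K 2 : ℝ) * K 3 * K 4 + Q) ≤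
            (N : ℝ) ^ (1 - γ) * (3 * (N : ℝ) ^ ((3 : ℝ) / 5 + 3 * δ)) :=
          mul_le_mul hPG (by linarith) (by positivity) (by positivity)
        have a3 : (N : ℝ) ^ (1 - γ) * (3 * (N : ℝ) ^ ((3 : ℝ) / 5 + 3 * δ)) =
            3 * (N : ℝ) ^ (1 - γ + ((3 : ℝ) / 5 + 3 * δ)) := by
          rw [Real.rpow_add hN0 (1 - γ)]
          ring
        have a4 : (N : ℝ) ^ (1 - γ + ((3 : ℝ) / 5 + 3 * δ)) ≤ ((N : ℝ) ^ ((4 : ℝ) / 5 - δ)) ^ 2 := by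
          rw [← Real.rpow_natCast ((N : ℝ) ^ ((4 : ℝ) / 5 - δ)) 2, ← Real.rpow_mul hN0.le]
          refine hmono ?_
          push_cast
          linarith
        have a5 : (P / ∏ i, (t i : ℝ)) * (P / Q + (K 0 : ℝ) * K 1 + (K 2 : ℝ) * K 3 * K 4 + Q) =
            (P / ∏ i, (t i : ℝ)) * (P / Q) + (P / ∏ i, (t i : ℝ)) * ((K 0 : ℝ) * K 1 + (K 2 : ℝ) * K 3 * K 4 + Q) := by
          ring
        rw [a5]
        linarith
      have hu0 : 0 ≤ P / Real.sqrt Q := by positivity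
      have hv0 : 0 ≤ (N : ℝ) ^ ((4 : ℝ) / 5 - δ) := by positivity
      have e6 : (P / Real.sqrt Q) ^ 2 + 3 * ((N : ℝ) ^ ((4 : ℝ) / 5 - δ)) ^ 2 ≤
          (2 * (P / Real.sqrt Q + (N : ℝ) ^ ((4 : ℝ) / 5 - δ))) ^ 2 := by
        nlinarith [mul_nonneg hu0 hv0]
      have e7 : C1 * (N : ℝ) ^ ε = (Real.sqrt C1 * (N : ℝ) ^ (ε / 2)) ^ 2 := by
        rw [mul_pow, Real.sq_sqrt hC1.le, ← Real.rpow_natCast ((N : ℝ) ^ (ε / 2)) 2, ← Real.rpow_mul hN0.le]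
        congr 2
        push_cast
        ring
      have h6 : ‖SX (∏ i, gp q (t i) (f i)) (X / ∏ i, t i) (((∏ i, t i : ℕ) : ℝ) * x)‖ ^ 2 ≤
          (2 * Real.sqrt C1 * (N : ℝ) ^ (ε / 2) * (P / Real.sqrt Q + (N : ℝ) ^ ((4 : ℝ) / 5 - δ))) ^ 2 := by
        calc _ ≤ C1 * (N : ℝ) ^ ε * (P / ∏ i, (t i : ℝ)) *
              (P / Q + (K 0 : ℝ) * K 1 + (K 2 : ℝ) * K 3 * K 4 + Q) := h1
          _ = (Real.sqrt C1 * (N : ℝ) ^ (ε / 2)) ^ 2 * ((P / ∏ i, (t i : ℝ)) *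
              (P / Q + (K 0 : ℝ) * K 1 + (K 2 : ℝ) * K 3 * K 4 + Q)) := by rw [e7]; ring
          _ ≤ (Real.sqrt C1 * (N : ℝ) ^ (ε / 2)) ^ 2 *
              (2 * (P / Real.sqrt Q + (N : ℝ) ^ ((4 : ℝ) / 5 - δ))) ^ 2 :=
              mul_le_mul_of_nonneg_left (e5.trans e6) (by positivity)
          _ = _ := by ring
      have h7 := abs_le_of_sq_le_sq' h6 (by positivity)
      calc _ ≤ 2 * Real.sqrt C1 * (N : ℝ) ^ (ε / 2) * (P / Real.sqrt Q + (N : ℝ) ^ ((4 : ℝ) / 5 - δ)) := h7.2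
        _ ≤ _ := mul_le_mul_of_nonneg_right (mul_le_mul_of_nonneg_right (by linarith) (by positivity)) hR0
  have h5 := five_dec_x hq f X x hB
  rw [← hPdef, ← hQ]
  refine h5.trans ?_
  have hd : (q.divisors.card : ℝ) ^ 5 ≤ C2 ^ 5 * (N : ℝ) ^ (ε / 2) := by
    have h1 := hD q (by omega)
    have h2 : (q : ℝ) ^ (ε / 10) ≤ (N : ℝ) ^ (ε / 10) := Real.rpow_le_rpow (by positivity) hqN (by positivity)
    calc (q.divisors.card : ℝ) ^ 5 ≤ (C2 * (N : ℝ) ^ (ε / 10)) ^ 5 :=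
          pow_le_pow_left₀ (by positivity) (h1.trans (mul_le_mul_of_nonneg_left h2 hC2.le)) 5
      _ = C2 ^ 5 * (N : ℝ) ^ (ε / 2) := by
          rw [mul_pow, ← Real.rpow_natCast ((N : ℝ) ^ (ε / 10)) 5, ← Real.rpow_mul hN0.le]
          congr 2
          push_cast
          ring
  have hE : (N : ℝ) ^ (ε / 2) * (N : ℝ) ^ (ε / 2) = (N : ℝ) ^ ε := by
    rw [← Real.rpow_add hN0]
    congr 1
    ring
  calc (q.divisors.card : ℝ) ^ 5 * ((CF + 2 * Real.sqrt C1) * (N : ℝ) ^ (ε / 2) *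
        (P / Real.sqrt Q + (N : ℝ) ^ ((4 : ℝ) / 5 - δ)))
      ≤ (C2 ^ 5 * (N : ℝ) ^ (ε / 2)) * ((CF + 2 * Real.sqrt C1) * (N : ℝ) ^ (ε / 2) *
        (P / Real.sqrt Q + (N : ℝ) ^ ((4 : ℝ) / 5 - δ))) :=
        mul_le_mul_of_nonneg_right hd (by positivity)
    _ = C2 ^ 5 * (CF + 2 * Real.sqrt C1) * ((N : ℝ) ^ (ε / 2) * (N : ℝ) ^ (ε / 2)) *
        (P / Real.sqrt Q + (N : ℝ) ^ ((4 : ℝ) / 5 - δ)) := by ring
    _ = _ := by rw [hE]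

end Pool.Helper19.V5
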