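import Pool.Agent.Helper19.V5.DyadX
import Pool.Agent.Helper19.V5.CombX
import Pool.Agent.Helper19.V5.BoxOneX
import Pool.Agent.Helper19.V5.BoxTwoX
import Pool.Agent.Helper19.V5.FiveBoxX
import Pool.Agent.Helper19.V5.QuinticX
import Pool.Agent.Helper19.V4.Final
import Pool.Agent.Helper7.GPC.Div

/-!
# V5-12: the Moebius sum for `Q ≤ N^(1/2 - c0)`

`β = x - a/q`, `Q = QQ N x a q`. `appr` with `M = N`: a fraction `c/r` with `N/r + r ≤ 4 (N/Q + Q)`, for `box_one_x`, `box_two_x`. A box with `W = ∏ K ≤ M ≤ N`: as in `V4/Final.lean`. In the case of five variables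
(`comb_x`: `σ > 1 - 2 d`, so every `K i`, `i ∈ T`, is `≥ N^(1/5 - 16 d)`): `five_box_x`, `R = ∏_{Tᶜ} K`, `P = ∏_T K`; for `R ≤ r ≤ 16 R` the point `r x` has the fraction `a (r/g)/(q/g)`, `g = gcd(r, q)`, and
`QQ P (r x) .. = (q/g)(1 + P r |β|)`, between `(q/g)(1 + W |β|)` and `16 Q`: `quintic_x` gives `P √g / √(q (1 + W |β|)) + N^(4/5 - δ)`; `∑_r √g ≤ 16 R d(q)` (`gcd_sum`); `W / √(q (1 + W |β|)) ≤ N/√Q`.
-/

namespace Pool.Helper19.V5

open ArithmeticFunction Finset Pool.Helper19.V4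

private lemma log_pow62 {e : ℝ} (he : 0 < e) : ∃ C : ℝ, 0 < C ∧ ∀ N : ℕ, 1 ≤ N →
    ((Nat.log 2 N : ℝ) + 1) ^ 9 ≤ C * (N : ℝ) ^ e := by
  have hl : 0 < Real.log 2 := Real.log_pos one_lt_two
  refine ⟨(1 / (e / 9) / Real.log 2 + 1) ^ 9, by positivity, fun N hN => ?_⟩
  have hN1 : (1 : ℝ) ≤ N := by exact_mod_cast hN
  have hN0 : (0 : ℝ) < N := by linarith
  have h1 : (Nat.log 2 N : ℝ) ≤ Real.logb 2 N := by exact_mod_cast Real.natLog_le_logb N 2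
  have h2 : Real.log N ≤ (N : ℝ) ^ (e / 9) / (e / 9) := Real.log_le_rpow_div hN0.le (by positivity)
  have h3 : (1 : ℝ) ≤ (N : ℝ) ^ (e / 9) := Real.one_le_rpow hN1 (by positivity)
  have h4 : (Nat.log 2 N : ℝ) + 1 ≤ (1 / (e / 9) / Real.log 2 + 1) * (N : ℝ) ^ (e / 9) := by
    have h5 : Real.logb 2 N ≤ ((N : ℝ) ^ (e / 9) / (e / 9)) / Real.log 2 := by
      unfold Real.logb
      gcongr
    have h6 : ((N : ℝ) ^ (e / 9) / (e / 9)) / Real.log 2 = (1 / (e / 9) / Real.log 2) * (N : ℝ) ^ (e / 9) := by ring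
    rw [h6] at h5
    nlinarith
  have h7 : ((N : ℝ) ^ (e / 9)) ^ 9 = (N : ℝ) ^ e := by
    rw [← Real.rpow_natCast, ← Real.rpow_mul hN0.le]
    congr 1
    push_cast
    ring
  calc ((Nat.log 2 N : ℝ) + 1) ^ 9 ≤ ((1 / (e / 9) / Real.log 2 + 1) * (N : ℝ) ^ (e / 9)) ^ 9 :=
        pow_le_pow_left₀ (by positivity) h4 9
    _ = _ := by rw [mul_pow, h7]

private lemma ev_ge62 {e : ℝ} (he : 0 < e) (c : ℝ) : ∃ N0 : ℕ, ∀ N : ℕ, N0 ≤ N → c ≤ (N : ℝ) ^ e := by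
  have ht : Filter.Tendsto (fun N : ℕ => ((N : ℝ)) ^ e) Filter.atTop Filter.atTop :=
    (tendsto_rpow_atTop he).comp tendsto_natCast_atTop_atTop
  exact Filter.eventually_atTop.1 (ht.eventually_ge_atTop c)

private lemma zed62 {e : ℝ} (he : 0 < e) : ∃ N0 : ℕ, ∀ N : ℕ, N0 ≤ N →
    (⌈(N : ℝ) ^ ((1 : ℝ) / 5)⌉₊ : ℝ) ≤ (N : ℝ) ^ ((1 : ℝ) / 5 + e) := by
  obtain ⟨N0, h0⟩ := ev_ge62 he 2
  refine ⟨max N0 1, fun N hN => ?_⟩
  have hN0 : N0 ≤ N := (le_max_left _ _).trans hN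
  have hN1 : 1 ≤ N := (le_max_right _ _).trans hN
  have hNr : (1 : ℝ) ≤ N := by exact_mod_cast hN1
  have h1 : (1 : ℝ) ≤ (N : ℝ) ^ ((1 : ℝ) / 5) := Real.one_le_rpow hNr (by norm_num)
  have h2 := (Nat.ceil_lt_add_one (show (0 : ℝ) ≤ (N : ℝ) ^ ((1 : ℝ) / 5) by positivity)).le
  have h3 := h0 N hN0
  rw [Real.rpow_add (by linarith)]
  nlinarith

/-- the sum of the square roots of the common factors -/
private lemma sum_sqrt_gcd62 (R : ℕ) (hR : 1 ≤ R) {q : ℕ} (hq : 1 ≤ q) :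
    ∑ r ∈ Icc R (16 * R), Real.sqrt (Nat.gcd r q : ℝ) ≤ 16 * R * (q.divisors.card : ℝ) := by
  have h1 := gcd_sum (16 * R) hq
  have h2 : ∑ r ∈ Icc R (16 * R), Real.sqrt (Nat.gcd r q : ℝ) ≤ ∑ r ∈ Icc 1 (16 * R), (Nat.gcd r q : ℝ) := by
    calc ∑ r ∈ Icc R (16 * R), Real.sqrt (Nat.gcd r q : ℝ) ≤ ∑ r ∈ Icc R (16 * R), (Nat.gcd r q : ℝ) := by
          refine Finset.sum_le_sum fun r _ => ?_
          have h3 : 1 ≤ Nat.gcd r q := Nat.gcd_pos_of_pos_right _ (by omega)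
          have h4 : (1 : ℝ) ≤ (Nat.gcd r q : ℝ) := by exact_mod_cast h3
          exact Real.sqrt_le_iff.2 ⟨by positivity, by nlinarith⟩
      _ ≤ _ := Finset.sum_le_sum_of_subset_of_nonneg (Finset.Icc_subset_Icc_left hR) fun _ _ _ => by positivity
  push_cast at h1
  linarith

/-- the five variable case: the bound for one short factor -/
private lemma QQ_bounds62 {q R r P W N : ℕ} {x : ℝ} {a : ℤ} (hq : 1 ≤ q) (hr : 1 ≤ r) (hRr : R ≤ r)
    (hr16 : r ≤ 16 * R) (hW : P * R = W) (hWN : W ≤ N) :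
    (q : ℝ) * (1 + W * |x - a / q|) ≤ Nat.gcd r q * QQ (P : ℝ) (r * x) (a * ((r / Nat.gcd r q : ℕ) : ℤ)) (q / Nat.gcd r q) ∧
    QQ (P : ℝ) (r * x) (a * ((r / Nat.gcd r q : ℕ) : ℤ)) (q / Nat.gcd r q) ≤ 16 * QQ N x a q := by
  have hg1 : 1 ≤ Nat.gcd r q := Nat.gcd_pos_of_pos_right _ (by omega)
  have hg : (1 : ℝ) ≤ (Nat.gcd r q : ℝ) := by exact_mod_cast hg1
  have hg0 : (0 : ℝ) < (Nat.gcd r q : ℝ) := by linarith
  have hq0 : (0 : ℝ) < q := by exact_mod_cast hq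
  obtain ⟨b, hb⟩ : ∃ b : ℝ, b = |x - a / q| := ⟨_, rfl⟩
  have hb0 : 0 ≤ b := by rw [hb]; exact abs_nonneg _
  have hWr : (W : ℝ) ≤ P * r := by
    rw [← hW]
    push_cast
    have : (R : ℝ) ≤ r := by exact_mod_cast hRr
    exact mul_le_mul_of_nonneg_left this (by positivity)
  have hrW : (P : ℝ) * r ≤ 16 * W := by
    rw [← hW]
    push_cast
    have : (r : ℝ) ≤ 16 * R := by exact_mod_cast hr16
    nlinarith [(Nat.cast_nonneg P : (0 : ℝ) ≤ P)]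
  have hWN' : (W : ℝ) ≤ N := by exact_mod_cast hWN
  rw [QQ_mul hq hr, ← hb]
  constructor
  · have e1 : (Nat.gcd r q : ℝ) * ((q : ℝ) / Nat.gcd r q * (1 + P * r * b)) = q * (1 + P * r * b) := by
      field_simp
    rw [e1]
    have e2 : (W : ℝ) * b ≤ P * r * b := mul_le_mul_of_nonneg_right hWr hb0
    exact mul_le_mul_of_nonneg_left (by linarith) hq0.le
  · unfold QQ
    rw [← hb]
    have e1 : (q : ℝ) / Nat.gcd r q ≤ q := div_le_self hq0.le hg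
    have e2 : (P : ℝ) * r * b ≤ 16 * (N * b) := by
      calc (P : ℝ) * r * b ≤ 16 * W * b := mul_le_mul_of_nonneg_right hrW hb0
        _ ≤ 16 * N * b := by gcongr
        _ = _ := by ring
    have e3 : 0 ≤ (P : ℝ) * r * b := by positivity
    have e4 : 0 ≤ (N : ℝ) * b := by positivity
    calc (q : ℝ) / Nat.gcd r q * (1 + P * r * b) ≤ q * (1 + P * r * b) :=
          mul_le_mul_of_nonneg_right e1 (by linarith)
      _ ≤ q * (16 * (1 + N * b)) := mul_le_mul_of_nonneg_left (by linarith) hq0.le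
      _ = _ := by ring

/-- all boxes -/
private lemma boxes62 {κ κ' : ℝ} (hκ : κ ≤ 0 ∨ κ < κ') (h : FIVE κ) {c0 : ℝ} (hc0 : 0 < c0) :
    ∃ d : ℝ, 0 < d ∧ d ≤ 1 / 1000 ∧ ∀ ε : ℝ, 0 < ε → ∃ C : ℝ, 0 < C ∧ ∃ N0 : ℕ, 2 ≤ N0 ∧ ∀ N : ℕ, N0 ≤ N →
      ∀ (x : ℝ) (a : ℤ) (q : ℕ), 1 ≤ q → IsCoprime a (q : ℤ) →
      (N : ℝ) ^ κ' ≤ QQ N x a q → QQ N x a q ≤ (N : ℝ) ^ ((1 : ℝ) / 2 - c0) →
      ∀ M ≤ N, ∀ k ≤ 9, ∀ (f : Fin k → ArithmeticFunction ℂ) (K : Fin k → ℕ), (∀ i, Pc (K i) (f i)) →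
      (∀ i, Sm (K i) (f i) ∨ K i ≤ ⌈(N : ℝ) ^ ((1 : ℝ) / 5)⌉₊) → ‖SX (∏ i, f i) M x‖ ≤
        C * (N : ℝ) ^ ε * ((N : ℝ) / Real.sqrt (QQ N x a q) + (N : ℝ) ^ ((4 : ℝ) / 5 - d)) := by
  classical
  obtain ⟨κ'', e, he, hκ1, hκ2⟩ : ∃ κ'' e : ℝ, 0 < e ∧ (κ ≤ 0 ∨ κ < κ'') ∧ (κ'' ≤ 0 ∨ κ'' + e ≤ κ') := by
    rcases hκ with hκ | hκ
    · exact ⟨0, 1, one_pos, Or.inl hκ, Or.inl le_rfl⟩
    · exact ⟨(κ + κ') / 2, (κ' - κ) / 2, by linarith, Or.inr (by linarith), Or.inr (by linarith)⟩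
  obtain ⟨δ, hδ, hquin⟩ := quintic_x hκ1 h (c0 := c0 / 2) (by positivity)
  obtain ⟨d, hd⟩ : ∃ d : ℝ, d = min (1 / 1000) (min (δ / 16) (e / 24)) := ⟨_, rfl⟩
  have hd0 : 0 < d := by
    rw [hd]
    exact lt_min (by norm_num) (lt_min (by positivity) (by positivity))
  have hd1 : d ≤ 1 / 1000 := by rw [hd]; exact min_le_left _ _
  have hd2 : 16 * d ≤ δ := by
    have : d ≤ δ / 16 := by rw [hd]; exact (min_le_right _ _).trans (min_le_left _ _)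
    linarith
  have hd3 : 12 * d ≤ e / 2 := by
    have : d ≤ e / 24 := by rw [hd]; exact (min_le_right _ _).trans (min_le_right _ _)
    linarith
  refine ⟨d, hd0, hd1, fun ε hε => ?_⟩
  obtain ⟨e1, he1⟩ : ∃ e1 : ℝ, e1 = ε / 3 := ⟨_, rfl⟩
  have he10 : 0 < e1 := by rw [he1]; positivity
  obtain ⟨C1, hC1, h1⟩ := box_one_x hε
  obtain ⟨C2, hC2, h2⟩ := box_two_x hε
  obtain ⟨C3, hC3, h3⟩ := five_box_x he10
  obtain ⟨C5, hC5, hq5⟩ := hquin e1 he10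
  obtain ⟨C4, hC4, h4⟩ := Pool.Agent.Helper7.GPC.card_divisors_le he10
  obtain ⟨N1, hN1⟩ := zed62 hd0
  obtain ⟨N2, hN2⟩ := ev_ge62 (e := e / 2) (by positivity) 16
  obtain ⟨N3, hN3⟩ := ev_ge62 (e := c0 / 2) (by positivity) 16
  refine ⟨5 * C1 + Real.sqrt (6 * C2) + 16 * C3 * C5 * C4, by positivity, max (max N1 N2) (max N3 2),
    (le_max_right _ _).trans (le_max_right _ _), fun N hN x a q hq haq hQ0 hQ1 M hM k hk f K hf hsm => ?_⟩
  have hNa : N1 ≤ N := ((le_max_left _ _).trans (le_max_left _ _)).trans hN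
  have hNb : N2 ≤ N := ((le_max_right _ _).trans (le_max_left _ _)).trans hN
  have hNd : N3 ≤ N := ((le_max_left _ _).trans (le_max_right _ _)).trans hN
  have hNc : 2 ≤ N := ((le_max_right _ _).trans (le_max_right _ _)).trans hN
  have hNr : (2 : ℝ) ≤ N := by exact_mod_cast hNc
  have hN1r : (1 : ℝ) ≤ N := by linarith
  have hNp : (0 : ℝ) < N := by linarith
  have hq0 : (0 : ℝ) < q := by exact_mod_cast hq
  have hmono : ∀ {x y : ℝ}, x ≤ y → (N : ℝ) ^ x ≤ (N : ℝ) ^ y := fun hxy => Real.rpow_le_rpow_of_exponent_le hN1r hxy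
  obtain ⟨Q, hQ⟩ : ∃ Q : ℝ, Q = QQ N x a q := ⟨_, rfl⟩
  rw [← hQ] at hQ0 hQ1 ⊢
  have hQ2 : 1 ≤ Q := by rw [hQ]; exact QQ_pos (by positivity) hq
  have hQp : 0 < Q := by linarith
  have hsQ : 0 < Real.sqrt Q := Real.sqrt_pos.2 hQp
  have hsQ1 : Real.sqrt Q ≤ Q := Real.sqrt_le_iff.2 ⟨hQp.le, by nlinarith⟩
  obtain ⟨A, hA⟩ : ∃ A : ℝ, A = (N : ℝ) / Real.sqrt Q := ⟨_, rfl⟩
  obtain ⟨Z, hZ⟩ : ∃ Z : ℝ, Z = (N : ℝ) ^ ((4 : ℝ) / 5 - d) := ⟨_, rfl⟩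
  have hA0 : 0 < A := by rw [hA]; positivity
  have hZ0 : 0 < Z := by rw [hZ]; positivity
  have hNQ : (N : ℝ) / Q ≤ A := by
    rw [hA]
    exact div_le_div_of_nonneg_left hNp.le hsQ hsQ1
  have hAA : A ^ 2 = (N : ℝ) ^ 2 / Q := by
    rw [hA, div_pow, Real.sq_sqrt hQp.le]
  have hQZ : Q ≤ Z := by
    rw [hZ]
    exact hQ1.trans (hmono (by linarith))
  have hQN : Q ≤ N := hQ1.trans ((hmono (show (1 : ℝ) / 2 - c0 ≤ 1 by linarith)).trans (le_of_eq (Real.rpow_one _)))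
  have hqN : (q : ℝ) ≤ N := by
    refine le_trans ?_ hQN
    rw [hQ]
    exact QQ_ge (by positivity)
  rw [← hA, ← hZ]
  rcases lt_or_ge M (∏ i, K i) with hlt | hge
  · rw [SX_zero hf hlt, norm_zero]
    positivity
  have hPN : ∏ i, K i ≤ N := hge.trans hM
  have hε1 : 1 ≤ (N : ℝ) ^ ε := Real.one_le_rpow hN1r hε.le
  have hε0 : 0 < (N : ℝ) ^ ε := by positivity
  have hC1' : 0 ≤ 5 * C1 * (N : ℝ) ^ ε * (A + Z) := by positivity
  have hC2' : 0 ≤ Real.sqrt (6 * C2) * (N : ℝ) ^ ε * (A + Z) := by positivity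
  have hC3' : 0 ≤ 16 * C3 * C5 * C4 * (N : ℝ) ^ ε * (A + Z) := by positivity
  have hsum : (5 * C1 + Real.sqrt (6 * C2) + 16 * C3 * C5 * C4) * (N : ℝ) ^ ε * (A + Z) =
      5 * C1 * (N : ℝ) ^ ε * (A + Z) + Real.sqrt (6 * C2) * (N : ℝ) ^ ε * (A + Z) +
        16 * C3 * C5 * C4 * (N : ℝ) ^ ε * (A + Z) := by ring
  rw [hsum]
  -- the approximation
  obtain ⟨c, r0, hr0, hcr, hxr, hle⟩ := appr hq haq x hNp
  rw [← hQ] at hle
  have hr0p : (0 : ℝ) < r0 := by exact_mod_cast hr0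
  by_cases hbig : ∃ i, (N : ℝ) ^ ((1 : ℝ) / 5 + d) < K i
  · obtain ⟨i0, hi0⟩ := hbig
    have hS : Sm (K i0) (f i0) := by
      rcases hsm i0 with h | h
      · exact h
      · exfalso
        have e1 : (K i0 : ℝ) ≤ (⌈(N : ℝ) ^ ((1 : ℝ) / 5)⌉₊ : ℝ) := by exact_mod_cast h
        have e2 := hN1 N hNa
        linarith
    have f1 := h1 N hNc x c r0 hr0 hcr hxr k hk f K hf i0 hS M hM
    have f2 : (N : ℝ) / K i0 ≤ Z := by
      have h0 : 0 < (N : ℝ) ^ ((1 : ℝ) / 5 + d) := by positivity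
      have h4 : Z = N / (N : ℝ) ^ ((1 : ℝ) / 5 + d) := by
        rw [eq_div_iff h0.ne', hZ, ← Real.rpow_add hNp]
        have : (4 : ℝ) / 5 - d + (1 / 5 + d) = 1 := by ring
        rw [this, Real.rpow_one]
      rw [h4]
      exact div_le_div_of_nonneg_left hNp.le h0 hi0.le
    have f3 : (N : ℝ) / r0 + (N : ℝ) / K i0 + r0 ≤ 5 * (A + Z) := by linarith
    have f4 : C1 * (N : ℝ) ^ ε * ((N : ℝ) / r0 + (N : ℝ) / K i0 + r0) ≤ 5 * C1 * (N : ℝ) ^ ε * (A + Z) := by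
      calc C1 * (N : ℝ) ^ ε * ((N : ℝ) / r0 + (N : ℝ) / K i0 + r0) ≤ C1 * (N : ℝ) ^ ε * (5 * (A + Z)) :=
            mul_le_mul_of_nonneg_left f3 (by positivity)
        _ = _ := by ring
    linarith
  push Not at hbig
  -- exponents
  have hK1 : ∀ i, (1 : ℝ) ≤ K i := fun i => by exact_mod_cast (hf i).pos
  have hKp : ∀ i, (0 : ℝ) < K i := fun i => lt_of_lt_of_le one_pos (hK1 i)
  obtain ⟨α, hα⟩ : ∃ α : Fin k → ℝ, α = fun i => Real.logb N (K i) := ⟨_, rfl⟩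
  have hαK : ∀ i, (N : ℝ) ^ α i = K i := fun i => by rw [hα]; exact Real.rpow_logb hNp (by linarith) (hKp i)
  have hα0 : ∀ i, 0 ≤ α i := fun i => by rw [hα]; exact Real.logb_nonneg (by linarith) (hK1 i)
  have hαS : ∀ S : Finset (Fin k), ∏ i ∈ S, (K i : ℝ) = (N : ℝ) ^ ∑ i ∈ S, α i := by
    intro S
    rw [Real.rpow_sum_of_pos hNp]
    exact (Finset.prod_congr rfl fun i _ => hαK i).symm
  have hα1 : ∀ i, α i ≤ 1 / 5 + d := by
    intro i
    rw [← Real.rpow_le_rpow_left_iff (x := (N : ℝ)) (by linarith), hαK]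
    exact hbig i
  have hσ : ∑ i, α i ≤ 1 := by
    rw [← Real.rpow_le_rpow_left_iff (x := (N : ℝ)) (by linarith), ← hαS, Real.rpow_one]
    exact_mod_cast hPN
  obtain ⟨σ, hσd⟩ : ∃ σ : ℝ, σ = ∑ i, α i := ⟨_, rfl⟩
  have hσ0 : 0 ≤ σ := by rw [hσd]; exact Finset.sum_nonneg fun i _ => hα0 i
  rcases comb_x α hd0 hd1 hα0 hα1 hσ with ⟨T, hT1, hT2⟩ | ⟨hσ2, T, hT, hTc⟩
  · -- bilinear
    have f1 := h2 N hNc x c r0 hr0 hcr hxr k hk f K hf T M hM
    have hsplit : ∑ i ∈ T, α i + ∑ i ∈ Tᶜ, α i = σ := by rw [hσd]; exact Finset.sum_add_sum_compl T α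
    rw [hαS T, hαS Tᶜ] at f1
    rw [← hσd] at hT1 hT2 hσ
    obtain ⟨s, hs⟩ : ∃ s : ℝ, s = ∑ i ∈ T, α i := ⟨_, rfl⟩
    have hs' : ∑ i ∈ Tᶜ, α i = σ - s := by linarith
    rw [hs', ← hs] at f1
    rw [← hs] at hT1 hT2
    rw [← Real.rpow_add hNp] at f1
    have e0 : s + (σ - s) = σ := by ring
    rw [e0] at f1
    have hNσ : (N : ℝ) ^ σ ≤ N := (hmono hσ).trans (le_of_eq (Real.rpow_one _))
    have hNσ0 : 0 < (N : ℝ) ^ σ := by positivity
    have hZZ : Z ^ 2 = (N : ℝ) ^ ((8 : ℝ) / 5 - 2 * d) := by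
      rw [hZ, ← Real.rpow_natCast, ← Real.rpow_mul hNp.le]
      congr 1
      push_cast
      ring
    have t2 : (N : ℝ) ^ σ * (N : ℝ) ^ s ≤ Z ^ 2 := by
      rw [hZZ, ← Real.rpow_add hNp]
      exact hmono (by linarith)
    have t3 : (N : ℝ) ^ σ * (N : ℝ) ^ (σ - s) ≤ Z ^ 2 := by
      rw [hZZ, ← Real.rpow_add hNp]
      exact hmono (by linarith)
    have t1 : (N : ℝ) ^ σ * ((N : ℝ) ^ σ / r0 + r0) ≤ 4 * A ^ 2 + 4 * Z ^ 2 := by
      calc (N : ℝ) ^ σ * ((N : ℝ) ^ σ / r0 + r0) ≤ N * (N / r0 + r0) := by gcongr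
        _ ≤ N * (4 * (N / Q + Q)) := mul_le_mul_of_nonneg_left hle hNp.le
        _ = 4 * ((N : ℝ) ^ 2 / Q) + 4 * (N * Q) := by ring
        _ ≤ 4 * A ^ 2 + 4 * Z ^ 2 := by
          rw [hAA, hZZ]
          have : (N : ℝ) * Q ≤ (N : ℝ) ^ ((8 : ℝ) / 5 - 2 * d) := by
            calc (N : ℝ) * Q ≤ (N : ℝ) ^ (1 : ℝ) * (N : ℝ) ^ ((1 : ℝ) / 2 - c0) := by
                  rw [Real.rpow_one]
                  gcongr
              _ = (N : ℝ) ^ (1 + ((1 : ℝ) / 2 - c0)) := by rw [Real.rpow_add hNp]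
              _ ≤ _ := hmono (by linarith)
          linarith
    have f2 : ‖SX (∏ i, f i) M x‖ ^ 2 ≤ (Real.sqrt (6 * C2) * (N : ℝ) ^ ε * (A + Z)) ^ 2 := by
      refine f1.trans ?_
      have f3 : C2 * (N : ℝ) ^ ε * (N : ℝ) ^ σ * ((N : ℝ) ^ σ / r0 + (N : ℝ) ^ s + (N : ℝ) ^ (σ - s) + r0) =
          C2 * (N : ℝ) ^ ε * ((N : ℝ) ^ σ * ((N : ℝ) ^ σ / r0 + r0) + (N : ℝ) ^ σ * (N : ℝ) ^ s + (N : ℝ) ^ σ * (N : ℝ) ^ (σ - s)) := by
        ring
      rw [f3]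
      have f4 : (Real.sqrt (6 * C2) * (N : ℝ) ^ ε * (A + Z)) ^ 2 = C2 * (N : ℝ) ^ ε * ((N : ℝ) ^ ε * (6 * (A + Z) ^ 2)) := by
        rw [mul_pow, mul_pow, Real.sq_sqrt (by positivity)]
        ring
      rw [f4]
      refine mul_le_mul_of_nonneg_left ?_ (by positivity)
      have f5 : A ^ 2 + Z ^ 2 ≤ (A + Z) ^ 2 := by nlinarith [mul_pos hA0 hZ0]
      have f6 : 0 ≤ 6 * (A + Z) ^ 2 := by positivity
      have f7 : 6 * (A + Z) ^ 2 ≤ (N : ℝ) ^ ε * (6 * (A + Z) ^ 2) := le_mul_of_one_le_left f6 hε1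
      have f8 : 0 ≤ A ^ 2 := by positivity
      linarith
    have f3 : ‖SX (∏ i, f i) M x‖ ≤ Real.sqrt (6 * C2) * (N : ℝ) ^ ε * (A + Z) :=
      (sq_le_sq₀ (norm_nonneg _) hC2').1 f2
    linarith
  · -- five variables
    obtain ⟨R, hRdef⟩ : ∃ R : ℕ, R = ∏ i ∈ Tᶜ, K i := ⟨_, rfl⟩
    obtain ⟨P, hPdef⟩ : ∃ P : ℕ, P = ∏ i ∈ T, K i := ⟨_, rfl⟩
    obtain ⟨W, hWdef⟩ : ∃ W : ℕ, W = ∏ i, K i := ⟨_, rfl⟩
    have hPR : P * R = W := by rw [hPdef, hRdef, hWdef]; exact Finset.prod_mul_prod_compl T K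
    have hR1 : 1 ≤ R := by rw [hRdef]; exact Nat.succ_le_of_lt (Finset.prod_pos fun i _ => (hf i).pos)
    have hP1 : 1 ≤ P := by rw [hPdef]; exact Nat.succ_le_of_lt (Finset.prod_pos fun i _ => (hf i).pos)
    have hWN : W ≤ N := by rw [hWdef]; exact hPN
    have hRr : (R : ℝ) ≤ (N : ℝ) ^ (10 * d) := by
      have : (R : ℝ) = ∏ i ∈ Tᶜ, (K i : ℝ) := by rw [hRdef]; push_cast; rfl
      rw [this, hαS Tᶜ]
      exact hmono hTc
    have hR0 : (0 : ℝ) < R := by exact_mod_cast hR1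
    have hP0 : (0 : ℝ) < P := by exact_mod_cast hP1
    have hW0 : (0 : ℝ) < W := by
      rw [← hPR]
      push_cast
      positivity
    have hWN' : (W : ℝ) ≤ N := by exact_mod_cast hWN
    have hNW : (N : ℝ) ≤ (N : ℝ) ^ (2 * d) * W := by
      have e2 : (W : ℝ) = (N : ℝ) ^ σ := by
        have : (W : ℝ) = ∏ i, (K i : ℝ) := by rw [hWdef]; push_cast; rfl
        rw [this, hσd]
        exact hαS Finset.univ
      rw [e2, ← Real.rpow_add hNp]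
      calc (N : ℝ) = (N : ℝ) ^ (1 : ℝ) := (Real.rpow_one _).symm
        _ ≤ _ := hmono (by rw [hσd]; linarith)
    obtain ⟨b, hb⟩ : ∃ b : ℝ, b = |x - a / q| := ⟨_, rfl⟩
    have hb0 : 0 ≤ b := by rw [hb]; exact abs_nonneg _
    obtain ⟨D, hD⟩ : ∃ D : ℝ, D = (q : ℝ) * (1 + W * b) := ⟨_, rfl⟩
    have hD0 : 0 < D := by rw [hD]; positivity
    have hsD : 0 < Real.sqrt D := Real.sqrt_pos.2 hD0
    have hQD : Q ≤ (N : ℝ) ^ (2 * d) * D := by
      have e2 : (1 : ℝ) ≤ (N : ℝ) ^ (2 * d) := Real.one_le_rpow hN1r (by positivity)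
      rw [hQ, hD]
      unfold QQ
      rw [← hb]
      have e3 : (N : ℝ) * b ≤ (N : ℝ) ^ (2 * d) * W * b := mul_le_mul_of_nonneg_right hNW hb0
      calc (q : ℝ) * (1 + N * b) ≤ q * ((N : ℝ) ^ (2 * d) * (1 + W * b)) :=
            mul_le_mul_of_nonneg_left (by linarith) hq0.le
        _ = _ := by ring
    obtain ⟨Bd, hBd⟩ : ∃ Bd : ℕ → ℝ, Bd = fun r => C5 * (N : ℝ) ^ e1 * (P * Real.sqrt (Nat.gcd r q : ℝ) / Real.sqrt D +
      (N : ℝ) ^ ((4 : ℝ) / 5 - δ)) := ⟨_, rfl⟩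
    have f1 := h3 N hNc x k hk f K hf T hT Bd (by
      intro r
      rw [hBd]
      positivity) ?_ M hM
    · -- the sum over `r`
      rw [← hRdef] at f1
      have g1 := sum_sqrt_gcd62 R hR1 hq
      have g2 : (q.divisors.card : ℝ) ≤ C4 * (N : ℝ) ^ e1 := by
        refine (h4 q (by omega)).trans ?_
        have : (q : ℝ) ^ e1 ≤ (N : ℝ) ^ e1 := Real.rpow_le_rpow hq0.le hqN he10.le
        exact mul_le_mul_of_nonneg_left this (by linarith)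
      have g3 : ∑ r ∈ Icc R (16 * R), Bd r = C5 * (N : ℝ) ^ e1 * (P / Real.sqrt D * ∑ r ∈ Icc R (16 * R), Real.sqrt (Nat.gcd r q : ℝ) +
          ((Icc R (16 * R)).card : ℝ) * (N : ℝ) ^ ((4 : ℝ) / 5 - δ)) := by
        rw [hBd, ← Finset.mul_sum, Finset.sum_add_distrib, Finset.sum_const, nsmul_eq_mul, Finset.mul_sum]
        congr 2
        refine Finset.sum_congr rfl fun r _ => ?_
        ring
      have g4 : ((Icc R (16 * R)).card : ℝ) ≤ 16 * R := by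
        rw [Nat.card_Icc]
        have : 16 * R + 1 - R ≤ 16 * R := by omega
        exact_mod_cast this
      -- `W / √D ≤ N / √Q`
      have g5 : (W : ℝ) / Real.sqrt D ≤ A := by
        rw [hA, div_le_div_iff₀ hsD hsQ]
        have e2 : ((W : ℝ) * Real.sqrt Q) ^ 2 ≤ (N * Real.sqrt D) ^ 2 := by
          rw [mul_pow, mul_pow, Real.sq_sqrt hQp.le, Real.sq_sqrt hD0.le, hQ, hD]
          unfold QQ
          rw [← hb]
          have e3 : (W : ℝ) ^ 2 ≤ (N : ℝ) ^ 2 := pow_le_pow_left₀ hW0.le hWN' 2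
          have e4 : (W : ℝ) ^ 2 * (N * b) ≤ (N : ℝ) ^ 2 * (W * b) := by
            have : (W : ℝ) * N * b * W ≤ W * N * b * N := mul_le_mul_of_nonneg_left hWN' (by positivity)
            nlinarith
          have e5 : (W : ℝ) ^ 2 * (1 + N * b) ≤ (N : ℝ) ^ 2 * (1 + W * b) := by linarith
          calc (W : ℝ) ^ 2 * (q * (1 + N * b)) = q * ((W : ℝ) ^ 2 * (1 + N * b)) := by ring
            _ ≤ q * ((N : ℝ) ^ 2 * (1 + W * b)) := mul_le_mul_of_nonneg_left e5 hq0.le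
            _ = _ := by ring
        exact (sq_le_sq₀ (by positivity) (by positivity)).1 e2
      have g6 : (P : ℝ) / Real.sqrt D * ∑ r ∈ Icc R (16 * R), Real.sqrt (Nat.gcd r q : ℝ) ≤ 16 * C4 * (N : ℝ) ^ e1 * A := by
        calc (P : ℝ) / Real.sqrt D * ∑ r ∈ Icc R (16 * R), Real.sqrt (Nat.gcd r q : ℝ)
            ≤ P / Real.sqrt D * (16 * R * (C4 * (N : ℝ) ^ e1)) := by
              refine mul_le_mul_of_nonneg_left (g1.trans ?_) (by positivity)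
              exact mul_le_mul_of_nonneg_left g2 (by positivity)
          _ = 16 * C4 * (N : ℝ) ^ e1 * ((W : ℝ) / Real.sqrt D) := by
              rw [← hPR]
              push_cast
              ring
          _ ≤ _ := mul_le_mul_of_nonneg_left g5 (by positivity)
      have g7 : ((Icc R (16 * R)).card : ℝ) * (N : ℝ) ^ ((4 : ℝ) / 5 - δ) ≤ 16 * Z := by
        calc ((Icc R (16 * R)).card : ℝ) * (N : ℝ) ^ ((4 : ℝ) / 5 - δ) ≤ 16 * (N : ℝ) ^ (10 * d) * (N : ℝ) ^ ((4 : ℝ) / 5 - δ) := by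
              refine mul_le_mul_of_nonneg_right (g4.trans ?_) (by positivity)
              linarith
          _ = 16 * (N : ℝ) ^ (10 * d + ((4 : ℝ) / 5 - δ)) := by rw [Real.rpow_add hNp]; ring
          _ ≤ 16 * Z := by
              rw [hZ]
              exact mul_le_mul_of_nonneg_left (hmono (by linarith)) (by norm_num)
      have hN1e : 1 ≤ (N : ℝ) ^ e1 := Real.one_le_rpow hN1r he10.le
      have g8 : (16 : ℝ) * Z ≤ 16 * C4 * (N : ℝ) ^ e1 * Z := by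
        have e2 : (1 : ℝ) ≤ C4 * (N : ℝ) ^ e1 := by nlinarith
        have e3 : 16 * Z * 1 ≤ 16 * Z * (C4 * (N : ℝ) ^ e1) := mul_le_mul_of_nonneg_left e2 (by positivity)
        linarith
      have g9 : ∑ r ∈ Icc R (16 * R), Bd r ≤ C5 * (N : ℝ) ^ e1 * (16 * C4 * (N : ℝ) ^ e1 * (A + Z)) := by
        rw [g3]
        refine mul_le_mul_of_nonneg_left ?_ (by positivity)
        linarith
      have g10 : (N : ℝ) ^ ε = (N : ℝ) ^ e1 * (N : ℝ) ^ e1 * (N : ℝ) ^ e1 := by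
        rw [← Real.rpow_add hNp, ← Real.rpow_add hNp, he1]
        congr 1
        ring
      have g11 : ‖SX (∏ i, f i) M x‖ ≤ 16 * C3 * C5 * C4 * (N : ℝ) ^ ε * (A + Z) := by
        refine f1.trans ?_
        calc C3 * (N : ℝ) ^ e1 * ∑ r ∈ Icc R (16 * R), Bd r ≤
            C3 * (N : ℝ) ^ e1 * (C5 * (N : ℝ) ^ e1 * (16 * C4 * (N : ℝ) ^ e1 * (A + Z))) :=
              mul_le_mul_of_nonneg_left g9 (by positivity)
          _ = _ := by rw [g10]; ring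
      linarith
    · intro r hr hRr' hr16 g hg X hX
      rw [← hRdef] at hRr' hr16
      rw [← hPdef] at hX
      obtain ⟨hlow, hup⟩ := QQ_bounds62 (x := x) (a := a) hq hr hRr' hr16 hPR hWN
      rw [← hb, ← hD] at hlow
      rw [← hQ] at hup
      obtain ⟨g0, hg0⟩ : ∃ g0 : ℕ, g0 = Nat.gcd r q := ⟨_, rfl⟩
      have hg01 : 1 ≤ g0 := by rw [hg0]; exact Nat.gcd_pos_of_pos_right _ (by omega)
      have hg0r : (0 : ℝ) < g0 := by exact_mod_cast hg01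
      have hg0le : (g0 : ℝ) ≤ 16 * R := by
        have : g0 ≤ r := by rw [hg0]; exact Nat.gcd_le_left _ (by omega)
        exact_mod_cast this.trans hr16
      have hq' : 1 ≤ q / g0 := by
        rw [hg0]
        exact Nat.div_pos (Nat.le_of_dvd (by omega) (Nat.gcd_dvd_right r q)) (Nat.gcd_pos_of_pos_right _ (by omega))
      have hcop := coprime_red (G := r) hq haq
      obtain ⟨Q', hQ'⟩ : ∃ Q' : ℝ, Q' = QQ (P : ℝ) (r * x) (a * ((r / Nat.gcd r q : ℕ) : ℤ)) (q / Nat.gcd r q) := ⟨_, rfl⟩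
      rw [← hQ'] at hlow hup
      rw [← hg0] at hlow
      have hQ'1 : 1 ≤ Q' := by
        rw [hQ', ← hg0]
        exact QQ_pos (by positivity) hq'
      have hQ'p : 0 < Q' := by linarith
      have hprod : ∏ j : Fin 5, K (T.orderEmbOfFin hT j) = P := by
        rw [hPdef]
        conv_rhs => rw [← Finset.map_orderEmbOfFin_univ T hT]
        rw [Finset.prod_map]
        rfl
      have hprodR : ∏ j : Fin 5, (K (T.orderEmbOfFin hT j) : ℝ) = P := by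
        rw [← hprod]
        push_cast
        rfl
      have hPN' : P ≤ N := by
        refine le_trans ?_ hWN
        rw [← hPR]
        exact Nat.le_mul_of_pos_right _ hR1
      -- lower bound of the lengths
      have hlowK : ∀ i ∈ T, (N : ℝ) ^ ((1 : ℝ) / 5 - δ) ≤ K i := by
        intro i hi
        rw [← hαK i]
        refine hmono ?_
        have e2 : ∑ j ∈ T, α j + ∑ j ∈ Tᶜ, α j = ∑ j, α j := Finset.sum_add_sum_compl T α
        have e3 : ∑ j ∈ T, α j = α i + ∑ j ∈ T.erase i, α j := (Finset.add_sum_erase T α hi).symm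
        have e4 : ∑ j ∈ T.erase i, α j ≤ 4 * (1 / 5 + d) := by
          have h5 := Finset.sum_le_card_nsmul (T.erase i) α (1 / 5 + d) fun j _ => hα1 j
          rw [Finset.card_erase_of_mem hi, hT, nsmul_eq_mul] at h5
          norm_num at h5
          linarith
        linarith
      have h5 := hq5 N hNc (r * x) (a * ((r / Nat.gcd r q : ℕ) : ℤ)) (q / Nat.gcd r q) (by rw [← hg0]; exact hq') hcop g
        (fun j => K (T.orderEmbOfFin hT j)) hg (by rw [hprod]; exact hPN')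
        (fun j => hlowK _ (Finset.orderEmbOfFin_mem T hT j))
        (fun j => (hbig _).trans (hmono (by linarith))) ?_ ?_ X (by rw [hprod]; exact hX)
      · rw [hprodR, ← hQ'] at h5
        refine h5.trans ?_
        rw [hBd]
        refine mul_le_mul_of_nonneg_left ?_ (by positivity)
        have h6 : (P : ℝ) / Real.sqrt Q' ≤ P * Real.sqrt (Nat.gcd r q : ℝ) / Real.sqrt D := by
          rw [div_le_div_iff₀ (Real.sqrt_pos.2 hQ'p) hsD, mul_assoc, ← Real.sqrt_mul (by positivity)]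
          refine mul_le_mul_of_nonneg_left (Real.sqrt_le_sqrt ?_) hP0.le
          rw [← hg0]
          exact hlow
        linarith
      · rw [hprodR, ← hQ']
        rcases hκ2 with hκ2 | hκ2
        · exact (Real.rpow_le_one_of_one_le_of_nonpos hN1r hκ2).trans hQ'1
        · -- `Q ≤ N^e Q'`
          have e2 : Q ≤ (N : ℝ) ^ e * Q' := by
            have e3 : D ≤ 16 * (N : ℝ) ^ (10 * d) * Q' := by
              refine hlow.trans (mul_le_mul_of_nonneg_right ?_ hQ'p.le)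
              linarith
            have e4 : (N : ℝ) ^ (2 * d) * (16 * (N : ℝ) ^ (10 * d)) ≤ (N : ℝ) ^ e := by
              calc (N : ℝ) ^ (2 * d) * (16 * (N : ℝ) ^ (10 * d)) = 16 * (N : ℝ) ^ (2 * d + 10 * d) := by
                    rw [Real.rpow_add hNp]; ring
                _ ≤ (N : ℝ) ^ (e / 2) * (N : ℝ) ^ (e / 2) :=
                    mul_le_mul (hN2 N hNb) (hmono (by linarith)) (by positivity) (by positivity)
                _ = (N : ℝ) ^ e := by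
                    rw [← Real.rpow_add hNp]
                    congr 1
                    ring
            calc Q ≤ (N : ℝ) ^ (2 * d) * D := hQD
              _ ≤ (N : ℝ) ^ (2 * d) * (16 * (N : ℝ) ^ (10 * d) * Q') := mul_le_mul_of_nonneg_left e3 (by positivity)
              _ = (N : ℝ) ^ (2 * d) * (16 * (N : ℝ) ^ (10 * d)) * Q' := by ring
              _ ≤ _ := mul_le_mul_of_nonneg_right e4 hQ'p.le
          have e3 : (N : ℝ) ^ e * (N : ℝ) ^ κ'' ≤ (N : ℝ) ^ e * Q' := by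
            rw [← Real.rpow_add hNp]
            exact ((hmono (by linarith)).trans hQ0).trans e2
          exact le_of_mul_le_mul_left e3 (by positivity)
      · rw [hprodR, ← hQ']
        calc Q' ≤ 16 * Q := hup
          _ ≤ (N : ℝ) ^ (c0 / 2) * (N : ℝ) ^ ((1 : ℝ) / 2 - c0) := mul_le_mul (hN3 N hNd) hQ1 hQp.le (by positivity)
          _ = _ := by
            rw [← Real.rpow_add hNp]
            congr 1
            ring

theorem regA {κ κ' : ℝ} (hκ : κ ≤ 0 ∨ κ < κ') (h : FIVE κ) {c0 : ℝ} (hc0 : 0 < c0) :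
    ∃ d : ℝ, 0 < d ∧ ∀ ε : ℝ, 0 < ε → ∃ C : ℝ, 0 < C ∧ ∀ N : ℕ, 1 ≤ N → ∀ (x : ℝ) (a : ℤ) (q : ℕ), 1 ≤ q →
      IsCoprime a (q : ℤ) → (N : ℝ) ^ κ' ≤ QQ N x a q → QQ N x a q ≤ (N : ℝ) ^ ((1 : ℝ) / 2 - c0) →
        ‖FM N x‖ ≤ C * (N : ℝ) ^ ε * ((N : ℝ) / Real.sqrt (QQ N x a q) + (N : ℝ) ^ ((4 : ℝ) / 5 - d)) := by
  obtain ⟨d, hd, hd1, hb⟩ := boxes62 hκ h hc0
  refine ⟨d, hd, fun ε hε => ?_⟩
  obtain ⟨C, hC, N0, hN0, hb⟩ := hb (ε / 2) (by positivity)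
  obtain ⟨C', hC', hl⟩ := log_pow62 (e := ε / 2) (by positivity)
  refine ⟨max (32 * C' * C) N0, by positivity, fun N hN x a q hq haq h1 h2 => ?_⟩
  have hN1 : (1 : ℝ) ≤ N := by exact_mod_cast hN
  have hNp : (0 : ℝ) < N := by linarith
  have hQ1 : 1 ≤ QQ N x a q := QQ_pos (by positivity) hq
  have hA0 : 0 ≤ (N : ℝ) / Real.sqrt (QQ N x a q) := by positivity
  rcases lt_or_ge N N0 with hlt | hge
  · -- trivial bound
    have e1 : ‖FM N x‖ ≤ N := by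
      unfold FM
      have : ∀ n ∈ Icc 1 N, ‖((ArithmeticFunction.moebius n : ℤ) : ℂ) * ex (n * x)‖ ≤ 1 := by
        intro n _
        rw [norm_mul, norm_ex, mul_one, Complex.norm_intCast]
        exact_mod_cast ArithmeticFunction.abs_moebius_le_one
      refine (norm_sum_le _ _).trans ((Finset.sum_le_card_nsmul _ _ _ this).trans ?_)
      simp
    have e2 : (1 : ℝ) ≤ (N : ℝ) ^ ((4 : ℝ) / 5 - d) := Real.one_le_rpow hN1 (by linarith)
    have e3 : (N : ℝ) ≤ N0 := by exact_mod_cast hlt.le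
    have e4 : (N0 : ℝ) ≤ max (32 * C' * C) N0 := le_max_right _ _
    have e5 : (0 : ℝ) ≤ N0 := by positivity
    have e6 : (1 : ℝ) ≤ (N : ℝ) ^ ε := Real.one_le_rpow hN1 hε.le
    calc ‖FM N x‖ ≤ max (32 * C' * C) N0 := e1.trans (e3.trans e4)
      _ = max (32 * C' * C) N0 * 1 * 1 := by ring
      _ ≤ max (32 * C' * C) N0 * (N : ℝ) ^ ε * ((N : ℝ) / Real.sqrt (QQ N x a q) + (N : ℝ) ^ ((4 : ℝ) / 5 - d)) := by
        have e7 : 0 ≤ max (32 * C' * C) (N0 : ℝ) := e5.trans e4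
        gcongr
        linarith
  · have hN2 : 2 ≤ N := hN0.trans hge
    obtain ⟨z, hz⟩ : ∃ z : ℕ, z = ⌈(N : ℝ) ^ ((1 : ℝ) / 5)⌉₊ := ⟨_, rfl⟩
    have hz1 : 1 ≤ z := by
      rw [hz, Nat.one_le_ceil_iff]
      positivity
    have hz5 : N ≤ z ^ 5 := by
      have e1 : (N : ℝ) ^ ((1 : ℝ) / 5) ≤ z := by rw [hz]; exact Nat.le_ceil _
      have e2 : ((N : ℝ) ^ ((1 : ℝ) / 5)) ^ 5 ≤ (z : ℝ) ^ 5 := pow_le_pow_left₀ (by positivity) e1 5
      have e3 : ((N : ℝ) ^ ((1 : ℝ) / 5)) ^ 5 = N := by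
        rw [← Real.rpow_natCast, ← Real.rpow_mul hNp.le]
        norm_num
      rw [e3] at e2
      exact_mod_cast e2
    obtain ⟨Y, hY⟩ : ∃ Y : ℝ, Y = (N : ℝ) / Real.sqrt (QQ N x a q) + (N : ℝ) ^ ((4 : ℝ) / 5 - d) := ⟨_, rfl⟩
    have hY0 : 0 ≤ Y := by rw [hY]; positivity
    have e1 := dyad_x hN2 hz1 hz5 (x := x) (B := C * (N : ℝ) ^ (ε / 2) * Y) (by positivity)
      (fun M hM k hk f K hf hsm => by
        rw [hY]
        exact hb N hge x a q hq haq h1 h2 M hM k hk f K hf (by rw [← hz]; exact hsm)) N le_rfl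
    rw [← hY]
    refine e1.trans ?_
    have e2 := hl N hN
    calc 32 * ((Nat.log 2 N : ℝ) + 1) ^ 9 * (C * (N : ℝ) ^ (ε / 2) * Y) ≤
        32 * (C' * (N : ℝ) ^ (ε / 2)) * (C * (N : ℝ) ^ (ε / 2) * Y) :=
          mul_le_mul_of_nonneg_right (mul_le_mul_of_nonneg_left e2 (by norm_num)) (by positivity)
      _ = 32 * C' * C * ((N : ℝ) ^ (ε / 2) * (N : ℝ) ^ (ε / 2)) * Y := by ring
      _ = 32 * C' * C * (N : ℝ) ^ ε * Y := by
          rw [← Real.rpow_add hNp]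
          congr 3
          ring
      _ ≤ max (32 * C' * C) N0 * (N : ℝ) ^ ε * Y := by
          have := le_max_left (32 * C' * C) (N0 : ℝ)
          gcongr

end Pool.Helper19.V5
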