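import Pool.Agent.Helper19.V5.Defs

/-!
# V5-3: linear sums at a real point (Vinogradov's lemma)

For `θ` real, `|∑_{n ∈ (u, v]} e(θ n)| ≤ min(v, 1/(2 ‖θ‖))` (`‖θ‖` = distance to the integers). `x = a/r + ϑ/r²`, `|ϑ| ≤ 1`. With `K = ⌊r/2⌋ + 1`
and blocks `h = ⌊m/K⌋`: for `m ≠ m'` in one block `‖(m - m') x‖ ≥ 1/r - 1/(2r) = 1/(2r)`, so the numbers `k = ⌊2 r {m x}⌋` are different.
* `1 ≤ k ≤ 2r - 2`: the term is `≤ r/k + r/(2r - 1 - k)`;
* `k = 0` or `k = 2r - 1`: in the block `h = 0` (there `2 m ≤ r`, `‖m x‖ ≥ 1/(2r)`) the term is `≤ r`, in the block `h ≥ 1` it is `≤ X/m ≤ X/(h K)`.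
-/

namespace Pool.Helper19.V5

open ArithmeticFunction Finset Pool.Helper19.V4

private lemma norm_ex_sub_one69 (x : ℝ) : ‖ex x - 1‖ = 2 * |Real.sin (Real.pi * x)| := by
  unfold ex
  rw [mul_comm, Complex.norm_exp_I_mul_ofReal_sub_one, Real.norm_eq_abs, abs_mul,
    abs_of_pos (by norm_num : (0 : ℝ) < 2)]
  congr 3
  ring

private lemma ex_fract69 (x : ℝ) : ex x = ex (Int.fract x) := by
  conv_lhs => rw [← Int.fract_add_floor x]
  rw [ex_add_int]

/-- lower bound -/
private lemma ex_low69 {f d : ℝ} (hd : 0 < d) (h1 : d ≤ f) (h2 : f ≤ 1 - d) : 4 * d ≤ ‖ex f - 1‖ := by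
  have hpi := Real.pi_pos
  rw [norm_ex_sub_one69]
  rcases le_total f (1 / 2) with h | h
  · have h3 : 2 / Real.pi * (Real.pi * f) ≤ Real.sin (Real.pi * f) := by
      apply Real.mul_le_sin
      · have : 0 < f := by linarith
        positivity
      · nlinarith
    have h4 : 2 / Real.pi * (Real.pi * f) = 2 * f := by field_simp
    rw [h4] at h3
    have h5 := le_abs_self (Real.sin (Real.pi * f))
    linarith
  · have h3 : 2 / Real.pi * (Real.pi * (1 - f)) ≤ Real.sin (Real.pi * (1 - f)) := by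
      apply Real.mul_le_sin
      · have : 0 < 1 - f := by linarith
        positivity
      · nlinarith
    have h0 : Real.sin (Real.pi * (1 - f)) = Real.sin (Real.pi * f) := by
      rw [← Real.sin_pi_sub]
      congr 1
      ring
    have h4 : 2 / Real.pi * (Real.pi * (1 - f)) = 2 * (1 - f) := by field_simp
    rw [h4, h0] at h3
    have h5 := le_abs_self (Real.sin (Real.pi * f))
    linarith

private lemma geom69 (x : ℝ) (hx : ex x ≠ 1) (u v : ℕ) :
    ‖∑ n ∈ Ioc u v, ex (x * n)‖ ≤ 2 / ‖ex x - 1‖ := by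
  have hpos : 0 < ‖ex x - 1‖ := norm_pos_iff.2 (sub_ne_zero.2 hx)
  have hpow : ∀ n : ℕ, ex (x * n) = ex x ^ n := by
    intro n
    induction n with
    | zero => simp [ex_zero]
    | succ k ih =>
      rw [pow_succ, ← ih, ← ex_add]
      congr 1
      push_cast
      ring
  rcases le_total u v with h | h
  · have h1 : ∀ w : ℕ, (∑ n ∈ Ioc u (u + w), ex (x * n)) * (ex x - 1) = ex x ^ (u + w + 1) - ex x ^ (u + 1) := by
      intro w
      induction w with
      | zero => simp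
      | succ k ih =>
        rw [← add_assoc, Finset.sum_Ioc_succ_top (by omega), add_mul, ih, hpow]
        ring
    obtain ⟨w, rfl⟩ := Nat.exists_eq_add_of_le h
    have h2 := congrArg norm (h1 w)
    rw [norm_mul] at h2
    have h3 : ‖ex x ^ (u + w + 1) - ex x ^ (u + 1)‖ ≤ 2 := by
      refine (norm_sub_le _ _).trans ?_
      rw [norm_pow, norm_pow, norm_ex, one_pow, one_pow]
      norm_num
    rw [le_div_iff₀ hpos]
    linarith
  · rw [Finset.Ioc_eq_empty_of_le h, Finset.sum_empty, norm_zero]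
    positivity

/-- the sum at distance at least `d` from the integers -/
private lemma geom_low69 {x d : ℝ} (hd : 0 < d) (h1 : d ≤ Int.fract x) (h2 : Int.fract x ≤ 1 - d) (u v : ℕ) :
    ‖∑ n ∈ Ioc u v, ex (x * n)‖ ≤ 1 / (2 * d) := by
  have h3 := ex_low69 hd h1 h2
  rw [← ex_fract69] at h3
  have hpos : 0 < ‖ex x - 1‖ := by linarith
  have hne : ex x ≠ 1 := by
    intro h
    rw [h, sub_self, norm_zero] at hpos
    exact lt_irrefl _ hpos
  refine (geom69 x hne u v).trans ?_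
  rw [div_le_div_iff₀ hpos (by positivity)]
  linarith

private lemma harm69 (n : ℕ) : ∑ i ∈ range n, (1 : ℝ) / ((i : ℝ) + 1) ≤ 1 + Real.log n := by
  have h := harmonic_le_one_add_log n
  have h1 : ((harmonic n : ℚ) : ℝ) = ∑ i ∈ range n, (1 : ℝ) / ((i : ℝ) + 1) := by
    unfold harmonic
    push_cast
    refine Finset.sum_congr rfl fun i _ => ?_
    rw [one_div]
  rw [h1] at h
  exact h

/-- the spacing -/
private lemma space69 {a : ℤ} {r : ℕ} (hr : 1 ≤ r) (har : IsCoprime a (r : ℤ)) {x : ℝ} (hx : |x - a / r| ≤ 1 / (r : ℝ) ^ 2)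
    {d : ℕ} (hd : 1 ≤ d) (hdr : 2 * d ≤ r) (l : ℤ) : 1 / (2 * (r : ℝ)) ≤ |(d : ℝ) * x - l| := by
  have hr0 : (0 : ℝ) < r := by exact_mod_cast hr
  have hne : (d : ℤ) * a - l * r ≠ 0 := by
    intro h
    have h1 : (r : ℤ) ∣ (d : ℤ) * a := ⟨l, by linarith [mul_comm l (r : ℤ)]⟩
    have h2 : (r : ℤ) ∣ (d : ℤ) := har.symm.dvd_of_dvd_mul_right h1
    have h3 : r ∣ d := by exact_mod_cast h2
    have h4 := Nat.le_of_dvd (by omega) h3
    omega
  have h1 : (1 : ℝ) ≤ |((d : ℤ) * a - l * r : ℤ)| := by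
    exact_mod_cast Int.one_le_abs hne
  have h2 : (1 : ℝ) / r ≤ |(d : ℝ) * (a / r) - l| := by
    rw [div_le_iff₀ hr0]
    have e : ((((d : ℤ) * a - l * r : ℤ)) : ℝ) = ((d : ℝ) * (a / r) - l) * r := by
      push_cast
      field_simp
    have e2 : ((|((d : ℤ) * a - l * r : ℤ)| : ℤ) : ℝ) = |(d : ℝ) * (a / r) - l| * r := by
      rw [Int.cast_abs, e, abs_mul, abs_of_pos hr0]
    rw [← e2]
    exact_mod_cast h1
  have h3 : |(d : ℝ) * x - (d : ℝ) * (a / r)| ≤ 1 / (2 * r) := by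
    rw [← mul_sub, abs_mul, abs_of_nonneg (Nat.cast_nonneg d)]
    have h4 : (d : ℝ) ≤ r / 2 := by
      have : ((2 * d : ℕ) : ℝ) ≤ r := by exact_mod_cast hdr
      push_cast at this
      linarith
    calc (d : ℝ) * |x - a / r| ≤ (r / 2) * (1 / (r : ℝ) ^ 2) := mul_le_mul h4 hx (abs_nonneg _) (by positivity)
      _ = 1 / (2 * r) := by field_simp
  have h5 : |(d : ℝ) * (a / r) - l| ≤ |(d : ℝ) * x - l| + |(d : ℝ) * x - (d : ℝ) * (a / r)| := by
    have e : (d : ℝ) * (a / r) - l = ((d : ℝ) * x - l) - ((d : ℝ) * x - (d : ℝ) * (a / r)) := by ring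
    rw [e]
    exact abs_sub _ _
  have h6 : (1 : ℝ) / r = 1 / (2 * r) + 1 / (2 * r) := by
    field_simp
    norm_num
  linarith

theorem type_one_r {a : ℤ} {r : ℕ} (hr : 1 ≤ r) (har : IsCoprime a (r : ℤ)) {x : ℝ} (hx : |x - a / r| ≤ 1 / (r : ℝ) ^ 2)
    (M1 : ℕ) {X : ℝ} (hX : 0 ≤ X) (u v : ℕ → ℕ) (hv : ∀ m, 1 ≤ m → m ≤ M1 → (m : ℝ) * v m ≤ X) :
    ∑ m ∈ Icc 1 M1, ‖∑ n ∈ Ioc (u m) (v m), ex (((m : ℝ) * n) * x)‖ ≤
      40 * (X / r + M1 + r) * (1 + Real.log ((M1 : ℝ) + r)) := by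
  classical
  have hr0 : (0 : ℝ) < r := by exact_mod_cast hr
  have hr1 : (1 : ℝ) ≤ r := by exact_mod_cast hr
  have hM0 : (0 : ℝ) ≤ M1 := Nat.cast_nonneg M1
  obtain ⟨Lg, hLg⟩ : ∃ Lg : ℝ, Lg = 1 + Real.log ((M1 : ℝ) + r) := ⟨_, rfl⟩
  have hLg1 : 1 ≤ Lg := by
    rw [hLg]
    have := Real.log_nonneg (by linarith : (1 : ℝ) ≤ (M1 : ℝ) + r)
    linarith
  rw [← hLg]
  obtain ⟨K, hK⟩ : ∃ K : ℕ, K = r / 2 + 1 := ⟨_, rfl⟩
  have hK1 : 1 ≤ K := by omega
  have hKr : (r : ℝ) / 2 ≤ K := by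
    have : r ≤ 2 * K := by omega
    have h2 : (r : ℝ) ≤ 2 * K := by exact_mod_cast this
    linarith
  obtain ⟨κ, hκ⟩ : ∃ κ : ℕ → ℕ, ∀ m : ℕ, κ m = ⌊2 * (r : ℝ) * Int.fract ((m : ℝ) * x)⌋₊ := ⟨_, fun _ => rfl⟩
  have hfn : ∀ m : ℕ, 0 ≤ 2 * (r : ℝ) * Int.fract ((m : ℝ) * x) := fun m =>
    mul_nonneg (by positivity) (Int.fract_nonneg _)
  have hκ1 : ∀ m : ℕ, (κ m : ℝ) ≤ 2 * r * Int.fract ((m : ℝ) * x) := fun m => by
    rw [hκ]
    exact Nat.floor_le (hfn m)
  have hκ2 : ∀ m : ℕ, 2 * r * Int.fract ((m : ℝ) * x) < (κ m : ℝ) + 1 := fun m => by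
    rw [hκ]
    exact Nat.lt_floor_add_one _
  have hκ3 : ∀ m : ℕ, κ m < 2 * r := fun m => by
    rw [hκ, Nat.floor_lt (hfn m)]
    push_cast
    have := Int.fract_lt_one ((m : ℝ) * x)
    nlinarith
  obtain ⟨e, he⟩ : ∃ e : ℕ → ℝ, ∀ h : ℕ, e h = if h = 0 then (r : ℝ) else X / (h * K) := ⟨_, fun _ => rfl⟩
  have he0 : ∀ h, 0 ≤ e h := fun h => by
    rw [he]
    split_ifs <;> positivity
  obtain ⟨G, hG⟩ : ∃ G : ℕ → ℕ → ℝ, ∀ h k : ℕ, G h k = if k = 0 ∨ k + 1 = 2 * r then e h else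
    (r : ℝ) / k + (r : ℝ) / (2 * (r : ℝ) - 1 - k) := ⟨_, fun _ _ => rfl⟩
  have hG0 : ∀ h k, k < 2 * r → 0 ≤ G h k := fun h k hk => by
    rw [hG]
    split_ifs with h1
    · exact he0 h
    · push Not at h1
      have h2 : k + 1 < 2 * r := by omega
      have h3 : (k : ℝ) + 1 < 2 * r := by exact_mod_cast h2
      have h4 : 0 < 2 * (r : ℝ) - 1 - k := by linarith
      positivity
  -- the terms
  have hterm : ∀ m ∈ Icc 1 M1, ‖∑ n ∈ Ioc (u m) (v m), ex (((m : ℝ) * n) * x)‖ ≤ G (m / K) (κ m) := by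
    intro m hm
    rw [mem_Icc] at hm
    have hm0 : (0 : ℝ) < m := by exact_mod_cast hm.1
    have hex : ∀ n : ℕ, ex (((m : ℝ) * n) * x) = ex (((m : ℝ) * x) * n) := fun n => by
      congr 1
      ring
    rw [hG]
    split_ifs with hk
    · rw [he]
      split_ifs with hh
      · -- the first block
        have hmK : m < K := by
          by_contra hcon
          have : 1 ≤ m / K := (Nat.one_le_div_iff hK1).mpr (by omega)
          omega
        have h2m : 2 * m ≤ r := by omega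
        have s1 := space69 hr har hx hm.1 h2m ⌊(m : ℝ) * x⌋
        have s2 := space69 hr har hx hm.1 h2m (⌊(m : ℝ) * x⌋ + 1)
        have f1 : (m : ℝ) * x - ⌊(m : ℝ) * x⌋ = Int.fract ((m : ℝ) * x) := rfl
        have f2 : (m : ℝ) * x - ((⌊(m : ℝ) * x⌋ + 1 : ℤ) : ℝ) = Int.fract ((m : ℝ) * x) - 1 := by
          push_cast
          rw [← f1]
          ring
        rw [f1, abs_of_nonneg (Int.fract_nonneg _)] at s1
        rw [f2, abs_of_nonpos (by linarith [Int.fract_lt_one ((m : ℝ) * x)])] at s2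
        have h3 := geom_low69 (d := 1 / (2 * (r : ℝ))) (by positivity) s1 (by linarith) (u m) (v m)
        simp only [hex]
        refine h3.trans (le_of_eq ?_)
        field_simp
      · have h1 : ‖∑ n ∈ Ioc (u m) (v m), ex (((m : ℝ) * n) * x)‖ ≤ X / m := by
          calc ‖∑ n ∈ Ioc (u m) (v m), ex (((m : ℝ) * n) * x)‖
              ≤ ∑ n ∈ Ioc (u m) (v m), ‖ex (((m : ℝ) * n) * x)‖ := norm_sum_le _ _
            _ = ((Ioc (u m) (v m)).card : ℝ) := by
                simp only [norm_ex, Finset.sum_const, nsmul_eq_mul, mul_one]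
            _ ≤ v m := by
                rw [Nat.card_Ioc]
                exact_mod_cast Nat.sub_le _ _
            _ ≤ X / m := by
                rw [le_div_iff₀ hm0, mul_comm]
                exact hv m hm.1 hm.2
        refine h1.trans ?_
        have h2 : (m / K) * K ≤ m := Nat.div_mul_le_self m K
        have h3 : ((m / K : ℕ) : ℝ) * K ≤ m := by exact_mod_cast h2
        have h4 : 0 < ((m / K : ℕ) : ℝ) * K := by
          have : 0 < m / K := Nat.pos_of_ne_zero hh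
          have h5 : (0 : ℝ) < ((m / K : ℕ) : ℝ) := by exact_mod_cast this
          have h6 : (0 : ℝ) < K := by exact_mod_cast hK1
          positivity
        exact div_le_div_of_nonneg_left hX h4 h3
    · push Not at hk
      obtain ⟨hk0, hk1⟩ := hk
      have hk2 : κ m + 1 < 2 * r := by have := hκ3 m; omega
      have hk3 : (κ m : ℝ) + 1 < 2 * r := by exact_mod_cast hk2
      have hkp : (0 : ℝ) < κ m := by exact_mod_cast Nat.pos_of_ne_zero hk0
      have hlo : (κ m : ℝ) / (2 * r) ≤ Int.fract ((m : ℝ) * x) := by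
        rw [div_le_iff₀ (by positivity)]
        linarith [hκ1 m]
      have hhi : Int.fract ((m : ℝ) * x) ≤ 1 - (2 * (r : ℝ) - 1 - κ m) / (2 * r) := by
        have e1 : 1 - (2 * (r : ℝ) - 1 - κ m) / (2 * r) = ((κ m : ℝ) + 1) / (2 * r) := by
          field_simp
          ring
        rw [e1, le_div_iff₀ (by positivity)]
        linarith [hκ2 m]
      have hq : 0 < 2 * (r : ℝ) - 1 - κ m := by linarith
      simp only [hex]
      rcases le_total ((κ m : ℝ)) (2 * (r : ℝ) - 1 - κ m) with hc | hc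
      · have h3 := geom_low69 (x := (m : ℝ) * x) (d := (κ m : ℝ) / (2 * r)) (by positivity) hlo
          (hhi.trans (by
            have := div_le_div_of_nonneg_right hc (by positivity : (0 : ℝ) ≤ 2 * r)
            linarith)) (u m) (v m)
        have e1 : 1 / (2 * ((κ m : ℝ) / (2 * r))) = (r : ℝ) / κ m := by field_simp
        rw [e1] at h3
        have : 0 ≤ (r : ℝ) / (2 * (r : ℝ) - 1 - κ m) := by positivity
        linarith
      · have h3 := geom_low69 (x := (m : ℝ) * x) (d := (2 * (r : ℝ) - 1 - κ m) / (2 * r)) (by positivity)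
          (le_trans (div_le_div_of_nonneg_right hc (by positivity : (0 : ℝ) ≤ 2 * r)) hlo) hhi (u m) (v m)
        have e1 : 1 / (2 * ((2 * (r : ℝ) - 1 - κ m) / (2 * r))) = (r : ℝ) / (2 * (r : ℝ) - 1 - κ m) := by
          field_simp
        rw [e1] at h3
        have : 0 ≤ (r : ℝ) / κ m := by positivity
        linarith
  -- injectivity
  have hinj : Set.InjOn (fun m : ℕ => (m / K, κ m)) (Icc 1 M1 : Finset ℕ) := by
    have key : ∀ m n : ℕ, m < n → m / K = n / K → κ m ≠ κ n := by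
      intro m n hmn hdiv hk
      have hd1 : 1 ≤ n - m := by omega
      have hd2 : 2 * (n - m) ≤ r := by
        have h1 := Nat.div_add_mod m K
        have h2 := Nat.div_add_mod n K
        have h3 := Nat.mod_lt n hK1
        rw [hdiv] at h1
        omega
      have s := space69 hr har hx hd1 hd2 (⌊(n : ℝ) * x⌋ - ⌊(m : ℝ) * x⌋)
      have e1 : (((n - m : ℕ) : ℝ)) * x - ((⌊(n : ℝ) * x⌋ - ⌊(m : ℝ) * x⌋ : ℤ) : ℝ) =
          Int.fract ((n : ℝ) * x) - Int.fract ((m : ℝ) * x) := by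
        rw [Nat.cast_sub hmn.le]
        push_cast
        unfold Int.fract
        ring
      rw [e1] at s
      have a1 := hκ1 m
      have a2 := hκ2 m
      have a3 := hκ1 n
      have a4 := hκ2 n
      rw [hk] at a1 a2
      have h5 : |Int.fract ((n : ℝ) * x) - Int.fract ((m : ℝ) * x)| < 1 / (2 * r) := by
        rw [abs_lt, lt_div_iff₀ (by positivity), ← neg_div, div_lt_iff₀ (by positivity)]
        constructor <;> nlinarith
      linarith
    intro m _ n _ hmn
    simp only [Prod.mk.injEq] at hmn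
    rcases lt_trichotomy m n with h | h | h
    · exact absurd hmn.2 (key m n h hmn.1)
    · exact h
    · exact absurd hmn.2.symm (key n m h hmn.1.symm)
  have hsum : ∑ m ∈ Icc 1 M1, G (m / K) (κ m) ≤ ∑ h ∈ range (M1 / K + 1), ∑ k ∈ range (2 * r), G h k := by
    rw [← Finset.sum_product' (range (M1 / K + 1)) (range (2 * r)) fun h k => G h k]
    rw [← Finset.sum_image (f := fun p : ℕ × ℕ => G p.1 p.2) (g := fun m : ℕ => (m / K, κ m)) hinj]
    refine Finset.sum_le_sum_of_subset_of_nonneg ?_ ?_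
    · intro p hp
      rw [mem_image] at hp
      obtain ⟨m, hm, rfl⟩ := hp
      rw [mem_Icc] at hm
      rw [mem_product, mem_range, mem_range]
      exact ⟨Nat.lt_succ_of_le (Nat.div_le_div_right hm.2), hκ3 m⟩
    · intro p hp _
      rw [mem_product, mem_range, mem_range] at hp
      exact hG0 _ _ hp.2
  -- the sum over `k`
  have hlog2 : ∀ n : ℕ, (n : ℝ) ≤ 2 * ((M1 : ℝ) + r) → 1 + Real.log n ≤ 2 * Lg := by
    intro n hn
    rcases Nat.eq_zero_or_pos n with h | h
    · rw [h, Nat.cast_zero, Real.log_zero]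
      linarith
    · have h1 : Real.log n ≤ Real.log (2 * ((M1 : ℝ) + r)) := Real.log_le_log (by exact_mod_cast h) hn
      rw [Real.log_mul (by norm_num) (by positivity)] at h1
      have h2 : Real.log 2 ≤ 1 := by
        have := Real.log_two_lt_d9
        linarith
      have h3 : 0 ≤ Real.log ((M1 : ℝ) + r) := Real.log_nonneg (by linarith)
      rw [hLg]
      linarith
  have hk : ∀ h, ∑ k ∈ range (2 * r), G h k ≤ 2 * e h + 4 * r * Lg := by
    intro h
    obtain ⟨ρ, rfl⟩ : ∃ ρ, r = ρ + 1 := ⟨r - 1, by omega⟩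
    have e1 : 2 * (ρ + 1) = (2 * ρ + 1) + 1 := by ring
    rw [e1, Finset.sum_range_succ, Finset.sum_range_succ']
    have g0 : G h 0 = e h := by rw [hG, if_pos (Or.inl rfl)]
    have g1 : G h (2 * ρ + 1) = e h := by rw [hG, if_pos (Or.inr (by ring))]
    have g2 : ∀ k ∈ range (2 * ρ), G h (k + 1) = ((ρ + 1 : ℕ) : ℝ) * (1 / ((k : ℝ) + 1)) +
        ((ρ + 1 : ℕ) : ℝ) * (1 / (2 * (ρ : ℝ) - k)) := by
      intro k hk
      rw [mem_range] at hk
      rw [hG, if_neg (by omega)]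
      push_cast
      have : 2 * ((ρ : ℝ) + 1) - 1 - (k + 1) = 2 * ρ - k := by ring
      rw [this]
      ring
    have g3 : ∑ k ∈ range (2 * ρ), (1 : ℝ) / (2 * (ρ : ℝ) - k) = ∑ k ∈ range (2 * ρ), (1 : ℝ) / ((k : ℝ) + 1) := by
      rw [← Finset.sum_range_reflect]
      refine Finset.sum_congr rfl fun i hi => ?_
      rw [mem_range] at hi
      have h3 : ((2 * ρ - 1 - i : ℕ) : ℝ) = 2 * (ρ : ℝ) - 1 - i := by
        rw [Nat.cast_sub (by omega), Nat.cast_sub (by omega)]
        push_cast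
        ring
      rw [h3]
      congr 1
      ring
    rw [g0, g1, Finset.sum_congr rfl g2, Finset.sum_add_distrib, ← Finset.mul_sum, ← Finset.mul_sum, g3]
    have h4 := harm69 (2 * ρ)
    have h5 := hlog2 (2 * ρ) (by push_cast; linarith)
    have h6 : ∑ k ∈ range (2 * ρ), (1 : ℝ) / ((k : ℝ) + 1) ≤ 2 * Lg := h4.trans h5
    have h7 : (0 : ℝ) ≤ ((ρ + 1 : ℕ) : ℝ) := Nat.cast_nonneg _
    nlinarith
  -- the sum over the blocks
  have hKR : (0 : ℝ) < K := by exact_mod_cast hK1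
  have hes : ∑ h ∈ range (M1 / K + 1), e h ≤ r + 2 * X / r * Lg := by
    rw [Finset.sum_range_succ']
    have g0 : e 0 = r := by rw [he, if_pos rfl]
    have g1 : ∀ h ∈ range (M1 / K), e (h + 1) = X / K * (1 / ((h : ℝ) + 1)) := by
      intro h _
      rw [he, if_neg (by omega)]
      push_cast
      field_simp
    rw [g0, Finset.sum_congr rfl g1, ← Finset.mul_sum]
    have h1 := harm69 (M1 / K)
    have h2 : 1 + Real.log ((M1 / K : ℕ) : ℝ) ≤ Lg := by
      rw [hLg]
      rcases Nat.eq_zero_or_pos (M1 / K) with h | h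
      · rw [h, Nat.cast_zero, Real.log_zero]
        have := Real.log_nonneg (by linarith : (1 : ℝ) ≤ (M1 : ℝ) + r)
        linarith
      · have h3 : ((M1 / K : ℕ) : ℝ) ≤ (M1 : ℝ) + r := by
          have : ((M1 / K : ℕ) : ℝ) ≤ M1 := by exact_mod_cast Nat.div_le_self M1 K
          linarith
        have := Real.log_le_log (by exact_mod_cast h) h3
        linarith
    have h3 : X / K ≤ 2 * X / r := by
      rw [div_le_div_iff₀ hKR hr0]
      nlinarith
    have h4 : 0 ≤ X / K := by positivity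
    have h5 : X / K * ∑ i ∈ range (M1 / K), (1 : ℝ) / ((i : ℝ) + 1) ≤ 2 * X / r * Lg :=
      mul_le_mul h3 (h1.trans h2) (Finset.sum_nonneg fun i _ => by positivity) (by positivity)
    linarith
  have hfl : ((M1 / K + 1 : ℕ) : ℝ) * r ≤ 2 * M1 + r := by
    have h1 : (M1 / K) * K ≤ M1 := Nat.div_mul_le_self M1 K
    have h2 : ((M1 / K : ℕ) : ℝ) * K ≤ M1 := by exact_mod_cast h1
    have h3 : (0 : ℝ) ≤ ((M1 / K : ℕ) : ℝ) := Nat.cast_nonneg _
    push_cast
    nlinarith
  have htot : ∑ h ∈ range (M1 / K + 1), ∑ k ∈ range (2 * r), G h k ≤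
      2 * (r + 2 * X / r * Lg) + 4 * (2 * M1 + r) * Lg := by
    calc _ ≤ ∑ h ∈ range (M1 / K + 1), (2 * e h + 4 * r * Lg) := Finset.sum_le_sum fun h _ => hk h
      _ = 2 * ∑ h ∈ range (M1 / K + 1), e h + 4 * (((M1 / K + 1 : ℕ) : ℝ) * r) * Lg := by
          rw [Finset.sum_add_distrib, ← Finset.mul_sum, Finset.sum_const, card_range, nsmul_eq_mul]
          ring
      _ ≤ _ := by
          have h1 := mul_le_mul_of_nonneg_right hfl (by linarith : 0 ≤ Lg)
          nlinarith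
  refine (Finset.sum_le_sum hterm).trans (hsum.trans (htot.trans ?_))
  have h1 : 0 ≤ X / r := by positivity
  have h2 : 2 * X / r = 2 * (X / r) := by ring
  rw [h2]
  have h3 : 0 ≤ X / r * Lg := by positivity
  have h4 : 0 ≤ (M1 : ℝ) * Lg := by positivity
  have h5 : (r : ℝ) ≤ r * Lg := by nlinarith
  nlinarith

end Pool.Helper19.V5
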