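import Pool.Agent.Helper19.V5.Appr
import Pool.Agent.Helper93.MLSa

/-!
# V5-2: bilinear sums at a real point

`type_two_r`: by Cauchy `|∑_m ∑_n f g e(m n x)|² ≤ ∑ |g|² · ∑_{n ≤ B} |∑_{m ≤ A} f m e(m n x)|²`. Cut `n ≤ B` into at most `2 B/r + 1` blocks of at most `h = (r + 1)/2` (floor) consecutive integers. For `n ≠ n'` in a
block `(n - n') a` is not divisible by `r`, so the distance of `(n - n') x` to the integers is `≥ 1/r - |n - n'|/r² ≥ 1/(2 r)` (`|n - n'| ≤ r/2`; `|x - a/r| ≤ 1/r²`). So the fractional parts of the `n x` are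
`1/(2r)`-separated modulo one and the additive large sieve `Pool.Agent.Helper93.MLS.additive_ls` (`x0` = least fractional part minus `δ/2`, `ee = ex` by definition) bounds the block by `(2 r + π A) ∑ |f|²`.
Total `(2 B/r + 1)(2 r + π A) ≤ 16 (A B/r + A + B + r)`.
`type_two_x`: `appr` with `M = A B` (if `A = 0` or `B = 0` the sum is `0`).
-/

namespace Pool.Helper19.V5

open ArithmeticFunction Finset Pool.Helper19.V4

/-- the distance of `(n - n') x` to the integers -/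
private lemma dist62 {a : ℤ} {r : ℕ} (hr : 1 ≤ r) (har : IsCoprime a (r : ℤ)) {x : ℝ} (hx : |x - a / r| ≤ 1 / (r : ℝ) ^ 2)
    (d : ℤ) (hd0 : d ≠ 0) (hd : 2 * |d| ≤ r) (k : ℤ) : 1 / (2 * (r : ℝ)) ≤ |(d : ℝ) * x - k| := by
  have hr0 : (0 : ℝ) < r := by exact_mod_cast hr
  have h1 : d * a - k * r ≠ 0 := by
    intro h
    have h2 : (r : ℤ) ∣ d * a := ⟨k, by linarith⟩
    have h3 : (r : ℤ) ∣ d := har.symm.dvd_of_dvd_mul_right h2
    have h4 := Int.le_of_dvd (abs_pos.2 hd0) ((dvd_abs _ _).2 h3)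
    have h5 : 0 < |d| := abs_pos.2 hd0
    linarith
  have h2 : (1 : ℝ) ≤ |(d : ℝ) * a - k * r| := by
    have h3 : (1 : ℤ) ≤ |d * a - k * r| := Int.one_le_abs h1
    have h4 : ((1 : ℤ) : ℝ) ≤ ((|d * a - k * r| : ℤ) : ℝ) := by exact_mod_cast h3
    rw [Int.cast_abs] at h4
    push_cast at h4
    exact h4
  have h3 : 1 / (r : ℝ) ≤ |(d : ℝ) * (a / r) - k| := by
    have h4 : (d : ℝ) * (a / r) - k = ((d : ℝ) * a - k * r) / r := by
      field_simp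
    rw [h4, abs_div, abs_of_pos hr0]
    exact div_le_div_of_nonneg_right h2 hr0.le
  have hdr : 2 * |(d : ℝ)| ≤ r := by
    have : ((2 * |d| : ℤ) : ℝ) ≤ ((r : ℤ) : ℝ) := by exact_mod_cast hd
    push_cast at this
    exact this
  have h5 : |(d : ℝ) * (x - a / r)| ≤ 1 / (2 * (r : ℝ)) := by
    rw [abs_mul]
    calc |(d : ℝ)| * |x - a / r| ≤ (r / 2) * (1 / (r : ℝ) ^ 2) := by
          apply mul_le_mul (by linarith) hx (abs_nonneg _) (by positivity)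
      _ = 1 / (2 * (r : ℝ)) := by field_simp
  have h6 : |(d : ℝ) * (a / r) - k| ≤ |(d : ℝ) * x - k| + |(d : ℝ) * (x - a / r)| := by
    have h7 : (d : ℝ) * (a / r) - k = ((d : ℝ) * x - k) - (d : ℝ) * (x - a / r) := by ring
    rw [h7]
    exact abs_sub _ _
  have h8 : 1 / (r : ℝ) = 1 / (2 * (r : ℝ)) + 1 / (2 * (r : ℝ)) := by
    field_simp
    norm_num
  linarith

/-- one block -/
private lemma block62 {a : ℤ} {r : ℕ} (hr : 1 ≤ r) (har : IsCoprime a (r : ℤ)) {x : ℝ} (hx : |x - a / r| ≤ 1 / (r : ℝ) ^ 2)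
    (A : ℕ) (f : ℕ → ℂ) (P : Finset ℕ) (hP : ∀ n ∈ P, ∀ n' ∈ P, 2 * |(n : ℤ) - n'| ≤ r) :
    ∑ n ∈ P, ‖∑ m ∈ Icc 1 A, f m * ex (((m : ℝ) * n) * x)‖ ^ 2 ≤
      (2 * r + Real.pi * A) * ∑ m ∈ Icc 1 A, ‖f m‖ ^ 2 := by
  have hr0 : (0 : ℝ) < r := by exact_mod_cast hr
  have hr1 : (1 : ℝ) ≤ r := by exact_mod_cast hr
  obtain ⟨δ, hδ⟩ : ∃ δ : ℝ, δ = 1 / (2 * (r : ℝ)) := ⟨_, rfl⟩
  have hδ0 : 0 < δ := by rw [hδ]; positivity
  have hδ1 : δ ≤ 1 := by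
    rw [hδ, div_le_one (by positivity)]
    linarith
  have hδi : δ⁻¹ = 2 * r := by
    rw [hδ, one_div, inv_inv]
  obtain ⟨α, hα⟩ : ∃ α : ℕ → ℝ, α = fun n : ℕ => Int.fract ((n : ℝ) * x) := ⟨_, rfl⟩
  have hdist : ∀ i ∈ P, ∀ j ∈ P, i ≠ j → ∀ k : ℤ, δ ≤ |α i - α j - k| := by
    intro i hi j hj hij k
    have h1 := dist62 hr har hx ((i : ℤ) - j) (by
      intro h
      apply hij
      have : (i : ℤ) = j := by linarith
      exact_mod_cast this) (hP i hi j hj) (⌊(i : ℝ) * x⌋ - ⌊(j : ℝ) * x⌋ + k)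
    rw [← hδ] at h1
    have h2 : α i - α j - k = (((i : ℤ) - j : ℤ) : ℝ) * x - ((⌊(i : ℝ) * x⌋ - ⌊(j : ℝ) * x⌋ + k : ℤ) : ℝ) := by
      rw [hα]
      dsimp only
      unfold Int.fract
      push_cast
      ring
    rw [h2]
    exact h1
  rcases P.eq_empty_or_nonempty with hPe | hPe
  · rw [hPe, Finset.sum_empty]
    positivity
  obtain ⟨i0, hi0, hmin⟩ := Finset.exists_min_image P α hPe
  have hls := Pool.Agent.Helper93.MLS.additive_ls P α (δ := δ) (x0 := α i0 - δ / 2) hδ0 (by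
      intro i hi j hj hij
      have := hdist i hi j hj hij 0
      push_cast at this
      rw [sub_zero] at this
      exact this) (by
      intro i hi
      have h1 := hmin i hi
      refine ⟨by linarith, ?_⟩
      by_cases hii : i = i0
      · rw [hii]
        linarith
      · have h2 := hdist i hi i0 hi0 hii 1
        push_cast at h2
        have h3 : α i < 1 := by rw [hα]; exact Int.fract_lt_one _
        have h4 : 0 ≤ α i0 := by rw [hα]; exact Int.fract_nonneg _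
        rw [abs_of_nonpos (by linarith)] at h2
        linarith) 0 A f
  have hI : Finset.Ioc 0 (0 + A) = Finset.Icc 1 A := by
    ext n
    rw [Finset.mem_Ioc, Finset.mem_Icc]
    omega
  rw [hI, hδi] at hls
  refine le_trans (le_of_eq ?_) hls
  refine Finset.sum_congr rfl fun n _ => ?_
  congr 2
  refine Finset.sum_congr rfl fun m _ => ?_
  congr 1
  have h1 : (m : ℝ) * n * x = (m : ℝ) * α n + (((m : ℤ) * ⌊(n : ℝ) * x⌋ : ℤ) : ℝ) := by
    rw [hα]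
    dsimp only
    unfold Int.fract
    push_cast
    ring
  rw [h1, ex_add_int]
  rfl

theorem type_two_r {a : ℤ} {r : ℕ} (hr : 1 ≤ r) (har : IsCoprime a (r : ℤ)) {x : ℝ} (hx : |x - a / r| ≤ 1 / (r : ℝ) ^ 2)
    (A B : ℕ) (f g : ℕ → ℂ) :
    ‖∑ m ∈ Icc 1 A, ∑ n ∈ Icc 1 B, f m * g n * ex (((m : ℝ) * n) * x)‖ ^ 2 ≤
      16 * ((A : ℝ) * B / r + A + B + r) * (∑ m ∈ Icc 1 A, ‖f m‖ ^ 2) * ∑ n ∈ Icc 1 B, ‖g n‖ ^ 2 := by
  have hr0 : (0 : ℝ) < r := by exact_mod_cast hr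
  have hr1 : (1 : ℝ) ≤ r := by exact_mod_cast hr
  obtain ⟨S, hS⟩ : ∃ S : ℕ → ℂ, S = fun n : ℕ => ∑ m ∈ Icc 1 A, f m * ex (((m : ℝ) * n) * x) := ⟨_, rfl⟩
  obtain ⟨Φ, hΦ⟩ : ∃ Φ : ℝ, Φ = ∑ m ∈ Icc 1 A, ‖f m‖ ^ 2 := ⟨_, rfl⟩
  have hΦ0 : 0 ≤ Φ := by rw [hΦ]; positivity
  have e1 : ∑ m ∈ Icc 1 A, ∑ n ∈ Icc 1 B, f m * g n * ex (((m : ℝ) * n) * x) = ∑ n ∈ Icc 1 B, g n * S n := by
    rw [Finset.sum_comm, hS]
    refine Finset.sum_congr rfl fun n _ => ?_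
    dsimp only
    rw [Finset.mul_sum]
    refine Finset.sum_congr rfl fun m _ => ?_
    ring
  have e2 : ‖∑ n ∈ Icc 1 B, g n * S n‖ ^ 2 ≤ (∑ n ∈ Icc 1 B, ‖g n‖ ^ 2) * ∑ n ∈ Icc 1 B, ‖S n‖ ^ 2 := by
    calc ‖∑ n ∈ Icc 1 B, g n * S n‖ ^ 2 ≤ (∑ n ∈ Icc 1 B, ‖g n‖ * ‖S n‖) ^ 2 := by
          refine pow_le_pow_left₀ (norm_nonneg _) ?_ 2
          refine (norm_sum_le _ _).trans (le_of_eq ?_)
          refine Finset.sum_congr rfl fun n _ => norm_mul _ _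
      _ ≤ _ := Finset.sum_mul_sq_le_sq_mul_sq _ _ _
  -- the blocks
  obtain ⟨h, hh⟩ : ∃ h : ℕ, h = (r + 1) / 2 := ⟨_, rfl⟩
  have hh1 : 1 ≤ h := by omega
  have hh2 : 2 * (h - 1) ≤ r := by omega
  have hh3 : r ≤ 2 * h := by omega
  have e3 : ∑ n ∈ Icc 1 B, ‖S n‖ ^ 2 = ∑ j ∈ range (B / h + 1), ∑ n ∈ (Icc 1 B).filter (fun n => n / h = j), ‖S n‖ ^ 2 := by
    symm
    refine Finset.sum_fiberwise_of_maps_to ?_ _
    intro n hn
    rw [Finset.mem_Icc] at hn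
    rw [Finset.mem_range]
    have := Nat.div_le_div_right (c := h) hn.2
    omega
  have e4 : ∀ j ∈ range (B / h + 1), ∑ n ∈ (Icc 1 B).filter (fun n => n / h = j), ‖S n‖ ^ 2 ≤
      (2 * r + Real.pi * A) * Φ := by
    intro j _
    rw [hS, hΦ]
    refine block62 hr har hx A f _ ?_
    intro n hn n' hn'
    rw [Finset.mem_filter] at hn hn'
    have h1 := Nat.div_add_mod n h
    have h2 := Nat.div_add_mod n' h
    have h3 := Nat.mod_lt n hh1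
    have h4 := Nat.mod_lt n' hh1
    rw [hn.2] at h1
    rw [hn'.2] at h2
    have h5 : |(n : ℤ) - n'| ≤ (h : ℤ) - 1 := by
      rw [abs_le]
      constructor <;> omega
    omega
  have e5 : ∑ n ∈ Icc 1 B, ‖S n‖ ^ 2 ≤ (2 * B / r + 1) * ((2 * r + Real.pi * A) * Φ) := by
    rw [e3]
    refine (Finset.sum_le_sum e4).trans ?_
    rw [Finset.sum_const, Finset.card_range, nsmul_eq_mul]
    refine mul_le_mul_of_nonneg_right ?_ (by positivity)
    push_cast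
    have h1 : ((B / h : ℕ) : ℝ) ≤ (B : ℝ) / h := Nat.cast_div_le
    have h2 : (B : ℝ) / h ≤ 2 * B / r := by
      have hh0 : (0 : ℝ) < h := by exact_mod_cast hh1
      have hrh : (r : ℝ) ≤ 2 * h := by exact_mod_cast hh3
      rw [div_le_div_iff₀ hh0 hr0]
      have : (0 : ℝ) ≤ B := Nat.cast_nonneg B
      nlinarith
    linarith
  have e6 : (2 * (B : ℝ) / r + 1) * (2 * r + Real.pi * A) ≤ 16 * ((A : ℝ) * B / r + A + B + r) := by
    have hpi := Real.pi_lt_four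
    have hpi0 := Real.pi_pos
    have hA0 : (0 : ℝ) ≤ A := Nat.cast_nonneg A
    have hB0 : (0 : ℝ) ≤ B := Nat.cast_nonneg B
    have h1 : (2 * (B : ℝ) / r + 1) * (2 * r + Real.pi * A) = 4 * B + 2 * Real.pi * (A * B / r) + 2 * r + Real.pi * A := by
      field_simp
      ring
    rw [h1]
    have h2 : Real.pi * (A * B / r) ≤ 4 * (A * B / r) := mul_le_mul_of_nonneg_right hpi.le (by positivity)
    have h3 : Real.pi * A ≤ 4 * A := mul_le_mul_of_nonneg_right hpi.le hA0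
    have h4 : 0 ≤ (A : ℝ) * B / r := by positivity
    linarith
  rw [e1, ← hΦ]
  have hG0 : 0 ≤ ∑ n ∈ Icc 1 B, ‖g n‖ ^ 2 := by positivity
  calc ‖∑ n ∈ Icc 1 B, g n * S n‖ ^ 2 ≤ (∑ n ∈ Icc 1 B, ‖g n‖ ^ 2) * ∑ n ∈ Icc 1 B, ‖S n‖ ^ 2 := e2
    _ ≤ (∑ n ∈ Icc 1 B, ‖g n‖ ^ 2) * ((2 * B / r + 1) * ((2 * r + Real.pi * A) * Φ)) :=
        mul_le_mul_of_nonneg_left e5 hG0
    _ = ((2 * B / r + 1) * (2 * r + Real.pi * A)) * (Φ * ∑ n ∈ Icc 1 B, ‖g n‖ ^ 2) := by ring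
    _ ≤ (16 * ((A : ℝ) * B / r + A + B + r)) * (Φ * ∑ n ∈ Icc 1 B, ‖g n‖ ^ 2) :=
        mul_le_mul_of_nonneg_right e6 (by positivity)
    _ = _ := by ring

theorem type_two_x {a : ℤ} {q : ℕ} (hq : 1 ≤ q) (haq : IsCoprime a (q : ℤ)) (x : ℝ)
    (A B : ℕ) (f g : ℕ → ℂ) :
    ‖∑ m ∈ Icc 1 A, ∑ n ∈ Icc 1 B, f m * g n * ex (((m : ℝ) * n) * x)‖ ^ 2 ≤
      64 * ((A : ℝ) * B / QQ ((A : ℝ) * B) x a q + A + B + QQ ((A : ℝ) * B) x a q) *
        (∑ m ∈ Icc 1 A, ‖f m‖ ^ 2) * ∑ n ∈ Icc 1 B, ‖g n‖ ^ 2 := by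
  have hQ := QQ_pos (x := x) (a := a) (M := (A : ℝ) * B) (by positivity) hq
  have hQ0 : 0 < QQ ((A : ℝ) * B) x a q := by linarith
  by_cases hAB : (0 : ℝ) < (A : ℝ) * B
  · obtain ⟨c, r, hr, hcr, hx, hle⟩ := appr hq haq x hAB
    refine (type_two_r hr hcr hx A B f g).trans ?_
    have h1 : 16 * ((A : ℝ) * B / r + A + B + r) ≤
        64 * ((A : ℝ) * B / QQ ((A : ℝ) * B) x a q + A + B + QQ ((A : ℝ) * B) x a q) := by
      have hA0 : (0 : ℝ) ≤ A := Nat.cast_nonneg A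
      have hB0 : (0 : ℝ) ≤ B := Nat.cast_nonneg B
      linarith
    have h2 : 0 ≤ ∑ m ∈ Icc 1 A, ‖f m‖ ^ 2 := by positivity
    have h3 : 0 ≤ ∑ n ∈ Icc 1 B, ‖g n‖ ^ 2 := by positivity
    exact mul_le_mul_of_nonneg_right (mul_le_mul_of_nonneg_right h1 h2) h3
  · have h0 : ∑ m ∈ Icc 1 A, ∑ n ∈ Icc 1 B, f m * g n * ex (((m : ℝ) * n) * x) = 0 := by
      by_cases hA : A = 0
      · rw [hA]
        simp
      · have hB : B = 0 := by
          by_contra hB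
          apply hAB
          have h1 : (0 : ℝ) < A := by exact_mod_cast Nat.pos_of_ne_zero hA
          have h2 : (0 : ℝ) < B := by exact_mod_cast Nat.pos_of_ne_zero hB
          positivity
        rw [hB]
        simp
    rw [h0, norm_zero, zero_pow (by norm_num)]
    have hA0 : (0 : ℝ) ≤ A := Nat.cast_nonneg A
    have hB0 : (0 : ℝ) ≤ B := Nat.cast_nonneg B
    positivity

end Pool.Helper19.V5
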